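import Pool.Agent.Helper85.UV.LD
import Pool.Agent.TH463.UQ.Point
import Pool.Agent.TH463.UR.Exc

set_option autoImplicit false

/-! Sequences of multipliers with bounded moments; the union bound. -/

namespace Pool.Agent.Helper85.UV
open Finset Filter Topology
open Pool.Agent.H769R3 (X rep rep_nonneg rep_lt_one coe_rep rep_coe psi psi_neg)
open Pool.Agent.TH463.UP (fourier_rat BadPair rat_sep Appr cP D D_lt cnt)
open Pool.Agent.TH935.GF (En)

/-- Exhaustions of a set by finite boxes with a majorant of regular growth. -/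
structure Bxs (Γ : Type) where
  ht : Γ → ℕ
  bx : ℕ → Finset Γ
  dom : Set Γ
  mem : ∀ c Y, c ∈ bx Y ↔ c ∈ dom ∧ ht c < Y
  A : ℕ → ℝ
  A0 : ∀ Y, 0 ≤ A Y
  L : ℝ
  L0 : 0 < L
  sum : ∀ Y, 1 ≤ Y → ∑ i ∈ range (Nat.log 2 Y + 1), A (2 ^ (i + 1)) ≤ L * A Y

/-- Families of integers with bounded moments modulo all `q ≤ N(Y)`, up to a power of `log q`. -/
structure Mom {Γ : Type} (B : Bxs Γ) (v : Γ → ℤ) (N : ℕ → ℕ) (r e : ℕ) (K : ℝ) : Prop where
  hr : 1 ≤ r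
  hK : 1 ≤ K
  lt : ∀ (Y : ℕ) (c : Γ), B.ht c < Y → (v c).natAbs < N Y
  tends : Tendsto N atTop atTop
  mom : ∀ (Y q : ℕ) [NeZero q], q ≤ N Y →
    ∑ t : ZMod q, ‖Sm (fun c : {c // c ∈ B.bx Y} => v c) t‖ ^ (2 * r) ≤
      K * (1 + Real.log q) ^ e * (B.A Y) ^ (2 * r)

lemma mom_of_energy {Γ : Type} {B : Bxs Γ} {v : Γ → ℤ} {N : ℕ → ℕ} {r : ℕ} {K : ℝ} (hr : 1 ≤ r)
    (hlt : ∀ (Y : ℕ) (c : Γ), B.ht c < Y → (v c).natAbs < N Y) (htends : Tendsto N atTop atTop)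
    (hen : ∀ Y : ℕ, (En r (fun c : {c // c ∈ B.bx Y} => v c) : ℝ) * N Y ≤ K * (B.A Y) ^ (2 * r)) :
    Mom B v N r 0 ((2 * r + 2) * max K 1) := by
  refine ⟨hr, ?_, hlt, htends, fun Y q _ hq => ?_⟩
  · have h1 : (1 : ℝ) ≤ max K 1 := le_max_right _ _
    have h2 : (0 : ℝ) ≤ r := Nat.cast_nonneg _
    nlinarith
  · have h1 := moment (q := q) (fun c : {c // c ∈ B.bx Y} => v c) r (N Y) (fun c => by
      have := hlt Y c ((B.mem c Y).1 c.2).2
      have h2 : |v c| = ((v c).natAbs : ℤ) := by simp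
      rw [h2]
      exact_mod_cast this.le) hq
    refine h1.trans ?_
    have h2 : (En r (fun c : {c // c ∈ B.bx Y} => v c) : ℝ) * N Y ≤ max K 1 * (B.A Y) ^ (2 * r) :=
      (hen Y).trans (mul_le_mul_of_nonneg_right (le_max_left _ _) (pow_nonneg (B.A0 Y) _))
    calc _ ≤ (2 * r + 2) * (max K 1 * (B.A Y) ^ (2 * r)) := mul_le_mul_of_nonneg_left h2 (by positivity)
      _ = _ := by rw [pow_zero]; ring

lemma norm_natAbs (p : ℕ) (ρ : ℚ) [NeZero ρ.den] (m : ℤ) (β : ℕ) :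
    ‖∑ j ∈ range β, (fourier ((m.natAbs : ℕ) : ℤ) ((p ^ j : ℕ) • ((ρ : ℝ) : X)) : ℂ)‖ =
      ‖∑ j ∈ range β, psi (q := ρ.den) ((p : ZMod ρ.den) ^ j * ((m : ZMod ρ.den) * (ρ.num : ZMod ρ.den)))‖ := by
  rw [sum_congr rfl fun j _ => fourier_rat p ρ m.natAbs j]
  rcases le_total 0 m with hm | hm
  · have h1 : ((m.natAbs : ℕ) : ZMod ρ.den) = (m : ZMod ρ.den) := by
      have h2 : ((m.natAbs : ℕ) : ℤ) = m := Int.natAbs_of_nonneg hm
      rw [← Int.cast_natCast, h2]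
    rw [h1]
  · have h1 : ((m.natAbs : ℕ) : ZMod ρ.den) = -(m : ZMod ρ.den) := by
      have h2 : ((m.natAbs : ℕ) : ℤ) = -m := by omega
      rw [← Int.cast_natCast, h2, Int.cast_neg]
    rw [h1, ← Complex.norm_conj, map_sum]
    congr 1
    apply sum_congr rfl
    intro j _
    rw [← psi_neg]
    congr 1
    ring

open Classical in
theorem card_badPair {Γ : Type} {B : Bxs Γ} {v : Γ → ℤ} {N : ℕ → ℕ} {r e : ℕ} {K : ℝ} (h : Mom B v N r e K) {p : ℕ} (hp : 2 ≤ p)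
    {δ : ℝ} (hδ : 0 < δ) (hδ1 : δ ≤ 1) (β Y : ℕ) (hβ : 4 ≤ δ * β) (ρ : ℚ) (h1 : p ^ β ≤ ρ.den)
    (h2 : ρ.den ≤ N Y) :
    (#((B.bx Y).filter (fun c => BadPair p δ β (v c).natAbs ρ)) : ℝ) ≤
      8 * (K * (1 + Real.log ρ.den) ^ e) * B.A Y * Real.exp (-(lam δ r * δ / 16) * β) := by
  haveI : NeZero ρ.den := ⟨ρ.den_nz⟩
  have hunit : IsUnit (ρ.num : ZMod ρ.den) := by
    have hc : IsCoprime ρ.num (ρ.den : ℤ) := Int.isCoprime_iff_gcd_eq_one.2 (by
      have := ρ.reduced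
      rw [Nat.Coprime] at this
      simpa [Int.gcd] using this)
    exact (ZMod.coe_int_isUnit_iff_isCoprime ρ.num ρ.den).2 hc.symm
  have hm := h.mom Y ρ.den h2
  have hden : (1 : ℝ) ≤ ρ.den := by exact_mod_cast ρ.den_pos
  have hlog : 0 ≤ Real.log ρ.den := Real.log_nonneg hden
  have hK' : 1 ≤ K * (1 + Real.log ρ.den) ^ e := by
    have h3 : (1 : ℝ) ≤ (1 + Real.log ρ.den) ^ e := one_le_pow₀ (by linarith)
    have h4 := h.hK
    nlinarith
  have h3 := ld_norm (q := ρ.den) (fun c : {c // c ∈ B.bx Y} => v c) hunit hp h.hr hK' (B.A0 Y) hm hδ hδ1 h1 hβ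
  refine le_trans ?_ h3
  have hsub : (B.bx Y).filter (fun c => BadPair p δ β (v c).natAbs ρ) ⊆
      (univ.filter fun i : {c // c ∈ B.bx Y} => δ * β <
        ‖∑ j ∈ range β, psi ((p : ZMod ρ.den) ^ j * ((v i : ZMod ρ.den) * (ρ.num : ZMod ρ.den)))‖).image Subtype.val := by
    intro c hc
    rw [mem_filter] at hc
    rw [mem_image]
    refine ⟨⟨c, hc.1⟩, ?_, rfl⟩
    rw [mem_filter]
    refine ⟨mem_univ _, ?_⟩
    have h4 := hc.2
    unfold BadPair at h4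
    rw [norm_natAbs] at h4
    exact h4
  exact_mod_cast (card_le_card hsub).trans card_image_le

/-- the gain -/
noncomputable def gn (δ : ℝ) (r : ℕ) : ℝ := lam δ r * δ / 256

lemma gn_pos {δ : ℝ} (hδ : 0 < δ) (r : ℕ) : 0 < gn δ r := by
  unfold gn
  have := lam_pos hδ r
  positivity

open Classical in
/-- the large deviation property -/
def LDH {Γ : Type} (B : Bxs Γ) (v : Γ → ℤ) (N : ℕ → ℕ) (p : ℕ) (δ g K : ℝ) : Prop := 0 ≤ K ∧
  ∀ (β Y : ℕ) (ρ : ℚ), 4 ≤ δ * β → p ^ β ≤ ρ.den → ρ.den < p ^ (β + 1) → ρ.den ≤ N Y →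
    (#((B.bx Y).filter (fun c => BadPair p δ β (v c).natAbs ρ)) : ℝ) ≤ K * B.A Y * Real.exp (-(8 * g) * β)

theorem ldh_of_mom {Γ : Type} {B : Bxs Γ} {v : Γ → ℤ} {N : ℕ → ℕ} {r e : ℕ} {K : ℝ} (h : Mom B v N r e K) {p : ℕ} (hp : 2 ≤ p)
    {δ : ℝ} (hδ : 0 < δ) (hδ1 : δ ≤ 1) : ∃ K' : ℝ, LDH B v N p δ (gn δ r) K' := by
  classical
  have hg := gn_pos hδ r
  have hK := h.hK
  obtain ⟨A, hA0, hA⟩ := Pool.Agent.TH463.UR.exists_pol hp e (Real.exp_pos (-(8 * gn δ r)))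
    (Real.exp_lt_one_iff.2 (by linarith))
  refine ⟨8 * K * A, by positivity, fun β Y ρ hβ h1 h2 h3 => ?_⟩
  have hAY := B.A0 Y
  refine (card_badPair h hp hδ hδ1 β Y hβ ρ h1 h3).trans ?_
  have hden : (1 : ℝ) ≤ ρ.den := by exact_mod_cast ρ.den_pos
  have hlog : (1 + Real.log ρ.den) ^ e ≤ Pool.Agent.TH463.UR.pol p e β := by
    unfold Pool.Agent.TH463.UR.pol
    have h7 : Real.log ρ.den ≤ (β + 1) * Real.log p := by
      have h8 : (ρ.den : ℝ) ≤ (p : ℝ) ^ (β + 1) := by exact_mod_cast h2.le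
      refine (Real.log_le_log (by linarith) h8).trans (le_of_eq ?_)
      rw [Real.log_pow]
      push_cast
      ring
    have h9 : 0 ≤ Real.log ρ.den := Real.log_nonneg hden
    exact pow_le_pow_left₀ (by linarith) (by linarith) _
  have hE : Real.exp (-(lam δ r * δ / 16) * β) = (Real.exp (-(8 * gn δ r)) ^ 2) ^ β := by
    rw [← Real.exp_nat_mul, ← Real.exp_nat_mul]
    congr 1
    unfold gn
    push_cast
    ring
  have hE2 : Real.exp (-(8 * gn δ r) * β) = Real.exp (-(8 * gn δ r)) ^ β := by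
    rw [← Real.exp_nat_mul]
    congr 1
    ring
  rw [hE, hE2]
  calc 8 * (K * (1 + Real.log ρ.den) ^ e) * B.A Y * (Real.exp (-(8 * gn δ r)) ^ 2) ^ β ≤
        8 * (K * Pool.Agent.TH463.UR.pol p e β) * B.A Y * (Real.exp (-(8 * gn δ r)) ^ 2) ^ β := by
        apply mul_le_mul_of_nonneg_right _ (by positivity)
        apply mul_le_mul_of_nonneg_right _ (by positivity)
        apply mul_le_mul_of_nonneg_left _ (by norm_num)
        exact mul_le_mul_of_nonneg_left hlog (by linarith)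
    _ = 8 * K * B.A Y * (Pool.Agent.TH463.UR.pol p e β * (Real.exp (-(8 * gn δ r)) ^ 2) ^ β) := by ring
    _ ≤ 8 * K * B.A Y * (A * Real.exp (-(8 * gn δ r)) ^ β) := mul_le_mul_of_nonneg_left (hA β) (by positivity)
    _ = _ := by ring

open Classical in
lemma exc_card {p : ℕ} (hp : 2 ≤ p) (δ : ℝ) (β N : ℕ) (A : Set X) {κ : Type} (U : Finset κ) (f : κ → ℕ)
    {B : ℝ} (hB : 0 ≤ B) (hcount : ∀ ρ : ℚ, p ^ β ≤ ρ.den → ρ.den < p ^ (β + 1) → ρ.den ≤ N →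
      (#(U.filter fun c => BadPair p δ β (f c) ρ) : ℝ) ≤ B) :
    (#(U.filter (fun c => ∃ ρ : ℚ, Appr p A β N ρ ∧ BadPair p δ β (f c) ρ)) : ℝ) ≤
      cP p * cnt p (2 * β + 2) A * B := by
  have hpR : (2 : ℝ) ≤ p := by exact_mod_cast hp
  have hp0 : (0 : ℝ) < p := by linarith
  set R := 2 * β + 2 with hR
  set L : ℤ := (p : ℤ) ^ 2 + 1 with hL
  set S : Finset ℕ := (range (p ^ R)).filter (fun s => ∃ x ∈ A, D p R x = s) with hS
  set SS : Finset ℤ := (S ×ˢ Finset.Icc (-L) L).image (fun c => (c.1 : ℤ) + c.2) with hSS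
  have hSSc : SS.card ≤ cP p * cnt p R A := by
    refine card_image_le.trans ?_
    rw [card_product, Int.card_Icc, mul_comm]
    refine Nat.mul_le_mul (le_of_eq ?_) le_rfl
    have : L + 1 - -L = ((cP p : ℕ) : ℤ) := by
      rw [hL]
      unfold cP
      push_cast
      ring
    rw [this, Int.toNat_natCast]
  set E : ℤ → Finset κ := fun σ => U.filter
    (fun c => ∃ ρ : ℚ, (Appr p A β N ρ ∧ ⌊(p : ℝ) ^ R * ρ⌋ = σ) ∧ BadPair p δ β (f c) ρ) with hE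
  have hEc : ∀ σ, ((E σ).card : ℝ) ≤ B := by
    intro σ
    by_cases hex : ∃ ρ : ℚ, Appr p A β N ρ ∧ ⌊(p : ℝ) ^ R * ρ⌋ = σ
    · obtain ⟨ρ₀, hρ₀, hf₀⟩ := hex
      refine le_trans ?_ (hcount ρ₀ hρ₀.1 hρ₀.2.1 hρ₀.2.2.1)
      have : E σ ⊆ U.filter (fun c => BadPair p δ β (f c) ρ₀) := by
        intro c hh
        rw [hE, mem_filter] at hh
        obtain ⟨h1, ρ, ⟨h2, h3⟩, h4⟩ := hh
        have : ρ = ρ₀ := rat_sep h2.2.1 hρ₀.2.1 (by rw [← hR, h3, hf₀])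
        rw [this] at h4
        exact mem_filter.2 ⟨h1, h4⟩
      exact_mod_cast card_le_card this
    · have : E σ = ∅ := by
        rw [hE, filter_eq_empty_iff]
        intro c _ hcon
        obtain ⟨ρ, h2, _⟩ := hcon
        exact hex ⟨ρ, h2⟩
      rw [this]
      simp only [card_empty, Nat.cast_zero]
      exact hB
  have hsub : U.filter (fun c => ∃ ρ : ℚ, Appr p A β N ρ ∧ BadPair p δ β (f c) ρ) ⊆ SS.biUnion E := by
    intro c hh
    rw [mem_filter] at hh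
    obtain ⟨h1, ρ, hρ, hbad⟩ := hh
    rw [mem_biUnion]
    refine ⟨⌊(p : ℝ) ^ R * ρ⌋, ?_, ?_⟩
    · obtain ⟨hd1, hd2, hd3, x, hx, hxρ⟩ := hρ
      rw [hSS, mem_image]
      refine ⟨(D p R x, ⌊(p : ℝ) ^ R * ρ⌋ - (D p R x : ℤ)), ?_, by simp⟩
      rw [mem_product]
      refine ⟨mem_filter.2 ⟨mem_range.2 (D_lt hp _ _), x, hx, rfl⟩, ?_⟩
      rw [mem_Icc]
      have hq : (p : ℝ) ^ β ≤ ρ.den := by exact_mod_cast hd1
      have hN : (ρ.den : ℝ) ≤ N := by exact_mod_cast hd3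
      have hpβ : (0 : ℝ) < (p : ℝ) ^ β := by positivity
      have hclose : |(p : ℝ) ^ R * rep x - (p : ℝ) ^ R * ρ| ≤ (p : ℝ) ^ 2 := by
        rw [← mul_sub, abs_mul, abs_of_pos (by positivity : (0 : ℝ) < (p : ℝ) ^ R)]
        have h5 : (p : ℝ) ^ R = (p : ℝ) ^ 2 * ((p : ℝ) ^ β * (p : ℝ) ^ β) := by
          rw [hR, pow_add, two_mul, pow_add]; ring
        have h6 : (0 : ℝ) < (N + 1) * ρ.den := by positivity
        calc (p : ℝ) ^ R * |rep x - ρ| ≤ (p : ℝ) ^ R * (1 / ((N + 1) * ρ.den)) :=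
              mul_le_mul_of_nonneg_left hxρ (by positivity)
          _ ≤ (p : ℝ) ^ 2 := by
            rw [mul_one_div, div_le_iff₀ h6, h5]
            have h7 : (p : ℝ) ^ β * (p : ℝ) ^ β ≤ (N + 1) * ρ.den :=
              mul_le_mul (by linarith) hq hpβ.le (by positivity)
            exact mul_le_mul_of_nonneg_left h7 (by positivity)
      rw [abs_le] at hclose
      have hD : (D p R x : ℤ) = ⌊(p : ℝ) ^ R * rep x⌋ := by
        unfold D
        rw [Int.natCast_floor_eq_floor (mul_nonneg (by positivity) (rep_nonneg x))]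
      have f1 := Int.floor_le ((p : ℝ) ^ R * rep x)
      have f2 := Int.lt_floor_add_one ((p : ℝ) ^ R * rep x)
      have f3 := Int.floor_le ((p : ℝ) ^ R * (ρ : ℝ))
      have f4 := Int.lt_floor_add_one ((p : ℝ) ^ R * (ρ : ℝ))
      rw [hD]
      have hKR : ((L : ℤ) : ℝ) = (p : ℝ) ^ 2 + 1 := by rw [hL]; push_cast; ring
      constructor
      · have : ((⌊(p : ℝ) ^ R * rep x⌋ : ℤ) : ℝ) <
            ((⌊(p : ℝ) ^ R * (ρ : ℝ)⌋ + L + 1 : ℤ) : ℝ) := by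
          push_cast
          rw [hKR]
          linarith [hclose.2]
        have := Int.cast_lt.1 this
        omega
      · have : ((⌊(p : ℝ) ^ R * (ρ : ℝ)⌋ : ℤ) : ℝ) <
            ((⌊(p : ℝ) ^ R * rep x⌋ + L + 1 : ℤ) : ℝ) := by
          push_cast
          rw [hKR]
          linarith [hclose.1]
        have := Int.cast_lt.1 this
        omega
    · rw [hE, mem_filter]
      exact ⟨h1, ρ, ⟨hρ, rfl⟩, hbad⟩
  have h1 : (#(U.filter (fun c => ∃ ρ : ℚ, Appr p A β N ρ ∧ BadPair p δ β (f c) ρ)) : ℝ) ≤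
      ∑ σ ∈ SS, ((E σ).card : ℝ) := by
    exact_mod_cast (card_le_card hsub).trans card_biUnion_le
  refine h1.trans ((sum_le_sum fun σ _ => hEc σ).trans ?_)
  rw [sum_const, nsmul_eq_mul]
  have h2 : (SS.card : ℝ) ≤ cP p * cnt p R A := by exact_mod_cast hSSc
  exact mul_le_mul_of_nonneg_right h2 hB

end Pool.Agent.Helper85.UV
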