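import Pool.Agent.Helper85.UV.Point
import Pool.Agent.TH463.UQ.Coeff

set_option autoImplicit false

/-! The Fourier coefficient of an invariant measure at a frequency which is not exceptional. -/

namespace Pool.Agent.Helper85.UV
open Finset Filter Topology MeasureTheory
open scoped ENNReal
open Pool.Agent.H769R3 (X rep fourier_norm)
open Pool.Agent.TH463.UP (D D_lt measurable_D Near mp_pow)
open Pool.Agent.TH463.UQ (Norm Su Pos integrable_D continuous_Su integrable_continuous integral_Su meas_near gibbs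
  ent ent_le)

lemma u_split (p k : ℕ) (w : ℕ → ℝ) (δ g ε : ℝ) (Q N : ℕ) : (fun x => u p k w δ g ε Q N x) =
    fun x : X => -Real.log (w (D p (k + 1) x)) + (ε + 2 * g * δ) +
      AA p g * (Near Q N).indicator (fun _ => (1 : ℝ)) x := by
  classical
  funext x
  unfold u
  by_cases h : x ∈ Near Q N
  · simp [h]
  · simp [h]

lemma integrable_u {p : ℕ} (hp : 2 ≤ p) (k : ℕ) (w : ℕ → ℝ) (δ g ε : ℝ) (Q N : ℕ) (μ : Measure X)
    [IsFiniteMeasure μ] : Integrable (fun x => u p k w δ g ε Q N x) μ := by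
  rw [u_split]
  exact ((integrable_D hp μ (k + 1) (fun s => -Real.log (w s))).add (integrable_const _)).add
    (((integrable_const _).indicator (meas_near Q N)).const_mul _)

lemma integral_u {p : ℕ} (hp : 2 ≤ p) (k : ℕ) (w : ℕ → ℝ) (δ g ε : ℝ) (Q N : ℕ) (μ : Measure X)
    [IsProbabilityMeasure μ] : ∫ x, u p k w δ g ε Q N x ∂μ =
      ∫ x, -Real.log (w (D p (k + 1) x)) ∂μ + (ε + 2 * g * δ) + AA p g * μ.real (Near Q N) := by
  rw [u_split, integral_add, integral_add, integral_const_mul,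
    integral_indicator_const _ (meas_near Q N)]
  · simp
  · exact integrable_D hp μ (k + 1) (fun s => -Real.log (w s))
  · exact integrable_const _
  · exact (integrable_D hp μ (k + 1) (fun s => -Real.log (w s))).add (integrable_const _)
  · exact ((integrable_const _).indicator (meas_near Q N)).const_mul _

/-- **The Fourier coefficient at a frequency which is not exceptional.** -/
theorem coeff {p : ℕ} (hp : 2 ≤ p) {μ : Measure X} [IsProbabilityMeasure μ]
    (hμ : μ.map (fun x : X => (p : ℕ) • x) = μ) {δ g : ℝ} (hδ : 0 < δ) (hg : 0 < g) {k : ℕ} {w : ℕ → ℝ}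
    (hw : Pos w) (hwn : Norm p k w)
    (hent : ∫ x, -Real.log (w (D p (k + 1) x)) ∂μ ≤ ent p μ + 2 * (g * δ)) {β₀ N h : ℕ} (hhN : h < N)
    (hβ : Level p k δ g (g * δ) β₀) (hgood : h ∉ Exc p k w δ g β₀ N) :
    ‖∫ x, (fourier (h : ℤ) x : ℂ) ∂μ‖ ≤ 5 * δ + AA p g / g * μ.real (Near (p ^ β₀) N) := by
  set ε := g * δ with hε
  have hε0 : 0 < ε := by positivity
  set I := ∫ x, (fourier (h : ℤ) x : ℂ) ∂μ with hI
  set U := ∫ x, u p k w δ g ε (p ^ β₀) N x ∂μ with hU
  have hinvu : ∀ t : ℕ, ∫ x, u p k w δ g ε (p ^ β₀) N ((p ^ t : ℕ) • x) ∂μ = U := by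
    intro t
    have h2 := (mp_pow hμ t).map_eq
    have h3 : AEStronglyMeasurable (fun x => u p k w δ g ε (p ^ β₀) N x)
        (μ.map (fun x : X => (p ^ t : ℕ) • x)) := by
      rw [h2]
      exact (integrable_u hp k w δ g ε (p ^ β₀) N μ).aestronglyMeasurable
    rw [hU]
    conv_rhs => rw [← h2]
    rw [integral_map (by fun_prop) h3]
  have hintu : ∀ t : ℕ, Integrable (fun x => u p k w δ g ε (p ^ β₀) N ((p ^ t : ℕ) • x)) μ := by
    intro t
    exact ((mp_pow hμ t).integrable_comp
      (integrable_u hp k w δ g ε (p ^ β₀) N μ).aestronglyMeasurable).2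
      (integrable_u hp k w δ g ε (p ^ β₀) N μ)
  have key : ∀ L : ℕ, 1 ≤ L → (L : ℝ) * (g * ‖I‖ - U + ent p μ) ≤ Real.log (C0 p g N) := by
    intro L hL
    have hintS : Integrable (fun x => g * ‖Su p h L x‖) μ :=
      (integrable_continuous μ (continuous_Su p h L).norm).const_mul _
    have hintsum : Integrable
        (fun x => ∑ t ∈ range L, u p k w δ g ε (p ^ β₀) N ((p ^ t : ℕ) • x)) μ :=
      integrable_finsetSum _ fun t _ => hintu t
    have hintPsi : Integrable (Psi p k w δ g ε (p ^ β₀) N h L) μ := hintS.sub hintsum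
    have h1 := gibbs hp μ L hintPsi (C0_pos hp g N)
      (pressure hp hw hwn hδ hg hε0 hβ hhN hgood L)
    have h2 : ∫ x, Psi p k w δ g ε (p ^ β₀) N h L x ∂μ =
        g * ∫ x, ‖Su p h L x‖ ∂μ - L * U := by
      unfold Psi
      rw [integral_sub hintS hintsum, integral_const_mul, integral_finsetSum _ fun t _ => hintu t,
        sum_congr rfl fun t _ => hinvu t, sum_const, card_range, nsmul_eq_mul]
    have h3 : (L : ℝ) * ‖I‖ ≤ ∫ x, ‖Su p h L x‖ ∂μ := by
      refine le_trans (le_of_eq ?_) (norm_integral_le_integral_norm _)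
      rw [integral_Su hμ, norm_mul]
      simp [hI]
    have h4 := mul_le_mul_of_nonneg_left h3 hg.le
    have h5 := ent_le p μ hL
    rw [h2] at h1
    have e : (L : ℝ) * (g * ‖I‖ - U + ent p μ) =
        g * (L * ‖I‖) - L * U + ent p μ * L := by ring
    rw [e]
    linarith
  have hle : g * ‖I‖ ≤ U - ent p μ := by
    by_contra hcon
    rw [not_le] at hcon
    set a := g * ‖I‖ - U + ent p μ with ha
    have ha0 : 0 < a := by linarith
    obtain ⟨L, hL⟩ := exists_nat_gt (Real.log (C0 p g N) / a)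
    have h1 := key (L + 1) (by omega)
    rw [div_lt_iff₀ ha0] at hL
    push_cast at h1
    nlinarith
  rw [hU, integral_u hp] at hle
  have h6 : g * ‖I‖ ≤ 3 * ε + 2 * g * δ + AA p g * μ.real (Near (p ^ β₀) N) := by linarith
  have h7 : 3 * ε + 2 * g * δ = g * (5 * δ) := by
    rw [hε]
    ring
  rw [h7] at h6
  have h8 : ‖I‖ ≤ (g * (5 * δ) + AA p g * μ.real (Near (p ^ β₀) N)) / g := by
    rw [le_div_iff₀ hg]
    linarith
  refine h8.trans (le_of_eq ?_)
  field_simp

end Pool.Agent.Helper85.UV
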