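import Pool.Agent.Helper85.UV.Bad

set_option autoImplicit false

/-! The exceptional indices of a sequence of multipliers with bounded moments. -/

namespace Pool.Agent.Helper85.UV
open Finset Filter Topology
open scoped ENNReal
open Pool.Agent.H769R3 (X)
open Pool.Agent.TH463.UP (D D_lt cnt cnt_le_one Appr BadPair cP nx lt_nx)
open Pool.Agent.TH463.UQ (BW WB mB mB_zero W Z Z_W Norm tends geom_tail)

open Classical in
/-- few multipliers are bad for a given word -/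
lemma card_bad {Γ : Type} {B : Bxs Γ} {v : Γ → ℤ} {N : ℕ → ℕ} {K : ℝ} {p : ℕ} (hp : 2 ≤ p)
    {δ g : ℝ} (h : LDH B v N p δ g K) {β : ℕ} (hβ : 4 ≤ δ * β) (Y s : ℕ) :
    (#((B.bx Y).filter fun c => s ∈ BW p δ β (N Y) (v c).natAbs) : ℝ) ≤
      cP p * (K * B.A Y * Real.exp (-(8 * g) * β)) := by
  have hK := h.1
  have hAY := B.A0 Y
  have hB : 0 ≤ K * B.A Y * Real.exp (-(8 * g) * β) := by positivity
  have h1 := exc_card hp δ β (N Y) {x | D p (2 * β + 2) x = s} (B.bx Y) (fun c => (v c).natAbs) hB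
    (fun ρ h1 h2 h3 => h.2 β Y ρ hβ h1 h2 h3)
  have h2 : cnt p (2 * β + 2) {x : X | D p (2 * β + 2) x = s} ≤ 1 := cnt_le_one fun x hx => hx
  have h3 : (cnt p (2 * β + 2) {x : X | D p (2 * β + 2) x = s} : ℝ) ≤ 1 := by exact_mod_cast h2
  refine le_trans (le_of_eq ?_) (h1.trans ?_)
  · rfl
  apply mul_le_mul_of_nonneg_right _ hB
  calc (cP p : ℝ) * (cnt p (2 * β + 2) {x : X | D p (2 * β + 2) x = s} : ℝ) ≤
        cP p * 1 := mul_le_mul_of_nonneg_left h3 (by positivity)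
    _ = _ := mul_one _

/-- the mean weight of the bad words -/
lemma sum_mB {Γ : Type} {B : Bxs Γ} {v : Γ → ℤ} {N : ℕ → ℕ} {K : ℝ} {p : ℕ} (hp : 2 ≤ p)
    {k : ℕ} {w : ℕ → ℝ} (hw : Norm p k w) {δ g : ℝ} (h : LDH B v N p δ g K) {β : ℕ} (hβ : 4 ≤ δ * β) (Y : ℕ) :
    ∑ c ∈ B.bx Y, mB p k w δ β (N Y) (v c).natAbs ≤
      (p : ℝ≥0∞) ^ k * ENNReal.ofReal (cP p * (K * B.A Y * Real.exp (-(8 * g) * β))) := by
  classical
  set R := 2 * β + 2 with hR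
  set q : ℕ → ℝ≥0∞ := fun s => ⨆ x : X, ⨆ _ : D p R x = s, W p k w R x with hq
  have h1 : ∀ m, mB p k w δ β (N Y) m ≤ ∑ s ∈ range (p ^ R), if s ∈ BW p δ β (N Y) m then q s else 0 := by
    intro m
    unfold mB Z
    refine sum_le_sum fun s _ => iSup₂_le fun x hx => ?_
    unfold WB
    rw [← hR, hx]
    split_ifs with hs
    · exact le_iSup₂ (f := fun (x : X) (_ : D p R x = s) => W p k w R x) x hx
    · exact le_rfl
  refine (sum_le_sum fun c _ => h1 _).trans ?_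
  rw [sum_comm]
  have h2 : ∀ s ∈ range (p ^ R), (∑ c ∈ B.bx Y, if s ∈ BW p δ β (N Y) (v c).natAbs then q s else 0) ≤
      q s * ENNReal.ofReal (cP p * (K * B.A Y * Real.exp (-(8 * g) * β))) := by
    intro s _
    rw [← sum_filter, sum_const, nsmul_eq_mul, mul_comm]
    apply mul_le_mul' le_rfl
    rw [← ENNReal.ofReal_natCast]
    exact ENNReal.ofReal_le_ofReal (card_bad hp h hβ Y s)
  refine (sum_le_sum h2).trans ?_
  rw [← sum_mul]
  exact mul_le_mul' (Z_W hp hw R) le_rfl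

open Classical in
/-- few multipliers have heavy bad words -/
lemma markov {Γ : Type} {B : Bxs Γ} {v : Γ → ℤ} {N : ℕ → ℕ} {K : ℝ} {p : ℕ} (hp : 2 ≤ p)
    {k : ℕ} {w : ℕ → ℝ} (hw : Norm p k w) {δ g : ℝ} (h : LDH B v N p δ g K) {β : ℕ} (hβ : 4 ≤ δ * β) (Y : ℕ) :
    (#((B.bx Y).filter fun c => ENNReal.ofReal (Real.exp (-(4 * g) * β)) <
      mB p k w δ β (N Y) (v c).natAbs) : ℝ) ≤ (K * cP p * (p : ℝ) ^ k) * B.A Y * Real.exp (-(4 * g)) ^ β := by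
  have hK := h.1
  have hAY := B.A0 Y
  set F := (B.bx Y).filter fun c => ENNReal.ofReal (Real.exp (-(4 * g) * β)) <
      mB p k w δ β (N Y) (v c).natAbs with hF
  have h1 : (F.card : ℝ≥0∞) * ENNReal.ofReal (Real.exp (-(4 * g) * β)) ≤
      (p : ℝ≥0∞) ^ k * ENNReal.ofReal (cP p * (K * B.A Y * Real.exp (-(8 * g) * β))) := by
    refine le_trans ?_ (sum_mB hp hw h hβ Y)
    rw [← nsmul_eq_mul, ← sum_const]
    refine (sum_le_sum fun c hc => ?_).trans (sum_le_sum_of_subset (filter_subset _ _))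
    exact (mem_filter.1 hc).2.le
  have h2 : ENNReal.ofReal ((F.card : ℝ) * Real.exp (-(4 * g) * β)) ≤
      ENNReal.ofReal ((p : ℝ) ^ k * (cP p * (K * B.A Y * Real.exp (-(8 * g) * β)))) := by
    rw [ENNReal.ofReal_mul (Nat.cast_nonneg _), ENNReal.ofReal_mul (by positivity),
      ENNReal.ofReal_natCast, ENNReal.ofReal_pow (Nat.cast_nonneg _), ENNReal.ofReal_natCast]
    exact h1
  rw [ENNReal.ofReal_le_ofReal_iff (by positivity)] at h2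
  have e1 : Real.exp (-(8 * g) * β) = Real.exp (-(4 * g) * β) * Real.exp (-(4 * g)) ^ β := by
    rw [← Real.exp_nat_mul, ← Real.exp_add]
    congr 1
    ring
  rw [e1] at h2
  have hpos : 0 < Real.exp (-(4 * g) * β) := Real.exp_pos _
  refine le_of_mul_le_mul_right (h2.trans (le_of_eq ?_)) hpos
  ring

/-- the exceptional multipliers for the bound `N` -/
def Exc (p k : ℕ) (w : ℕ → ℝ) (δ g : ℝ) (β₀ N : ℕ) : Set ℕ :=
  {h | ∃ β, β₀ ≤ β ∧ ENNReal.ofReal (Real.exp (-(4 * g) * β)) < mB p k w δ β N h}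

open Classical in
lemma exc_card_le {Γ : Type} {B : Bxs Γ} {v : Γ → ℤ} {N : ℕ → ℕ} {K : ℝ} {p : ℕ} (hp : 2 ≤ p)
    {k : ℕ} {w : ℕ → ℝ} (hw : Norm p k w) {δ g : ℝ} (hδ : 0 < δ) (hg : 0 < g) (h : LDH B v N p δ g K) {β₀ : ℕ} (hβ : 4 ≤ δ * β₀) (Y : ℕ) :
    (#((B.bx Y).filter fun c => (v c).natAbs ∈ Exc p k w δ g β₀ (N Y)) : ℝ) ≤
      ((K * cP p * (p : ℝ) ^ k) *
        (Real.exp (-(4 * g)) ^ β₀ / (1 - Real.exp (-(4 * g))))) * B.A Y := by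
  have hK := h.1
  have hAY := B.A0 Y
  set θ := Real.exp (-(4 * g)) with hθ
  have hθ0 : 0 < θ := Real.exp_pos _
  have hθ1 : θ < 1 := by
    rw [hθ, Real.exp_lt_one_iff]
    linarith
  have hsub : (B.bx Y).filter (fun c => (v c).natAbs ∈ Exc p k w δ g β₀ (N Y)) ⊆
      (Finset.Ico β₀ (β₀ + N Y)).biUnion fun β => (B.bx Y).filter fun c =>
        ENNReal.ofReal (Real.exp (-(4 * g) * β)) < mB p k w δ β (N Y) (v c).natAbs := by
    intro c hc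
    rw [mem_filter] at hc
    obtain ⟨h1, β, h2, h3⟩ := hc
    rw [mem_biUnion]
    refine ⟨β, ?_, mem_filter.2 ⟨h1, h3⟩⟩
    rw [mem_Ico]
    refine ⟨h2, ?_⟩
    by_contra hcon
    rw [mB_zero hp (show N Y ≤ β by omega)] at h3
    simp at h3
  have h1 : (#((B.bx Y).filter fun c => (v c).natAbs ∈ Exc p k w δ g β₀ (N Y)) : ℝ) ≤
      ∑ β ∈ Finset.Ico β₀ (β₀ + N Y), (#((B.bx Y).filter fun c =>
        ENNReal.ofReal (Real.exp (-(4 * g) * β)) < mB p k w δ β (N Y) (v c).natAbs) : ℝ) := by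
    exact_mod_cast (card_le_card hsub).trans card_biUnion_le
  have hterm : ∀ β ∈ Finset.Ico β₀ (β₀ + N Y), (#((B.bx Y).filter fun c =>
        ENNReal.ofReal (Real.exp (-(4 * g) * β)) < mB p k w δ β (N Y) (v c).natAbs) : ℝ) ≤
        (K * cP p * (p : ℝ) ^ k) * B.A Y * θ ^ β := by
    intro β hβm
    have h2 := (mem_Ico.1 hβm).1
    have h3 : 4 ≤ δ * β := by
      refine hβ.trans (mul_le_mul_of_nonneg_left ?_ hδ.le)
      exact_mod_cast h2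
    exact markov hp hw h h3 Y
  refine h1.trans ((sum_le_sum hterm).trans ?_)
  rw [← mul_sum]
  calc (K * cP p * (p : ℝ) ^ k) * B.A Y * ∑ β ∈ Finset.Ico β₀ (β₀ + N Y), θ ^ β ≤
        (K * cP p * (p : ℝ) ^ k) * B.A Y * (θ ^ β₀ / (1 - θ)) :=
        mul_le_mul_of_nonneg_left (geom_tail hθ0 hθ1 β₀ (N Y)) (by positivity)
    _ = _ := by ring

/-- the choice of the level -/
def Level (p k : ℕ) (δ g ε : ℝ) (β₀ : ℕ) : Prop :=
  1 ≤ β₀ ∧ 2 * Real.pi ≤ δ * β₀ ∧ (p : ℝ) ^ k * (Real.exp (-ε) ^ β₀ / (1 - Real.exp (-ε))) ≤ 1 / 4 ∧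
    Real.exp (2 * g) * (Real.exp (-(2 * g)) ^ β₀ / (1 - Real.exp (-(2 * g)))) ≤ 1 / 4

open Classical in
lemma exc_bound {Γ : Type} {B : Bxs Γ} {v : Γ → ℤ} {N : ℕ → ℕ} {K : ℝ} {p : ℕ} (hp : 2 ≤ p)
    {k : ℕ} {w : ℕ → ℝ} (hw : Norm p k w) {δ g : ℝ} (hδ : 0 < δ) (hg : 0 < g) (h : LDH B v N p δ g K) {ε : ℝ}
    (hε : 0 < ε) {η : ℝ} (hη : 0 < η) : ∃ β₀ : ℕ, Level p k δ g ε β₀ ∧ ∀ Y : ℕ,
      (#((B.bx Y).filter fun c => (v c).natAbs ∈ Exc p k w δ g β₀ (N Y)) : ℝ) ≤ η * B.A Y := by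
  have e1 := tends (Real.exp_pos (-(4 * g))) (Real.exp_lt_one_iff.2 (by linarith))
    (K * cP p * (p : ℝ) ^ k) hη
  have e2 := tends (Real.exp_pos (-ε)) (Real.exp_lt_one_iff.2 (by linarith)) ((p : ℝ) ^ k)
    (by norm_num : (0 : ℝ) < 1 / 4)
  have e3 := tends (Real.exp_pos (-(2 * g))) (Real.exp_lt_one_iff.2 (by linarith))
    (Real.exp (2 * g)) (by norm_num : (0 : ℝ) < 1 / 4)
  have t2 : Tendsto (fun b : ℕ => δ * (b : ℝ)) atTop atTop :=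
    tendsto_natCast_atTop_atTop.const_mul_atTop hδ
  have e4 := t2.eventually_ge_atTop (2 * Real.pi)
  obtain ⟨b, ⟨⟨h1, h2⟩, h3⟩, h4, h5⟩ :=
    (((e1.and e2).and e3).and (e4.and (eventually_ge_atTop 1))).exists
  refine ⟨b, ⟨h5, h4, h2, h3⟩, fun Y => ?_⟩
  have h6 : 4 ≤ δ * b := by
    have := Real.pi_gt_three
    linarith
  exact (exc_card_le hp hw hδ hg h h6 Y).trans (mul_le_mul_of_nonneg_right h1 (B.A0 Y))

/-- the exceptional indices -/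
def ES {Γ : Type} (B : Bxs Γ) (v : Γ → ℤ) (N : ℕ → ℕ) (p k : ℕ) (w : ℕ → ℝ) (δ g : ℝ) (β₀ : ℕ) : Set Γ :=
  {c | (v c).natAbs ∈ Exc p k w δ g β₀ (N (nx (B.ht c)))}

lemma mem_ES {Γ : Type} {B : Bxs Γ} {v : Γ → ℤ} {N : ℕ → ℕ} {p k : ℕ} {w : ℕ → ℝ} {δ g : ℝ} {β₀ : ℕ} {c : Γ} :
    c ∈ ES B v N p k w δ g β₀ ↔ (v c).natAbs ∈ Exc p k w δ g β₀ (N (nx (B.ht c))) := by
  unfold ES
  rw [Set.mem_setOf_eq]

open Classical in
lemma es_bound {Γ : Type} {B : Bxs Γ} {v : Γ → ℤ} {N : ℕ → ℕ} {p k : ℕ} {w : ℕ → ℝ} {δ g : ℝ} {β₀ : ℕ} {η : ℝ}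
    (hη : 0 < η) (H : ∀ Y : ℕ, (#((B.bx Y).filter (fun c => (v c).natAbs ∈ Exc p k w δ g β₀ (N Y))) : ℝ) ≤
      η * B.A Y) (Y : ℕ) :
    (#((B.bx Y).filter (fun c => c ∈ ES B v N p k w δ g β₀)) : ℝ) ≤ η * (B.L * B.A Y) := by
  rcases Nat.eq_zero_or_pos Y with hY | hY
  · have h0 : B.bx Y = ∅ := by
      rw [hY, eq_empty_iff_forall_notMem]
      intro c hc
      rw [B.mem] at hc
      omega
    rw [h0]
    simp only [filter_empty, card_empty, Nat.cast_zero]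
    exact mul_nonneg hη.le (mul_nonneg B.L0.le (B.A0 Y))
  have hsub : (B.bx Y).filter (fun c => c ∈ ES B v N p k w δ g β₀) ⊆
      (range (Nat.log 2 Y + 1)).biUnion fun i =>
      (B.bx (2 ^ (i + 1))).filter (fun c => (v c).natAbs ∈ Exc p k w δ g β₀ (N (2 ^ (i + 1)))) := by
    intro c hc
    rw [mem_filter, B.mem] at hc
    rw [mem_biUnion]
    refine ⟨Nat.log 2 (B.ht c), ?_, ?_⟩
    · rw [mem_range]
      have := Nat.log_mono_right (b := 2) hc.1.2.le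
      omega
    · rw [mem_filter, B.mem]
      have e1 : nx (B.ht c) = 2 ^ (Nat.log 2 (B.ht c) + 1) := rfl
      have h3 := mem_ES.1 hc.2
      have h4 := lt_nx (B.ht c)
      rw [e1] at h3 h4
      exact ⟨⟨hc.1.1, h4⟩, h3⟩
  have h1 : (#((B.bx Y).filter (fun c => c ∈ ES B v N p k w δ g β₀)) : ℝ) ≤
      ∑ i ∈ range (Nat.log 2 Y + 1),
        (#((B.bx (2 ^ (i + 1))).filter (fun c => (v c).natAbs ∈ Exc p k w δ g β₀ (N (2 ^ (i + 1))))) : ℝ) := by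
    exact_mod_cast (card_le_card hsub).trans card_biUnion_le
  refine h1.trans ((sum_le_sum fun i _ => H _).trans ?_)
  rw [← mul_sum]
  exact mul_le_mul_of_nonneg_left (B.sum Y hY) hη.le

end Pool.Agent.Helper85.UV
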