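import Pool.Agent.TH463.UR.Dense

set_option autoImplicit false

/-! From Fourier coefficients along a filter to joint distributions, dense orbits and domination. -/

namespace Pool.Agent.Helper85.UV
open Finset Filter Topology MeasureTheory
open scoped ENNReal
open Pool.Agent.H769R3 (X fourier_norm integral_fourier_volume)
open Pool.Agent.TH463.UR (integrable_cont exists_bump le_of_cont)

section

variable {Γ : Type} {l : Filter Γ} {μ : Measure X} [IsProbabilityMeasure μ]

/-- the correlations with `g` tend to `z` times the integral of `g` -/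
def Cr (l : Filter Γ) (μ : Measure X) (F : Γ → X → ℂ) (z : ℂ) (g : X → ℂ) : Prop :=
  Tendsto (fun c => ∫ x, F c x * g x ∂μ) l (𝓝 (z * ∫ x, g x ∂μ))

lemma int_mul {F : X → ℂ} (hF : Continuous F) (hF1 : ∀ x, ‖F x‖ ≤ 1) {g : X → ℂ} (hg : Integrable g μ) :
    Integrable (fun x => F x * g x) μ := by
  refine hg.bdd_mul (c := 1) hF.aestronglyMeasurable ?_
  exact Eventually.of_forall fun x => hF1 x

lemma Cr.add {F : Γ → X → ℂ} (hF : ∀ c, Continuous (F c)) (hF1 : ∀ c x, ‖F c x‖ ≤ 1) {z : ℂ} {g g' : X → ℂ}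
    (hg : Integrable g μ) (hg' : Integrable g' μ) (h : Cr l μ F z g) (h' : Cr l μ F z g') :
    Cr l μ F z (fun x => g x + g' x) := by
  unfold Cr at *
  have h1 := h.add h'
  rw [integral_add hg hg', mul_add]
  refine h1.congr fun c => ?_
  rw [← integral_add (int_mul (hF c) (hF1 c) hg) (int_mul (hF c) (hF1 c) hg')]
  congr 1
  funext x
  ring

lemma Cr.smul {F : Γ → X → ℂ} {z : ℂ} {g : X → ℂ} (w : ℂ) (h : Cr l μ F z g) :
    Cr l μ F z (fun x => w * g x) := by
  unfold Cr at *
  have h1 := h.const_mul w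
  rw [integral_const_mul, mul_left_comm]
  refine h1.congr fun c => ?_
  rw [← integral_const_mul]
  congr 1
  funext x
  ring

lemma Cr.approx {F : Γ → X → ℂ} (hF : ∀ c, Continuous (F c)) (hF1 : ∀ c x, ‖F c x‖ ≤ 1) {z : ℂ} (hz : ‖z‖ ≤ 1)
    {g : X → ℂ} (hg : Integrable g μ)
    (h : ∀ ε : ℝ, 0 < ε → ∃ g' : X → ℂ, Integrable g' μ ∧ Cr l μ F z g' ∧ ∫ x, ‖g x - g' x‖ ∂μ ≤ ε) :
    Cr l μ F z g := by
  unfold Cr at *
  rw [Metric.tendsto_nhds]
  intro ε hε
  obtain ⟨g', h1, h2, h3⟩ := h (ε / 3) (by positivity)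
  rw [Metric.tendsto_nhds] at h2
  filter_upwards [h2 (ε / 3) (by positivity)] with c hc
  rw [dist_eq_norm] at hc ⊢
  have hsub : Integrable (fun x => g x - g' x) μ := hg.sub h1
  have e : ∫ x, F c x * g x ∂μ - z * ∫ x, g x ∂μ = ∫ x, F c x * (g x - g' x) ∂μ +
      (∫ x, F c x * g' x ∂μ - z * ∫ x, g' x ∂μ) - z * ∫ x, (g x - g' x) ∂μ := by
    have h5 : ∫ x, F c x * g x ∂μ = ∫ x, F c x * (g x - g' x) ∂μ + ∫ x, F c x * g' x ∂μ := by
      rw [← integral_add (int_mul (hF c) (hF1 c) hsub) (int_mul (hF c) (hF1 c) h1)]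
      congr 1
      funext x
      ring
    rw [h5, integral_sub hg h1]
    ring
  rw [e]
  have h4 : ‖∫ x, F c x * (g x - g' x) ∂μ‖ ≤ ε / 3 := by
    refine (norm_integral_le_integral_norm _).trans (le_trans ?_ h3)
    apply integral_mono (int_mul (hF c) (hF1 c) hsub).norm hsub.norm
    intro x
    simp only [norm_mul]
    exact mul_le_of_le_one_left (norm_nonneg _) (hF1 c x)
  have h6 : ‖z * ∫ x, (g x - g' x) ∂μ‖ ≤ ε / 3 := by
    rw [norm_mul]
    refine (mul_le_of_le_one_left (norm_nonneg _) hz).trans ?_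
    exact (norm_integral_le_integral_norm _).trans h3
  have h7 := norm_sub_le (∫ x, F c x * (g x - g' x) ∂μ + (∫ x, F c x * g' x ∂μ - z * ∫ x, g' x ∂μ))
    (z * ∫ x, (g x - g' x) ∂μ)
  have h8 := norm_add_le (∫ x, F c x * (g x - g' x) ∂μ) (∫ x, F c x * g' x ∂μ - z * ∫ x, g' x ∂μ)
  linarith

/-- continuous densities -/
lemma cr_cont {F : Γ → X → ℂ} (hF : ∀ c, Continuous (F c)) (hF1 : ∀ c x, ‖F c x‖ ≤ 1) {z : ℂ} (hz : ‖z‖ ≤ 1)
    (h : ∀ t : ℤ, Cr l μ F z (fun x => (fourier t x : ℂ))) (φ : C(X, ℂ)) : Cr l μ F z φ := by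
  have hspan : ∀ ψ ∈ Submodule.span ℂ (Set.range (@fourier (1 : ℝ))), Cr l μ F z (ψ : C(X, ℂ)) := by
    intro ψ hψ
    induction hψ using Submodule.span_induction with
    | mem ψ hψ =>
      obtain ⟨t, rfl⟩ := hψ
      exact h t
    | zero =>
      unfold Cr
      simp only [ContinuousMap.coe_zero, Pi.zero_apply, mul_zero, integral_zero]
      exact tendsto_const_nhds
    | add ψ ψ' _ _ h1 h2 =>
      exact Cr.add hF hF1 (integrable_cont μ ψ.continuous) (integrable_cont μ ψ'.continuous) h1 h2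
    | smul w ψ _ h1 => exact Cr.smul w h1
  apply Cr.approx hF hF1 hz (integrable_cont μ φ.continuous)
  intro ε hε
  have hmem : φ ∈ (Submodule.span ℂ (Set.range (@fourier (1 : ℝ)))).topologicalClosure := by
    rw [span_fourier_closure_eq_top]
    exact Submodule.mem_top
  have hmem' : φ ∈ closure ((Submodule.span ℂ (Set.range (@fourier (1 : ℝ))) : Submodule ℂ C(X, ℂ)) :
      Set C(X, ℂ)) := hmem
  rw [Metric.mem_closure_iff] at hmem'
  obtain ⟨ψ, hψ, hd⟩ := hmem' ε hε
  refine ⟨ψ, integrable_cont μ ψ.continuous, hspan ψ hψ, ?_⟩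
  have h1 : ∀ x, ‖φ x - ψ x‖ ≤ ε := by
    intro x
    have h2 := (φ - ψ).norm_coe_le_norm x
    rw [dist_eq_norm] at hd
    exact h2.trans hd.le
  have h2 : Integrable (fun x => ‖φ x - ψ x‖) μ :=
    integrable_cont μ ((φ.continuous.sub ψ.continuous).norm)
  refine (integral_mono h2 (integrable_const ε) h1).trans (le_of_eq ?_)
  simp

/-- integrable densities -/
lemma cr_int {F : Γ → X → ℂ} (hF : ∀ c, Continuous (F c)) (hF1 : ∀ c x, ‖F c x‖ ≤ 1) {z : ℂ} (hz : ‖z‖ ≤ 1)
    (h : ∀ t : ℤ, Cr l μ F z (fun x => (fourier t x : ℂ))) {g : X → ℂ} (hg : Integrable g μ) : Cr l μ F z g := by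
  apply Cr.approx hF hF1 hz hg
  intro ε hε
  obtain ⟨φ, h1, h2⟩ := hg.exists_boundedContinuous_integral_sub_le hε
  exact ⟨φ, h2, cr_cont hF hF1 hz h φ.toContinuousMap, h1⟩

lemma fourier_sum {κ : Type} (s : Finset κ) (a : κ → ℤ) (x : X) :
    (fourier (∑ j ∈ s, a j) x : ℂ) = ∏ j ∈ s, (fourier (a j) x : ℂ) := by
  classical
  induction s using Finset.induction_on with
  | empty => simp
  | insert i s hi ih => rw [sum_insert hi, prod_insert hi, fourier_add, ih]

lemma fourier_zsmul (m n : ℤ) (x : X) : (fourier m (n • x) : ℂ) = fourier (m * n) x := by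
  rw [fourier_apply, fourier_apply, mul_smul]

/-- the joint map -/
def Jm {k : ℕ} (v : Fin k → Γ → ℤ) (c : Γ) (x : X) : Fin k → X := fun j => v j c • x

lemma continuous_Jm {k : ℕ} (v : Fin k → Γ → ℤ) (c : Γ) : Continuous (Jm v c) := by
  unfold Jm
  fun_prop

lemma mFourier_Jm {k : ℕ} (v : Fin k → Γ → ℤ) (m : Fin k → ℤ) (c : Γ) (x : X) :
    (UnitAddTorus.mFourier m (Jm v c x) : ℂ) = fourier (∑ j, m j * v j c) x := by
  rw [fourier_sum]
  unfold UnitAddTorus.mFourier Jm
  simp only [ContinuousMap.coe_mk]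
  exact prod_congr rfl fun j _ => fourier_zsmul _ _ _

lemma integral_mFourier {k : ℕ} (m : Fin k → ℤ) :
    ∫ y : Fin k → X, (UnitAddTorus.mFourier m y : ℂ) = if m = 0 then 1 else 0 := by
  unfold UnitAddTorus.mFourier
  simp only [ContinuousMap.coe_mk]
  rw [integral_fintype_prod_volume_eq_prod (fun (j : Fin k) (y : X) => (fourier (m j) y : ℂ))]
  have hvol : IsProbabilityMeasure (volume : Measure X) := ⟨UnitAddCircle.measure_univ⟩
  split_ifs with h
  · apply prod_eq_one
    intro j _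
    rw [h]
    simp
  · obtain ⟨j, hj⟩ : ∃ j, m j ≠ 0 := by
      by_contra hcon
      push Not at hcon
      exact h (funext hcon)
    exact prod_eq_zero (mem_univ j) (integral_fourier_volume hj)

/-- **Joint distributions.** -/
theorem joint {k : ℕ} (v : Fin k → Γ → ℤ)
    (h : ∀ m : Fin k → ℤ, m ≠ 0 → ∀ t : ℤ,
      Tendsto (fun c => ∫ x, (fourier (∑ j, m j * v j c + t) x : ℂ) ∂μ) l (𝓝 0))
    {ν : Measure X} [IsProbabilityMeasure ν] (hν : ν ≪ μ) (f : C(Fin k → X, ℝ)) :
    Tendsto (fun c => ∫ x, f (Jm v c x) ∂ν) l (𝓝 (∫ y, f y)) := by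
  have hvol : IsProbabilityMeasure (volume : Measure X) := ⟨UnitAddCircle.measure_univ⟩
  have : ν.HaveLebesgueDecomposition μ := Measure.haveLebesgueDecomposition_of_finiteMeasure
  obtain ⟨g, hg⟩ : ∃ g : X → ℂ, ∀ x, g x = (((ν.rnDeriv μ x).toReal : ℝ) : ℂ) := ⟨_, fun _ => rfl⟩
  have hgint : Integrable g μ := by
    have : g = fun x => (((ν.rnDeriv μ x).toReal : ℝ) : ℂ) := funext hg
    rw [this]
    exact Measure.integrable_toReal_rnDeriv.ofReal
  have hνint : ∀ F : X → ℂ, ∫ x, F x ∂ν = ∫ x, F x * g x ∂μ := by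
    intro F
    rw [← integral_rnDeriv_smul hν]
    congr 1
    funext x
    rw [hg, Complex.real_smul, mul_comm]
  have hg1 : ∫ x, g x ∂μ = 1 := by
    have h1 := hνint (fun _ => 1)
    simp only [one_mul] at h1
    rw [← h1]
    simp
  -- the characters
  have hchar : ∀ m : Fin k → ℤ, Cr l μ (fun c x => (UnitAddTorus.mFourier m (Jm v c x) : ℂ))
      (if m = 0 then 1 else 0) g := by
    intro m
    apply cr_int
    · intro c
      exact (UnitAddTorus.mFourier m).continuous.comp (continuous_Jm v c)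
    · intro c x
      refine ((UnitAddTorus.mFourier m).norm_coe_le_norm _).trans (le_of_eq ?_)
      exact UnitAddTorus.mFourier_norm
    · split_ifs <;> simp
    · intro t
      unfold Cr
      split_ifs with hm
      · rw [hm, one_mul]
        simp only [UnitAddTorus.mFourier_zero, ContinuousMap.one_apply, one_mul]
        exact tendsto_const_nhds
      · rw [zero_mul]
        refine (h m hm t).congr fun c => ?_
        congr 1
        funext x
        simp only
        rw [mFourier_Jm, fourier_add]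
    · exact hgint
  -- all continuous functions
  have hspan : ∀ ψ ∈ Submodule.span ℂ (Set.range (UnitAddTorus.mFourier (d := Fin k))),
      Tendsto (fun c => ∫ x, ψ (Jm v c x) ∂ν) l (𝓝 (∫ y, ψ y)) := by
    intro ψ hψ
    have hci : ∀ (ψ : C(Fin k → X, ℂ)) (c : Γ), Integrable (fun x => ψ (Jm v c x)) ν := fun ψ c =>
      integrable_cont ν (ψ.continuous.comp (continuous_Jm v c))
    have hci' : ∀ (ψ : C(Fin k → X, ℂ)), Integrable (fun y => ψ y) (volume : Measure (Fin k → X)) := fun ψ =>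
      ψ.continuous.integrable_of_hasCompactSupport (HasCompactSupport.of_compactSpace _)
    induction hψ using Submodule.span_induction with
    | mem ψ hψ =>
      obtain ⟨m, rfl⟩ := hψ
      have h1 := hchar m
      unfold Cr at h1
      rw [hg1, mul_one] at h1
      have h2 := integral_mFourier m
      rw [← h2] at h1
      refine h1.congr fun c => ?_
      rw [hνint]
    | zero =>
      simp only [ContinuousMap.coe_zero, Pi.zero_apply, integral_zero]
      exact tendsto_const_nhds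
    | add ψ ψ' _ _ h1 h2 =>
      have h3 := h1.add h2
      simp only [ContinuousMap.add_apply]
      rw [integral_add (hci' ψ) (hci' ψ')]
      refine h3.congr fun c => ?_
      rw [integral_add (hci ψ c) (hci ψ' c)]
    | smul w ψ _ h1 =>
      have h3 := h1.const_mul w
      simp only [ContinuousMap.smul_apply, smul_eq_mul]
      rw [integral_const_mul]
      refine h3.congr fun c => ?_
      rw [integral_const_mul]
  have hall : ∀ φ : C(Fin k → X, ℂ), Tendsto (fun c => ∫ x, φ (Jm v c x) ∂ν) l (𝓝 (∫ y, φ y)) := by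
    intro φ
    rw [Metric.tendsto_nhds]
    intro ε hε
    have hmem : φ ∈ (Submodule.span ℂ (Set.range (UnitAddTorus.mFourier (d := Fin k)))).topologicalClosure := by
      rw [UnitAddTorus.span_mFourier_closure_eq_top]
      exact Submodule.mem_top
    have hmem' : φ ∈ closure ((Submodule.span ℂ (Set.range (UnitAddTorus.mFourier (d := Fin k))) :
        Submodule ℂ C(Fin k → X, ℂ)) : Set C(Fin k → X, ℂ)) := hmem
    rw [Metric.mem_closure_iff] at hmem'
    obtain ⟨ψ, hψ, hd⟩ := hmem' (ε / 3) (by positivity)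
    have hb : ∀ y, ‖φ y - ψ y‖ ≤ ε / 3 := by
      intro y
      have h2 := (φ - ψ).norm_coe_le_norm y
      rw [dist_eq_norm] at hd
      exact h2.trans hd.le
    have h1 := hspan ψ hψ
    rw [Metric.tendsto_nhds] at h1
    filter_upwards [h1 (ε / 3) (by positivity)] with c hc
    have h2 : dist (∫ x, φ (Jm v c x) ∂ν) (∫ x, ψ (Jm v c x) ∂ν) ≤ ε / 3 := by
      have i1 : Integrable (fun x => φ (Jm v c x)) ν := integrable_cont ν (φ.continuous.comp (continuous_Jm v c))
      have i2 : Integrable (fun x => ψ (Jm v c x)) ν := integrable_cont ν (ψ.continuous.comp (continuous_Jm v c))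
      rw [dist_eq_norm, ← integral_sub i1 i2]
      refine (norm_integral_le_of_norm_le_const (C := ε / 3) (Eventually.of_forall fun x => hb _)).trans (le_of_eq ?_)
      simp
    have h3 : dist (∫ y, ψ y) (∫ y, φ y) ≤ ε / 3 := by
      rw [dist_comm, dist_eq_norm, ← integral_sub
        (φ.continuous.integrable_of_hasCompactSupport (HasCompactSupport.of_compactSpace _))
        (ψ.continuous.integrable_of_hasCompactSupport (HasCompactSupport.of_compactSpace _))]
      refine (norm_integral_le_of_norm_le_const (C := ε / 3) (Eventually.of_forall fun x => hb _)).trans (le_of_eq ?_)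
      simp
    calc dist (∫ x, φ (Jm v c x) ∂ν) (∫ y, φ y) ≤ dist (∫ x, φ (Jm v c x) ∂ν) (∫ x, ψ (Jm v c x) ∂ν) +
          dist (∫ x, ψ (Jm v c x) ∂ν) (∫ y, ψ y) + dist (∫ y, ψ y) (∫ y, φ y) := dist_triangle4 _ _ _ _
      _ < ε := by linarith
  have hC := hall ⟨fun y => (f y : ℂ), Complex.continuous_ofReal.comp f.continuous⟩
  have hre := (Complex.continuous_re.tendsto _).comp hC
  have e1 : ∀ (κ : Type) [MeasurableSpace κ] (ρ : Measure κ) (f : κ → ℝ), (∫ x, ((f x : ℝ) : ℂ) ∂ρ).re = ∫ x, f x ∂ρ := by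
    intro κ _ ρ f
    rw [integral_complex_ofReal, Complex.ofReal_re]
  simp only [ContinuousMap.coe_mk] at hre
  rw [e1] at hre
  refine hre.congr fun c => ?_
  simp only [Function.comp]
  rw [e1]

end

end Pool.Agent.Helper85.UV
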