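import Pool.Agent.Helper85.UV.Mom

set_option autoImplicit false

/-! Large deviations for `∑_j ψ(p^j v_i s)` along a family of integers with bounded moments. -/

namespace Pool.Agent.Helper85.UV
open Finset
open Pool.Agent.H769R3 (psi psi_add psi_zero psi_neg psi_norm sum_psi exp_le_cosh_add)

lemma lac_bound (P : ℤ) (hP : 4 ≤ P) (b : ℕ → ℤ) (hb : ∀ i, |b i| ≤ 2) (n : ℕ) :
    3 * |∑ i ∈ range n, b i * P ^ i| ≤ 2 * (P ^ n - 1) := by
  induction n with
  | zero => simp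
  | succ n ih =>
    rw [sum_range_succ]
    have h1 := abs_add_le (∑ i ∈ range n, b i * P ^ i) (b n * P ^ n)
    have hpos : 0 < P ^ n := by positivity
    have h2 : |b n * P ^ n| ≤ 2 * P ^ n := by
      rw [abs_mul, abs_of_pos hpos]
      exact mul_le_mul_of_nonneg_right (hb n) hpos.le
    have h3 : 4 * P ^ n ≤ P ^ (n + 1) := by
      rw [pow_succ, mul_comm]
      exact mul_le_mul_of_nonneg_left hP hpos.le
    linarith

lemma lac_zero (P : ℤ) (hP : 4 ≤ P) (b : ℕ → ℤ) (hb : ∀ i, |b i| ≤ 2) (n : ℕ)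
    (h : ∑ i ∈ range n, b i * P ^ i = 0) : ∀ i < n, b i = 0 := by
  induction n with
  | zero => intro i hi; omega
  | succ n ih =>
    rw [sum_range_succ] at h
    have h1 := lac_bound P hP b hb n
    have hpos : 0 < P ^ n := by positivity
    have hbn : b n = 0 := by
      by_contra hne
      have h2 : 1 ≤ |b n| := Int.one_le_abs hne
      have h3 : P ^ n ≤ |b n * P ^ n| := by
        rw [abs_mul, abs_of_pos hpos]
        nlinarith
      have h4 : |b n * P ^ n| = |∑ i ∈ range n, b i * P ^ i| := by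
        rw [eq_neg_of_add_eq_zero_right h, abs_neg]
      rw [h4] at h3
      linarith
    rw [hbn, zero_mul, add_zero] at h
    intro i hi
    rcases Nat.lt_succ_iff_lt_or_eq.1 hi with h' | h'
    · exact ih h i h'
    · rw [h']; exact hbn

/-- the lacunary sum with given signs -/
def Dl (p n e : ℕ) (a : Fin n → ℤ) : ℤ := ∑ i : Fin n, a i * (p : ℤ) ^ (2 * (i : ℕ) + e)

lemma Dl_inj {p : ℕ} (hp : 2 ≤ p) {n e q : ℕ} (he : e ≤ 1) (hq : p ^ (2 * n + 1) ≤ q)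
    {a a' : Fin n → ℤ} (ha : ∀ i, |a i| ≤ 1) (ha' : ∀ i, |a' i| ≤ 1)
    (h : ((Dl p n e a : ℤ) : ZMod q) = ((Dl p n e a' : ℤ) : ZMod q)) : a = a' := by
  have hp0 : (0 : ℤ) < p := by exact_mod_cast (by omega : 0 < p)
  have hp2 : (2 : ℤ) ≤ p := by exact_mod_cast hp
  obtain ⟨b, hb⟩ : ∃ b : ℕ → ℤ, ∀ i, b i = if hi : i < n then a ⟨i, hi⟩ - a' ⟨i, hi⟩ else 0 := ⟨_, fun _ => rfl⟩
  have hb2 : ∀ i, |b i| ≤ 2 := by
    intro i
    rw [hb]
    split_ifs with hi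
    · have h1 := abs_le.1 (ha ⟨i, hi⟩)
      have h2 := abs_le.1 (ha' ⟨i, hi⟩)
      rw [abs_le]
      constructor <;> linarith [h1.1, h1.2, h2.1, h2.2]
    · simp
  obtain ⟨T, hT⟩ : ∃ T : ℤ, T = ∑ i ∈ range n, b i * ((p : ℤ) ^ 2) ^ i := ⟨_, rfl⟩
  have hP : (4 : ℤ) ≤ (p : ℤ) ^ 2 := by nlinarith
  have hsub : Dl p n e a - Dl p n e a' = (p : ℤ) ^ e * T := by
    unfold Dl
    rw [hT, ← Fin.sum_univ_eq_sum_range (fun i => b i * ((p : ℤ) ^ 2) ^ i), mul_sum, ← sum_sub_distrib]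
    apply sum_congr rfl
    intro i _
    rw [hb, dif_pos i.2]
    simp only [Fin.eta]
    rw [pow_add, pow_mul]
    ring
  have h1 := lac_bound ((p : ℤ) ^ 2) hP b hb2 n
  rw [← hT] at h1
  have hdvd : (q : ℤ) ∣ (p : ℤ) ^ e * T := by
    rw [← hsub, ← ZMod.intCast_zmod_eq_zero_iff_dvd]
    push_cast
    rw [h, sub_self]
  have hzero : (p : ℤ) ^ e * T = 0 := by
    by_contra hne
    have h2 := Int.le_of_dvd (abs_pos.2 hne) ((dvd_abs _ _).2 hdvd)
    rw [abs_mul, abs_of_pos (by positivity : (0 : ℤ) < (p : ℤ) ^ e)] at h2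
    have h3 : (p : ℤ) ^ e ≤ p := by
      calc (p : ℤ) ^ e ≤ (p : ℤ) ^ 1 := pow_le_pow_right₀ (by linarith) he
        _ = p := pow_one _
    have h4 : ((p : ℤ) ^ (2 * n + 1)) ≤ q := by exact_mod_cast hq
    have h5 : (p : ℤ) ^ (2 * n + 1) = ((p : ℤ) ^ 2) ^ n * p := by rw [pow_add, pow_mul, pow_one]
    have h6 : (p : ℤ) ^ e * |T| ≤ p * |T| := mul_le_mul_of_nonneg_right h3 (abs_nonneg _)
    have h7 : 0 < ((p : ℤ) ^ 2) ^ n := by positivity
    rw [h5] at h4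
    nlinarith
  have hT0 : T = 0 := by
    rcases mul_eq_zero.1 hzero with h2 | h2
    · exact absurd h2 (by positivity)
    · exact h2
  rw [hT] at hT0
  have h8 := lac_zero ((p : ℤ) ^ 2) hP b hb2 n hT0
  funext i
  have h9 := h8 i i.2
  rw [hb, dif_pos i.2] at h9
  simp only [Fin.eta] at h9
  linarith

section

variable {q : ℕ} [NeZero q]

/-- the weights -/
noncomputable def wc (A B : ℝ) (ω : ℂ) (a : ℤ) : ℂ :=
  if a = 0 then (A : ℂ) else if a = 1 then (B / 2 : ℝ) * ω else (B / 2 : ℝ) * (starRingEnd ℂ) ω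

/-- the absolute values of the weights -/
noncomputable def wr (A B : ℝ) (a : ℤ) : ℝ := if a = 0 then A else B / 2

lemma norm_wc {A B : ℝ} (hA : 0 ≤ A) (hB : 0 ≤ B) {ω : ℂ} (hω : ‖ω‖ = 1) (a : ℤ) :
    ‖wc A B ω a‖ = wr A B a := by
  unfold wc wr
  split_ifs with h1 h2
  · rw [Complex.norm_real, Real.norm_of_nonneg hA]
  · rw [norm_mul, hω, mul_one, Complex.norm_real, Real.norm_of_nonneg (by positivity)]
  · rw [norm_mul, Complex.norm_conj, hω, mul_one, Complex.norm_real, Real.norm_of_nonneg (by positivity)]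

lemma Icc3 : Finset.Icc (-1 : ℤ) 1 = {-1, 0, 1} := by decide

lemma factor (A B : ℝ) (ω : ℂ) (y : ZMod q) :
    ((A + B * (ω * psi y).re : ℝ) : ℂ) = ∑ a ∈ Finset.Icc (-1 : ℤ) 1, wc A B ω a * psi ((a : ZMod q) * y) := by
  rw [Icc3]
  rw [sum_insert (by decide), sum_insert (by decide), sum_singleton]
  unfold wc
  simp only [show ((-1 : ℤ) = 0) = False by simp, show ((-1 : ℤ) = 1) = False by simp, if_false, if_true,
    show ((1 : ℤ) = 0) = False by simp]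
  push_cast
  rw [zero_mul, psi_zero, one_mul, neg_one_mul, psi_neg, Complex.re_eq_add_conj, map_mul]
  ring

lemma expand (p : ℕ) (A B : ℝ) (ω : ℂ) (n e : ℕ) (y : ZMod q) :
    ((∏ l : Fin n, (A + B * (ω * psi ((p : ZMod q) ^ (2 * (l : ℕ) + e) * y)).re) : ℝ) : ℂ) =
      ∑ x ∈ Fintype.piFinset (fun _ : Fin n => Finset.Icc (-1 : ℤ) 1),
        (∏ l, wc A B ω (x l)) * psi (((Dl p n e x : ℤ) : ZMod q) * y) := by
  classical
  rw [Complex.ofReal_prod, prod_congr rfl fun (l : Fin n) _ => factor A B ω ((p : ZMod q) ^ (2 * (l : ℕ) + e) * y),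
    prod_univ_sum]
  apply sum_congr rfl
  intro x _
  rw [prod_mul_distrib, ← psi_sum]
  congr 2
  unfold Dl
  push_cast
  rw [sum_mul]
  apply sum_congr rfl
  intro l _
  ring

lemma riesz_le {ι : Type} [Fintype ι] (v : ι → ℤ) (s : ZMod q) (p : ℕ) {A B : ℝ} (hA : 0 ≤ A) (hB : 0 ≤ B)
    {ω : ℂ} (hω : ‖ω‖ = 1) (n e : ℕ) :
    ∑ i, ∏ l : Fin n, (A + B * (ω * psi ((p : ZMod q) ^ (2 * (l : ℕ) + e) * ((v i : ZMod q) * s))).re) ≤
      ∑ x ∈ Fintype.piFinset (fun _ : Fin n => Finset.Icc (-1 : ℤ) 1),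
        (∏ l, wr A B (x l)) * ‖Sm v (((Dl p n e x : ℤ) : ZMod q) * s)‖ := by
  classical
  have h1 : ((∑ i, ∏ l : Fin n, (A + B * (ω * psi ((p : ZMod q) ^ (2 * (l : ℕ) + e) * ((v i : ZMod q) * s))).re) : ℝ) : ℂ) =
      ∑ x ∈ Fintype.piFinset (fun _ : Fin n => Finset.Icc (-1 : ℤ) 1),
        (∏ l, wc A B ω (x l)) * Sm v (((Dl p n e x : ℤ) : ZMod q) * s) := by
    rw [Complex.ofReal_sum, sum_congr rfl fun i _ => expand p A B ω n e ((v i : ZMod q) * s), sum_comm]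
    apply sum_congr rfl
    intro x _
    unfold Sm
    rw [mul_sum]
    apply sum_congr rfl
    intro i _
    congr 2
    ring
  have h2 : ∀ z : ℝ, z ≤ ‖(z : ℂ)‖ := fun z => by
    rw [Complex.norm_real]
    exact le_abs_self z
  refine (h2 _).trans ?_
  rw [h1]
  refine (norm_sum_le _ _).trans (le_of_eq ?_)
  apply sum_congr rfl
  intro x _
  rw [norm_mul, norm_prod]
  congr 1
  apply prod_congr rfl
  intro l _
  exact norm_wc hA hB hω (x l)

lemma phi_bound {l σ : ℝ} (hl0 : 0 < l) (hl1 : l ≤ 1) (hσ1 : 1 ≤ σ) (hσ2 : σ ≤ 2) :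
    Real.cosh l ^ σ + 2 * (Real.sinh l / 2) ^ σ ≤ Real.exp (5 / 2 * σ * l ^ σ) := by
  have h1 : Real.cosh l ^ σ ≤ Real.exp (σ * l ^ σ / 2) := by
    have h2 := Real.cosh_le_exp_half_sq l
    have h3 := Real.rpow_le_rpow (Real.cosh_pos l).le h2 (by linarith : 0 ≤ σ)
    rw [← Real.exp_mul] at h3
    refine h3.trans (Real.exp_le_exp.2 ?_)
    have h4 : l ^ (2 : ℝ) ≤ l ^ σ := Real.rpow_le_rpow_of_exponent_ge hl0 hl1 hσ2
    have h5 : l ^ (2 : ℝ) = l ^ 2 := by norm_cast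
    rw [h5] at h4
    nlinarith
  have hs0 : 0 ≤ Real.sinh l := Real.sinh_nonneg_iff.2 hl0.le
  have hs : Real.sinh l ≤ 2 * l := by
    rw [Real.sinh_eq]
    have h2 := Real.abs_exp_sub_one_sub_id_le (x := l) (by rw [abs_of_pos hl0]; exact hl1)
    have h3 := Real.add_one_le_exp (-l)
    have h4 := (abs_le.1 h2).2
    nlinarith
  have h6 : (Real.sinh l / 2) ^ σ ≤ l ^ σ := Real.rpow_le_rpow (by positivity) (by linarith) (by linarith)
  have h7 : 0 ≤ l ^ σ := by positivity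
  have h8 : (1 : ℝ) ≤ Real.exp (σ * l ^ σ / 2) := Real.one_le_exp (by positivity)
  calc Real.cosh l ^ σ + 2 * (Real.sinh l / 2) ^ σ ≤ Real.exp (σ * l ^ σ / 2) + 2 * l ^ σ := by linarith
    _ ≤ Real.exp (σ * l ^ σ / 2) * (1 + 2 * l ^ σ) := by nlinarith
    _ ≤ Real.exp (σ * l ^ σ / 2) * Real.exp (2 * l ^ σ) := by
        apply mul_le_mul_of_nonneg_left _ (by positivity)
        have := Real.add_one_le_exp (2 * l ^ σ)
        linarith
    _ = Real.exp (σ * l ^ σ / 2 + 2 * l ^ σ) := by rw [Real.exp_add]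
    _ ≤ Real.exp (5 / 2 * σ * l ^ σ) := by
        apply Real.exp_le_exp.2
        nlinarith

/-- the sum of the weights -/
lemma sum_weights {A B : ℝ} (hA : 0 ≤ A) (hB : 0 ≤ B) (σ : ℝ) (n : ℕ) :
    ∑ x ∈ Fintype.piFinset (fun _ : Fin n => Finset.Icc (-1 : ℤ) 1), |∏ l, wr A B (x l)| ^ σ =
      (A ^ σ + 2 * (B / 2) ^ σ) ^ n := by
  classical
  have hw : ∀ a, 0 ≤ wr A B a := by
    intro a
    unfold wr
    split_ifs <;> positivity
  have h1 : ∀ x : Fin n → ℤ, |∏ l, wr A B (x l)| ^ σ = ∏ l, wr A B (x l) ^ σ := by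
    intro x
    rw [abs_of_nonneg (prod_nonneg fun l _ => hw _), Real.finsetProd_rpow _ _ fun l _ => hw _]
  rw [sum_congr rfl fun x _ => h1 x, ← prod_univ_sum (fun _ : Fin n => Finset.Icc (-1 : ℤ) 1)
    (fun _ a => wr A B a ^ σ)]
  rw [prod_const, card_univ, Fintype.card_fin]
  congr 1
  rw [Icc3, sum_insert (by decide), sum_insert (by decide), sum_singleton]
  unfold wr
  simp only [show ((-1 : ℤ) = 0) = False by simp, if_false, if_true, show ((1 : ℤ) = 0) = False by simp]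
  ring

/-- the parameter of the Riesz product -/
noncomputable def lam (δ : ℝ) (r : ℕ) : ℝ := (δ / 40) ^ (2 * r - 1)

lemma lam_pos {δ : ℝ} (hδ : 0 < δ) (r : ℕ) : 0 < lam δ r := by unfold lam; positivity

lemma lam_le {δ : ℝ} (hδ : 0 < δ) (hδ1 : δ ≤ 1) (r : ℕ) : lam δ r ≤ 1 := by
  unfold lam
  exact pow_le_one₀ (by positivity) (by linarith)

/-- the exponential moment -/
lemma exp_moment {ι : Type} [Fintype ι] (v : ι → ℤ) {s : ZMod q} (hs : IsUnit s) {p : ℕ} (hp : 2 ≤ p)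
    {r : ℕ} (hr : 1 ≤ r) {K A : ℝ} (hK : 1 ≤ K) (hA : 0 ≤ A)
    (hm : ∑ t : ZMod q, ‖Sm v t‖ ^ (2 * r) ≤ K * A ^ (2 * r)) {δ : ℝ} (hδ : 0 < δ) (hδ1 : δ ≤ 1)
    {ω : ℂ} (hω : ‖ω‖ = 1) {n e : ℕ} (he : e ≤ 1) (hq : p ^ (2 * n + 1) ≤ q) :
    ∑ i, Real.exp (lam δ r * (ω * ∑ l ∈ range n, psi ((p : ZMod q) ^ (2 * l + e) * ((v i : ZMod q) * s))).re) ≤
      K * A * Real.exp (n * (lam δ r * δ / 16)) := by
  classical
  obtain ⟨l, hl⟩ : ∃ l, l = lam δ r := ⟨_, rfl⟩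
  have hl0 : 0 < l := by rw [hl]; exact lam_pos hδ r
  have hl1 : l ≤ 1 := by rw [hl]; exact lam_le hδ hδ1 r
  rw [← hl]
  have hs0 : 0 ≤ Real.sinh l := Real.sinh_nonneg_iff.2 hl0.le
  have hu : ∀ y : ZMod q, |(ω * psi y).re| ≤ 1 := by
    intro y
    refine (Complex.abs_re_le_norm _).trans ?_
    rw [norm_mul, hω, psi_norm, one_mul]
  have h1 : ∀ i, Real.exp (l * (ω * ∑ l ∈ range n, psi ((p : ZMod q) ^ (2 * l + e) * ((v i : ZMod q) * s))).re) ≤
      ∏ j : Fin n, (Real.cosh l + Real.sinh l * (ω * psi ((p : ZMod q) ^ (2 * (j : ℕ) + e) * ((v i : ZMod q) * s))).re) := by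
    intro i
    rw [Fin.prod_univ_eq_prod_range (fun j => Real.cosh l + Real.sinh l *
      (ω * psi ((p : ZMod q) ^ (2 * j + e) * ((v i : ZMod q) * s))).re), mul_sum, Complex.re_sum, mul_sum, Real.exp_sum]
    apply prod_le_prod
    · intro j _; positivity
    · intro j _; exact exp_le_cosh_add _ _ (hu _)
  refine (sum_le_sum fun i _ => h1 i).trans ((riesz_le v s p (Real.cosh_pos l).le hs0 hω n e).trans ?_)
  -- Hölder
  have h2r : (1 : ℝ) < 2 * r := by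
    have : (1 : ℝ) ≤ r := by exact_mod_cast hr
    linarith
  obtain ⟨σ, hσ⟩ : ∃ σ : ℝ, σ = (2 * r : ℝ) / (2 * r - 1) := ⟨_, rfl⟩
  have hconj : σ.HolderConjugate (2 * r) := by
    rw [hσ]
    exact (Real.HolderConjugate.conjExponent h2r).symm
  have hσ1 : 1 ≤ σ := hconj.lt.le
  have hσ2 : σ ≤ 2 := by
    rw [hσ, div_le_iff₀ (by linarith)]
    have : (1 : ℝ) ≤ r := by exact_mod_cast hr
    linarith
  have hσ0 : 0 < σ := by linarith
  refine (Real.inner_le_Lp_mul_Lq _ _ _ hconj).trans ?_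
  rw [sum_weights (Real.cosh_pos l).le hs0]
  -- the moments
  have hinj : Set.InjOn (fun x : Fin n → ℤ => ((Dl p n e x : ℤ) : ZMod q) * s)
      (Fintype.piFinset (fun _ : Fin n => Finset.Icc (-1 : ℤ) 1) : Finset (Fin n → ℤ)) := by
    intro x hx y hy hxy
    rw [mem_coe, Fintype.mem_piFinset] at hx hy
    simp only at hxy
    exact Dl_inj hp he hq (fun i => abs_le.2 (mem_Icc.1 (hx i))) (fun i => abs_le.2 (mem_Icc.1 (hy i)))
      (hs.mul_right_cancel hxy)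
  have h3 : ∑ x ∈ Fintype.piFinset (fun _ : Fin n => Finset.Icc (-1 : ℤ) 1),
      |‖Sm v (((Dl p n e x : ℤ) : ZMod q) * s)‖| ^ (2 * r : ℝ) ≤ (K * A) ^ (2 * r : ℝ) := by
    have h4 : ∀ z : ZMod q, |‖Sm v z‖| ^ (2 * r : ℝ) = ‖Sm v z‖ ^ (2 * r) := by
      intro z
      rw [abs_of_nonneg (norm_nonneg _)]
      norm_cast
    have h5 : ((K * A) ^ (2 * r : ℝ) : ℝ) = (K * A) ^ (2 * r) := by norm_cast
    rw [sum_congr rfl fun x _ => h4 _, h5, ← sum_image (f := fun t : ZMod q => ‖Sm v t‖ ^ (2 * r)) hinj, mul_pow]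
    refine (sum_le_sum_of_subset_of_nonneg (subset_univ _) fun _ _ _ => by positivity).trans (hm.trans ?_)
    apply mul_le_mul_of_nonneg_right _ (by positivity)
    exact le_self_pow₀ hK (by omega)
  have h6 : (∑ x ∈ Fintype.piFinset (fun _ : Fin n => Finset.Icc (-1 : ℤ) 1),
      |‖Sm v (((Dl p n e x : ℤ) : ZMod q) * s)‖| ^ (2 * r : ℝ)) ^ (1 / (2 * r : ℝ)) ≤ K * A := by
    have h7 := Real.rpow_le_rpow (sum_nonneg fun x _ => by positivity) h3 (by positivity : 0 ≤ 1 / (2 * r : ℝ))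
    rw [← Real.rpow_mul (by positivity), mul_one_div_cancel (by positivity), Real.rpow_one] at h7
    exact h7
  have h8 : ((Real.cosh l ^ σ + 2 * (Real.sinh l / 2) ^ σ) ^ n) ^ (1 / σ) ≤ Real.exp (n * (l * δ / 16)) := by
    have h9 := phi_bound hl0 hl1 hσ1 hσ2
    have h10 : 0 ≤ Real.cosh l ^ σ + 2 * (Real.sinh l / 2) ^ σ := by
      have := (Real.cosh_pos l).le
      positivity
    have h11 := Real.rpow_le_rpow (pow_nonneg h10 n) (pow_le_pow_left₀ h10 h9 n) (by positivity : 0 ≤ 1 / σ)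
    refine h11.trans (le_of_eq ?_)
    rw [← Real.exp_nat_mul, ← Real.exp_mul]
    congr 1
    have h12 : l ^ σ = l * (δ / 40) := by
      have e1 : σ = 1 + 1 / (2 * r - 1 : ℝ) := by
        rw [hσ]
        have : (2 * r - 1 : ℝ) ≠ 0 := by linarith
        field_simp
        ring
      rw [e1, Real.rpow_add hl0, Real.rpow_one]
      congr 1
      rw [hl]
      unfold lam
      rw [← Real.rpow_natCast, ← Real.rpow_mul (by positivity)]
      have e2 : ((2 * r - 1 : ℕ) : ℝ) * (1 / (2 * r - 1 : ℝ)) = 1 := by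
        rw [Nat.cast_sub (by omega)]
        push_cast
        rw [mul_one_div_cancel (by linarith)]
      rw [e2, Real.rpow_one]
    rw [h12]
    field_simp
    ring
  calc _ ≤ Real.exp (n * (l * δ / 16)) * (K * A) := mul_le_mul h8 h6 (by positivity) (by positivity)
    _ = _ := by ring

end

section

variable {q : ℕ} [NeZero q]

open Classical in
/-- one-sided large deviations -/
lemma ld_one {ι : Type} [Fintype ι] (v : ι → ℤ) {s : ZMod q} (hs : IsUnit s) {p : ℕ} (hp : 2 ≤ p)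
    {r : ℕ} (hr : 1 ≤ r) {K A : ℝ} (hK : 1 ≤ K) (hA : 0 ≤ A)
    (hm : ∑ t : ZMod q, ‖Sm v t‖ ^ (2 * r) ≤ K * A ^ (2 * r)) {δ : ℝ} (hδ : 0 < δ) (hδ1 : δ ≤ 1)
    {ω : ℂ} (hω : ‖ω‖ = 1) {n e β : ℕ} (he : e ≤ 1) (hq : p ^ (2 * n + 1) ≤ q) (hn : 2 * n ≤ β) :
    (#(univ.filter fun i : ι => δ / 8 * β <
      (ω * ∑ l ∈ range n, psi ((p : ZMod q) ^ (2 * l + e) * ((v i : ZMod q) * s))).re) : ℝ) ≤
      K * A * Real.exp (-(lam δ r * δ / 16) * β) := by
  have h1 := exp_moment v hs hp hr hK hA hm hδ hδ1 hω he hq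
  obtain ⟨l, hl⟩ : ∃ l, l = lam δ r := ⟨_, rfl⟩
  have hl0 : 0 < l := by rw [hl]; exact lam_pos hδ r
  rw [← hl] at h1 ⊢
  have h2 : (#(univ.filter fun i : ι => δ / 8 * β <
      (ω * ∑ l ∈ range n, psi ((p : ZMod q) ^ (2 * l + e) * ((v i : ZMod q) * s))).re) : ℝ) * Real.exp (l * (δ / 8 * β)) ≤
      K * A * Real.exp (n * (l * δ / 16)) := by
    refine le_trans ?_ h1
    rw [← nsmul_eq_mul, ← sum_const]
    refine (sum_le_sum ?_).trans (sum_le_sum_of_subset_of_nonneg (filter_subset _ _)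
      (fun _ _ _ => (Real.exp_pos _).le))
    intro i hi
    rw [mem_filter] at hi
    apply Real.exp_le_exp.2
    exact mul_le_mul_of_nonneg_left hi.2.le hl0.le
  have hnR : 2 * (n : ℝ) ≤ β := by exact_mod_cast hn
  have h3 : Real.exp (n * (l * δ / 16)) ≤ Real.exp (-(l * δ / 16) * β) * Real.exp (l * (δ / 8 * β)) := by
    rw [← Real.exp_add]
    apply Real.exp_le_exp.2
    have h4 : 0 ≤ l * δ := by positivity
    have h5 : (0 : ℝ) ≤ β := Nat.cast_nonneg _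
    nlinarith
  have h6 : 0 < Real.exp (l * (δ / 8 * β)) := Real.exp_pos _
  refine le_of_mul_le_mul_right (h2.trans ?_) h6
  have h7 : 0 ≤ K * A := by positivity
  calc _ ≤ K * A * (Real.exp (-(l * δ / 16) * β) * Real.exp (l * (δ / 8 * β))) :=
        mul_le_mul_of_nonneg_left h3 h7
    _ = _ := by ring

lemma sum_even_odd (f : ℕ → ℂ) (n : ℕ) :
    ∑ j ∈ range (2 * n), f j = ∑ l ∈ range n, f (2 * l + 0) + ∑ l ∈ range n, f (2 * l + 1) := by
  induction n with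
  | zero => simp
  | succ n ih =>
    rw [show 2 * (n + 1) = 2 * n + 1 + 1 by ring, sum_range_succ, sum_range_succ, ih, sum_range_succ, sum_range_succ]
    ring

/-- a large complex number has a large component -/
lemma exists_unit (z : ℂ) {a : ℝ} (h : 2 * a < ‖z‖) : ∃ ω ∈ ({1, -1, Complex.I, -Complex.I} : Finset ℂ), a < (ω * z).re := by
  by_contra hcon
  push Not at hcon
  have h1 := hcon 1 (by simp)
  have h2 := hcon (-1) (by simp)
  have h3 := hcon Complex.I (by simp)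
  have h4 := hcon (-Complex.I) (by simp)
  simp only [one_mul, neg_mul, Complex.neg_re, Complex.mul_re, Complex.I_re, Complex.I_im,
      zero_mul, zero_sub, neg_neg] at h1 h2 h3 h4
  have h5 := Complex.norm_le_abs_re_add_abs_im z
  have h6 : |z.re| ≤ a := abs_le.2 ⟨by linarith, h1⟩
  have h7 : |z.im| ≤ a := abs_le.2 ⟨by linarith, by linarith⟩
  linarith

lemma norm_unit {ω : ℂ} (h : ω ∈ ({1, -1, Complex.I, -Complex.I} : Finset ℂ)) : ‖ω‖ = 1 := by
  simp only [mem_insert, mem_singleton] at h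
  rcases h with h | h | h | h <;> rw [h] <;> simp

open Classical in
/-- **Large deviations.** -/
theorem ld_norm {ι : Type} [Fintype ι] (v : ι → ℤ) {s : ZMod q} (hs : IsUnit s) {p : ℕ} (hp : 2 ≤ p)
    {r : ℕ} (hr : 1 ≤ r) {K A : ℝ} (hK : 1 ≤ K) (hA : 0 ≤ A)
    (hm : ∑ t : ZMod q, ‖Sm v t‖ ^ (2 * r) ≤ K * A ^ (2 * r)) {δ : ℝ} (hδ : 0 < δ) (hδ1 : δ ≤ 1)
    {β : ℕ} (hq : p ^ β ≤ q) (hβ : 4 ≤ δ * β) :
    (#(univ.filter fun i : ι => δ * β < ‖∑ j ∈ range β, psi ((p : ZMod q) ^ j * ((v i : ZMod q) * s))‖) : ℝ) ≤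
      8 * K * A * Real.exp (-(lam δ r * δ / 16) * β) := by
  have hβ4 : 4 ≤ β := by
    have h1 : (4 : ℝ) ≤ β := by
      have : δ * β ≤ 1 * β := mul_le_mul_of_nonneg_right hδ1 (Nat.cast_nonneg _)
      linarith
    exact_mod_cast h1
  obtain ⟨n, hn⟩ : ∃ n, n = (β - 1) / 2 := ⟨_, rfl⟩
  have hn1 : 2 * n + 1 ≤ β := by omega
  have hn2 : β ≤ 2 * n + 2 := by omega
  have hqn : p ^ (2 * n + 1) ≤ q := (Nat.pow_le_pow_right (by omega) hn1).trans hq
  obtain ⟨E, hE⟩ : ∃ E : ℂ × ℕ → Finset ι, ∀ x, E x = univ.filter fun i : ι => δ / 8 * β <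
      (x.1 * ∑ l ∈ range n, psi ((p : ZMod q) ^ (2 * l + x.2) * ((v i : ZMod q) * s))).re := ⟨_, fun _ => rfl⟩
  obtain ⟨Ω, hΩ⟩ : ∃ Ω : Finset (ℂ × ℕ), Ω = ({1, -1, Complex.I, -Complex.I} : Finset ℂ) ×ˢ range 2 := ⟨_, rfl⟩
  have hΩc : Ω.card ≤ 8 := by
    rw [hΩ, card_product, card_range]
    have : ({1, -1, Complex.I, -Complex.I} : Finset ℂ).card ≤ 4 := card_le_four
    omega
  have hsub : (univ.filter fun i : ι => δ * β < ‖∑ j ∈ range β, psi ((p : ZMod q) ^ j * ((v i : ZMod q) * s))‖) ⊆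
      Ω.biUnion E := by
    intro i hi
    rw [mem_filter] at hi
    have hi2 := hi.2
    rw [mem_biUnion]
    obtain ⟨f, hf⟩ : ∃ f : ℕ → ℂ, ∀ j, f j = psi ((p : ZMod q) ^ j * ((v i : ZMod q) * s)) := ⟨_, fun _ => rfl⟩
    rw [sum_congr rfl fun j _ => (hf j).symm] at hi2
    have h1 : ∑ j ∈ range β, f j = ∑ j ∈ range (2 * n), f j + ∑ j ∈ Ico (2 * n) β, f j := by
      rw [sum_range_add_sum_Ico _ (by omega)]
    have h2 : ‖∑ j ∈ Ico (2 * n) β, f j‖ ≤ 2 := by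
      refine (norm_sum_le _ _).trans ?_
      rw [sum_congr rfl fun j _ => by rw [hf, psi_norm], sum_const, Nat.card_Ico, nsmul_eq_mul, mul_one]
      have : β - 2 * n ≤ 2 := by omega
      exact_mod_cast this
    rw [sum_even_odd] at h1
    have h3 : ∃ e ∈ range 2, 2 * (δ / 8 * β) < ‖∑ l ∈ range n, f (2 * l + e)‖ := by
      by_contra hcon
      push Not at hcon
      have h4 := hcon 0 (by simp)
      have h5 := hcon 1 (by simp)
      rw [h1] at hi2
      have h6 := norm_add_le (∑ l ∈ range n, f (2 * l + 0) + ∑ l ∈ range n, f (2 * l + 1)) (∑ j ∈ Ico (2 * n) β, f j)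
      have h7 := norm_add_le (∑ l ∈ range n, f (2 * l + 0)) (∑ l ∈ range n, f (2 * l + 1))
      linarith
    obtain ⟨e, he, h4⟩ := h3
    obtain ⟨ω, hω, h5⟩ := exists_unit _ h4
    refine ⟨(ω, e), ?_, ?_⟩
    · rw [hΩ, mem_product]
      exact ⟨hω, he⟩
    · rw [hE, mem_filter]
      refine ⟨mem_univ _, ?_⟩
      simp only
      rw [sum_congr rfl fun l _ => (hf (2 * l + e)).symm]
      exact h5
  have hcard : ∀ x ∈ Ω, ((E x).card : ℝ) ≤ K * A * Real.exp (-(lam δ r * δ / 16) * β) := by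
    intro x hx
    rw [hΩ, mem_product, mem_range] at hx
    rw [hE]
    exact ld_one v hs hp hr hK hA hm hδ hδ1 (norm_unit hx.1) (by omega) hqn (by omega)
  have h1 : (#(univ.filter fun i : ι => δ * β < ‖∑ j ∈ range β, psi ((p : ZMod q) ^ j * ((v i : ZMod q) * s))‖) : ℝ) ≤
      ∑ x ∈ Ω, ((E x).card : ℝ) := by
    exact_mod_cast (card_le_card hsub).trans card_biUnion_le
  refine h1.trans ((sum_le_sum hcard).trans ?_)
  rw [sum_const, nsmul_eq_mul]
  have h2 : (Ω.card : ℝ) ≤ 8 := by exact_mod_cast hΩc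
  have h3 : 0 ≤ K * A * Real.exp (-(lam δ r * δ / 16) * β) := by positivity
  calc _ ≤ 8 * (K * A * Real.exp (-(lam δ r * δ / 16) * β)) := mul_le_mul_of_nonneg_right h2 h3
    _ = _ := by ring

end

end Pool.Agent.Helper85.UV
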