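import Pool.Agent.H769R3.LD
import Pool.Agent.TH935.GF2

set_option autoImplicit false

/-! Moments of exponential sums over `ℤ/q` from the additive energy. -/

namespace Pool.Agent.Helper85.UV
open Finset
open Pool.Agent.H769R3 (psi psi_add psi_zero psi_neg psi_norm sum_psi)
open Pool.Agent.TH935.GF (En)

/-- pairs in the same fibre -/
lemma card_pairs {U κ : Type} [Fintype U] [DecidableEq κ] (g : U → κ) (T : Finset κ) (hT : ∀ u, g u ∈ T) :
    #(univ.filter fun z : U × U => g z.1 = g z.2) = ∑ a ∈ T, #(univ.filter fun u : U => g u = a) ^ 2 := by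
  classical
  rw [card_eq_sum_card_fiberwise (f := fun z : U × U => g z.1) (t := T) (fun z _ => hT z.1)]
  apply sum_congr rfl
  intro a _
  rw [sq, ← card_product]
  congr 1
  ext ⟨u, w⟩
  simp only [mem_filter, mem_univ, true_and, mem_product]
  constructor
  · rintro ⟨h1, h2⟩
    exact ⟨h2, by rw [← h1, h2]⟩
  · rintro ⟨h1, h2⟩
    exact ⟨by rw [h1, h2], h1⟩

lemma card_class (M q : ℕ) (hq : 1 ≤ q) (a : ℤ) :
    q * #((Finset.Icc (-(M : ℤ)) M).filter fun n => n % (q : ℤ) = a) ≤ 2 * M + 2 * q := by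
  have hq0 : (0 : ℤ) < q := by exact_mod_cast hq
  have h1 : #((Finset.Icc (-(M : ℤ)) M).filter fun n => n % (q : ℤ) = a) ≤
      #(Finset.Icc ((-(M : ℤ)) / q) ((M : ℤ) / q)) := by
    apply card_le_card_of_injOn (fun n => n / (q : ℤ))
    · intro n hn
      rw [mem_coe, mem_filter, mem_Icc] at hn
      rw [mem_coe, mem_Icc]
      exact ⟨Int.ediv_le_ediv hq0 hn.1.1, Int.ediv_le_ediv hq0 hn.1.2⟩
    · intro n hn n' hn' h
      rw [mem_coe, mem_filter] at hn hn'
      simp only at h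
      rw [← Int.mul_ediv_add_emod n q, ← Int.mul_ediv_add_emod n' q, h, hn.2, hn'.2]
  rw [Int.card_Icc] at h1
  have h2 : (M : ℤ) / q * q ≤ M := Int.ediv_mul_le _ hq0.ne'
  have h3 : -(M : ℤ) < ((-(M : ℤ)) / q + 1) * q := Int.lt_ediv_add_one_mul_self _ hq0
  have h4 : (0 : ℤ) ≤ (M : ℤ) / q + 1 - (-(M : ℤ)) / q := by
    have : (-(M : ℤ)) / q ≤ (M : ℤ) / q := Int.ediv_le_ediv hq0 (by omega)
    omega
  have h5 : ((((M : ℤ) / q + 1 - (-(M : ℤ)) / q).toNat : ℕ) : ℤ) = (M : ℤ) / q + 1 - (-(M : ℤ)) / q :=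
    Int.toNat_of_nonneg h4
  have h6 : (q : ℤ) * ((#((Finset.Icc (-(M : ℤ)) M).filter fun n => n % (q : ℤ) = a) : ℕ) : ℤ) ≤ 2 * M + 2 * q := by
    have h7 : ((#((Finset.Icc (-(M : ℤ)) M).filter fun n => n % (q : ℤ) = a) : ℕ) : ℤ) ≤
        (M : ℤ) / q + 1 - (-(M : ℤ)) / q := by
      rw [← h5]
      exact_mod_cast h1
    nlinarith
  exact_mod_cast h6

/-- pairs in the same residue class -/
lemma count_mod {U : Type} [Fintype U] (f : U → ℤ) (M : ℕ) (hM : ∀ u, |f u| ≤ M) (q : ℕ) (hq : 1 ≤ q) :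
    q * #(univ.filter fun z : U × U => f z.1 % (q : ℤ) = f z.2 % (q : ℤ)) ≤
      (2 * M + 2 * q) * #(univ.filter fun z : U × U => f z.1 = f z.2) := by
  classical
  have hq0 : (0 : ℤ) < q := by exact_mod_cast hq
  rw [card_pairs f (Finset.Icc (-(M : ℤ)) M) (fun u => mem_Icc.2 (abs_le.1 (hM u))),
    card_pairs (fun u => f u % (q : ℤ)) (Finset.Ico 0 (q : ℤ))
      (fun u => mem_Ico.2 ⟨Int.emod_nonneg _ hq0.ne', Int.emod_lt_of_pos _ hq0⟩)]
  have h1 : ∀ a ∈ Finset.Ico 0 (q : ℤ), q * #(univ.filter fun u : U => f u % (q : ℤ) = a) ^ 2 ≤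
      (2 * M + 2 * q) * ∑ n ∈ (Finset.Icc (-(M : ℤ)) M).filter (fun n => n % (q : ℤ) = a),
        #(univ.filter fun u : U => f u = n) ^ 2 := by
    intro a _
    have h2 : #(univ.filter fun u : U => f u % (q : ℤ) = a) =
        ∑ n ∈ (Finset.Icc (-(M : ℤ)) M).filter (fun n => n % (q : ℤ) = a), #(univ.filter fun u : U => f u = n) := by
      rw [card_eq_sum_card_fiberwise (f := f) (t := (Finset.Icc (-(M : ℤ)) M).filter (fun n => n % (q : ℤ) = a))]
      · apply sum_congr rfl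
        intro n hn
        congr 1
        ext u
        simp only [mem_filter, mem_univ, true_and]
        constructor
        · rintro ⟨_, h⟩
          exact h
        · intro h
          rw [mem_filter] at hn
          exact ⟨by rw [h]; exact hn.2, h⟩
      · intro u hu
        rw [mem_coe, mem_filter] at hu ⊢
        exact ⟨mem_Icc.2 (abs_le.1 (hM u)), hu.2⟩
    rw [h2]
    have h3 := sq_sum_le_card_mul_sum_sq (s := (Finset.Icc (-(M : ℤ)) M).filter (fun n => n % (q : ℤ) = a))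
      (f := fun n => #(univ.filter fun u : U => f u = n))
    calc _ ≤ q * (#((Finset.Icc (-(M : ℤ)) M).filter (fun n => n % (q : ℤ) = a)) *
          ∑ n ∈ (Finset.Icc (-(M : ℤ)) M).filter (fun n => n % (q : ℤ) = a),
            #(univ.filter fun u : U => f u = n) ^ 2) := Nat.mul_le_mul_left _ h3
      _ = (q * #((Finset.Icc (-(M : ℤ)) M).filter (fun n => n % (q : ℤ) = a))) *
          ∑ n ∈ (Finset.Icc (-(M : ℤ)) M).filter (fun n => n % (q : ℤ) = a),
            #(univ.filter fun u : U => f u = n) ^ 2 := by ring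
      _ ≤ _ := Nat.mul_le_mul_right _ (card_class M q hq a)
  rw [mul_sum]
  refine (sum_le_sum h1).trans ?_
  rw [← mul_sum]
  apply Nat.mul_le_mul_left
  apply le_of_eq
  rw [← sum_fiberwise_of_maps_to (s := Finset.Icc (-(M : ℤ)) M) (t := Finset.Ico 0 (q : ℤ)) (g := fun n => n % (q : ℤ))
    (fun n _ => mem_Ico.2 ⟨Int.emod_nonneg _ hq0.ne', Int.emod_lt_of_pos _ hq0⟩)]

section

variable {q : ℕ} [NeZero q]

/-- The exponential sum of a family of integers. -/
noncomputable def Sm {ι : Type} [Fintype ι] (v : ι → ℤ) (t : ZMod q) : ℂ := ∑ i, psi ((v i : ZMod q) * t)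

lemma psi_sum {κ : Type} (s : Finset κ) (f : κ → ZMod q) : psi (∑ i ∈ s, f i) = ∏ i ∈ s, psi (f i) := by
  classical
  induction s using Finset.induction_on with
  | empty => simp [psi_zero]
  | insert i s hi ih => rw [sum_insert hi, prod_insert hi, psi_add, ih]

lemma Sm_pow {ι : Type} [Fintype ι] (v : ι → ℤ) (r : ℕ) (t : ZMod q) :
    Sm v t ^ r = ∑ u : Fin r → ι, psi (((∑ j, v (u j) : ℤ) : ZMod q) * t) := by
  classical
  unfold Sm
  rw [Fintype.sum_pow]
  apply sum_congr rfl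
  intro u _
  rw [← psi_sum]
  congr 1
  push_cast
  rw [sum_mul]

lemma moment_eq {ι : Type} [Fintype ι] (v : ι → ℤ) (r : ℕ) :
    ∑ t : ZMod q, ‖Sm v t‖ ^ (2 * r) = (q : ℝ) * #(univ.filter fun z : (Fin r → ι) × (Fin r → ι) =>
      (∑ j, v (z.1 j)) % (q : ℤ) = (∑ j, v (z.2 j)) % (q : ℤ)) := by
  classical
  have h1 : ((∑ t : ZMod q, ‖Sm v t‖ ^ (2 * r) : ℝ) : ℂ) = ((q : ℝ) * #(univ.filter fun z : (Fin r → ι) × (Fin r → ι) =>
      (∑ j, v (z.1 j)) % (q : ℤ) = (∑ j, v (z.2 j)) % (q : ℤ)) : ℝ) := by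
    push_cast
    have h2 : ∀ t : ZMod q, ((‖Sm v t‖ : ℂ)) ^ (2 * r) =
        ∑ z : (Fin r → ι) × (Fin r → ι), psi ((((∑ j, v (z.1 j)) - (∑ j, v (z.2 j)) : ℤ) : ZMod q) * t) := by
      intro t
      rw [pow_mul, ← Complex.mul_conj', mul_pow, ← map_pow, Sm_pow, map_sum, sum_mul_sum, Fintype.sum_prod_type]
      apply sum_congr rfl
      intro u _
      apply sum_congr rfl
      intro w _
      rw [← psi_neg, ← psi_add]
      congr 1
      push_cast
      ring
    rw [sum_congr rfl fun t _ => h2 t, sum_comm]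
    have h3 : ∀ z : (Fin r → ι) × (Fin r → ι), ∑ t : ZMod q, psi ((((∑ j, v (z.1 j)) - (∑ j, v (z.2 j)) : ℤ) : ZMod q) * t) =
        if (∑ j, v (z.1 j)) % (q : ℤ) = (∑ j, v (z.2 j)) % (q : ℤ) then (q : ℂ) else 0 := by
      intro z
      split_ifs with hz
      · have h4 : ((((∑ j, v (z.1 j)) - (∑ j, v (z.2 j)) : ℤ) : ZMod q)) = 0 := by
          rw [ZMod.intCast_zmod_eq_zero_iff_dvd]
          exact Int.dvd_of_emod_eq_zero (Int.emod_eq_emod_iff_emod_sub_eq_zero.1 hz)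
        rw [h4]
        simp [psi_zero, ZMod.card]
      · apply sum_psi
        intro h4
        rw [ZMod.intCast_zmod_eq_zero_iff_dvd] at h4
        exact hz (Int.emod_eq_emod_iff_emod_sub_eq_zero.2 (Int.emod_eq_zero_of_dvd h4))
    rw [sum_congr rfl fun z _ => h3 z, ← sum_filter, sum_const, nsmul_eq_mul, mul_comm]
  exact_mod_cast h1

/-- **The moments.** -/
theorem moment {ι : Type} [Fintype ι] (v : ι → ℤ) (r N : ℕ) (hv : ∀ i, |v i| ≤ N) (hq : q ≤ N) :
    ∑ t : ZMod q, ‖Sm v t‖ ^ (2 * r) ≤ (2 * r + 2) * (En r v * N) := by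
  classical
  have hq1 : 1 ≤ q := Nat.one_le_iff_ne_zero.2 (NeZero.ne q)
  have hM : ∀ u : Fin r → ι, |∑ j, v (u j)| ≤ ((r * N : ℕ) : ℤ) := by
    intro u
    refine (abs_sum_le_sum_abs _ _).trans ((sum_le_sum fun j _ => hv (u j)).trans ?_)
    simp
  have h1 := count_mod (fun u : Fin r → ι => ∑ j, v (u j)) (r * N) hM q hq1
  have h2 : En r v = #(univ.filter fun z : (Fin r → ι) × (Fin r → ι) => ∑ j, v (z.1 j) = ∑ j, v (z.2 j)) := by
    unfold En
    rw [Nat.card_eq_fintype_card, Fintype.card_subtype]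
  rw [moment_eq, h2]
  have h3 : (q : ℝ) * #(univ.filter fun z : (Fin r → ι) × (Fin r → ι) =>
      (∑ j, v (z.1 j)) % (q : ℤ) = (∑ j, v (z.2 j)) % (q : ℤ)) ≤ (2 * (r * N) + 2 * q) *
        #(univ.filter fun z : (Fin r → ι) × (Fin r → ι) => ∑ j, v (z.1 j) = ∑ j, v (z.2 j)) := by
    exact_mod_cast h1
  refine h3.trans ?_
  have hqN : (q : ℝ) ≤ N := by exact_mod_cast hq
  have hE : (0 : ℝ) ≤ #(univ.filter fun z : (Fin r → ι) × (Fin r → ι) => ∑ j, v (z.1 j) = ∑ j, v (z.2 j)) :=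
    Nat.cast_nonneg _
  calc _ ≤ (2 * (r * N) + 2 * (N : ℝ)) *
        #(univ.filter fun z : (Fin r → ι) × (Fin r → ι) => ∑ j, v (z.1 j) = ∑ j, v (z.2 j)) := by
        apply mul_le_mul_of_nonneg_right _ hE
        linarith
    _ = _ := by ring

end

end Pool.Agent.Helper85.UV
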