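import Pool.Agent.Helper85.UV.Mom

set_option autoImplicit false

/-! Additive energies of nearby families. -/

namespace Pool.Agent.Helper85.UV
open Finset
open Pool.Agent.TH935.GF (En)

/-- coincidences between two functions -/
lemma card_cross {U κ : Type} [Fintype U] [DecidableEq κ] (f g : U → κ) :
    2 * #(univ.filter fun z : U × U => f z.1 = g z.2) ≤
      #(univ.filter fun z : U × U => f z.1 = f z.2) + #(univ.filter fun z : U × U => g z.1 = g z.2) := by
  classical
  obtain ⟨T, hT⟩ : ∃ T : Finset κ, T = univ.image f ∪ univ.image g := ⟨_, rfl⟩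
  have hfT : ∀ u, f u ∈ T := fun u => by rw [hT]; exact mem_union_left _ (mem_image_of_mem _ (mem_univ _))
  have hgT : ∀ u, g u ∈ T := fun u => by rw [hT]; exact mem_union_right _ (mem_image_of_mem _ (mem_univ _))
  rw [card_pairs f T hfT, card_pairs g T hgT]
  have h1 : #(univ.filter fun z : U × U => f z.1 = g z.2) =
      ∑ a ∈ T, #(univ.filter fun u : U => f u = a) * #(univ.filter fun u : U => g u = a) := by
    rw [card_eq_sum_card_fiberwise (f := fun z : U × U => f z.1) (t := T) (fun z _ => hfT z.1)]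
    apply sum_congr rfl
    intro a _
    rw [← card_product]
    congr 1
    ext ⟨u, w⟩
    simp only [mem_filter, mem_univ, true_and, mem_product]
    constructor
    · rintro ⟨h1, h2⟩
      exact ⟨h2, by rw [← h1, h2]⟩
    · rintro ⟨h1, h2⟩
      exact ⟨by rw [h1, h2], h1⟩
  rw [h1, mul_sum, ← sum_add_distrib]
  apply sum_le_sum
  intro a _
  have h2 := two_mul_le_add_sq (#(univ.filter fun u : U => f u = a)) (#(univ.filter fun u : U => g u = a))
  linarith

/-- coincidences with a shift -/
lemma card_shift {U : Type} [Fintype U] (f : U → ℤ) (s : ℤ) :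
    #(univ.filter fun z : U × U => f z.1 = f z.2 + s) ≤ #(univ.filter fun z : U × U => f z.1 = f z.2) := by
  have h1 := card_cross f (fun u => f u + s)
  have h2 : #(univ.filter fun z : U × U => (fun u => f u + s) z.1 = (fun u => f u + s) z.2) =
      #(univ.filter fun z : U × U => f z.1 = f z.2) := by
    congr 1
    ext z
    simp
  rw [h2] at h1
  have h3 : #(univ.filter fun z : U × U => f z.1 = (fun u => f u + s) z.2) =
      #(univ.filter fun z : U × U => f z.1 = f z.2 + s) := rfl
  rw [h3] at h1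
  omega

lemma En_eq (h : ℕ) {ι : Type} [Fintype ι] (v : ι → ℤ) :
    En h v = #(univ.filter fun z : (Fin h → ι) × (Fin h → ι) => ∑ j, v (z.1 j) = ∑ j, v (z.2 j)) := by
  classical
  unfold En
  rw [Nat.card_eq_fintype_card, Fintype.card_subtype]

lemma En_le_card (h : ℕ) {ι : Type} [Fintype ι] (v : ι → ℤ) : En h v ≤ Fintype.card ι ^ (2 * h) := by
  classical
  rw [En_eq]
  refine (card_le_univ _).trans (le_of_eq ?_)
  rw [Fintype.card_prod, Fintype.card_fun, Fintype.card_fin, two_mul, pow_add]

/-- energies of nearby families -/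
theorem En_near (h H : ℕ) {ι : Type} [Fintype ι] (v w : ι → ℤ) (hvw : ∀ i, |v i - w i| ≤ H) :
    En h v ≤ (4 * h * H + 1) * En h w := by
  classical
  rw [En_eq, En_eq]
  have hsub : (univ.filter fun z : (Fin h → ι) × (Fin h → ι) => ∑ j, v (z.1 j) = ∑ j, v (z.2 j)) ⊆
      (Finset.Icc (-(2 * h * H : ℤ)) (2 * h * H)).biUnion fun s =>
        univ.filter fun z : (Fin h → ι) × (Fin h → ι) => ∑ j, w (z.1 j) = ∑ j, w (z.2 j) + s := by
    intro z hz
    rw [mem_filter] at hz
    rw [mem_biUnion]
    have h1 : ∀ u : Fin h → ι, |∑ j, v (u j) - ∑ j, w (u j)| ≤ h * H := by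
      intro u
      rw [← sum_sub_distrib]
      refine (abs_sum_le_sum_abs _ _).trans ((sum_le_sum fun j _ => hvw (u j)).trans ?_)
      simp
    have h2 := abs_le.1 (h1 z.1)
    have h3 := abs_le.1 (h1 z.2)
    refine ⟨∑ j, w (z.1 j) - ∑ j, w (z.2 j), ?_, ?_⟩
    · rw [mem_Icc]
      have := hz.2
      constructor <;> linarith [h2.1, h2.2, h3.1, h3.2]
    · rw [mem_filter]
      exact ⟨mem_univ _, by ring⟩
  refine (card_le_card hsub).trans (card_biUnion_le.trans ?_)
  refine (sum_le_sum fun s _ => card_shift (fun u : Fin h → ι => ∑ j, w (u j)) s).trans ?_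
  rw [sum_const, Int.card_Icc, smul_eq_mul]
  apply Nat.mul_le_mul_right
  apply le_of_eq
  have : (2 * h * H : ℤ) + 1 - -(2 * h * H : ℤ) = ((4 * h * H + 1 : ℕ) : ℤ) := by push_cast; ring
  rw [this, Int.toNat_natCast]

end Pool.Agent.Helper85.UV
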