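import Pool.Agent.Helper85.UV.Joint

set_option autoImplicit false

/-! Dense orbits, domination of Lebesgue measure, rigidity along a filter of multipliers. -/

namespace Pool.Agent.Helper85.UV
open Finset Filter Topology MeasureTheory
open scoped ENNReal
open Pool.Agent.H769R3 (X fourier_norm integral_fourier_volume)
open Pool.Agent.TH463.UR (integrable_cont le_of_cont)

/-- a bump function -/
lemma exists_bump' {Z : Type} [MetricSpace Z] [CompactSpace Z] [MeasurableSpace Z] [BorelSpace Z] {ρ : Measure Z}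
    [IsFiniteMeasure ρ] [ρ.IsOpenPosMeasure] {U : Set Z} (hU : IsOpen U) (hne : U.Nonempty) :
    ∃ f : C(Z, ℝ), (∀ x, 0 ≤ f x) ∧ (∀ x, x ∉ U → f x = 0) ∧ 0 < ∫ x, f x ∂ρ := by
  obtain ⟨y, hy⟩ := hne
  obtain ⟨r, hr, hrU⟩ := Metric.isOpen_iff.1 hU y hy
  have hc : Continuous fun x : Z => max 0 (r - dist x y) := by fun_prop
  refine ⟨⟨_, hc⟩, fun x => le_max_left _ _, fun x hx => ?_, ?_⟩
  · have h1 : r ≤ dist x y := by
      by_contra hcon
      rw [not_le] at hcon
      exact hx (hrU hcon)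
    exact max_eq_left (by linarith)
  · apply hc.integral_pos_of_hasCompactSupport_nonneg_nonzero (x := y)
      (HasCompactSupport.of_compactSpace _) (fun x => le_max_left _ _)
    rw [dist_self, sub_zero, max_eq_right hr.le]
    exact hr.ne'

section

variable {Γ : Type} [Countable Γ] {μ : Measure X} [IsProbabilityMeasure μ]

/-- the joint images of the measures absolutely continuous with respect to `μ` tend to Haar measure -/
def Mixing {k : ℕ} (l : Filter Γ) (v : Fin k → Γ → ℤ) (μ : Measure X) : Prop :=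
  ∀ ν : Measure X, IsProbabilityMeasure ν → ν ≪ μ → ∀ f : C(Fin k → X, ℝ),
    Tendsto (fun c => ∫ x, f (Jm v c x) ∂ν) l (𝓝 (∫ y, f y))

theorem ae_dense {k : ℕ} {l : Filter Γ} {v : Fin k → Γ → ℤ} (h : Mixing l v μ) {S : Set Γ} (hS : (l ⊓ 𝓟 S).NeBot) :
    ∀ᵐ x ∂μ, Dense {y : Fin k → X | ∃ c ∈ S, y = Jm v c x} := by
  have hvol : IsProbabilityMeasure (volume : Measure X) := ⟨UnitAddCircle.measure_univ⟩
  set B := TopologicalSpace.countableBasis (Fin k → X) with hB
  have hcount : B.Countable := TopologicalSpace.countable_countableBasis (Fin k → X)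
  have hbasis := TopologicalSpace.isBasis_countableBasis (Fin k → X)
  have key : ∀ U ∈ B, ∀ᵐ x ∂μ, ∃ c ∈ S, Jm v c x ∈ U := by
    intro U hU
    have hUo : IsOpen U := hbasis.isOpen hU
    have hUne : U.Nonempty := TopologicalSpace.nonempty_of_mem_countableBasis hU
    obtain ⟨f, hf0, hfU, hfpos⟩ := exists_bump' (ρ := (volume : Measure (Fin k → X))) hUo hUne
    set A : Set X := ⋂ c ∈ S, (Jm v c) ⁻¹' Uᶜ with hA
    have hAm : MeasurableSet A := by
      refine MeasurableSet.biInter S.to_countable fun c _ => ?_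
      exact (continuous_Jm v c).measurable hUo.measurableSet.compl
    have hA0 : μ A = 0 := by
      by_contra hne
      have hprob : IsProbabilityMeasure (ProbabilityTheory.cond μ A) :=
        ProbabilityTheory.cond_isProbabilityMeasure hne
      have h1 := (h (ProbabilityTheory.cond μ A) hprob ProbabilityTheory.cond_absolutelyContinuous f).mono_left
        (inf_le_left : l ⊓ 𝓟 S ≤ l)
      have h2 : ∀ c ∈ S, ∫ x, f (Jm v c x) ∂(ProbabilityTheory.cond μ A) = 0 := by
        intro c hc
        apply integral_eq_zero_of_ae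
        have h3 : ∀ᵐ x ∂(ProbabilityTheory.cond μ A), x ∈ A := by
          have h4 : (ProbabilityTheory.cond μ A) A = 1 :=
            ProbabilityTheory.cond_apply_self hne (measure_ne_top μ A)
          rw [← prob_compl_eq_zero_iff hAm] at h4
          exact h4
        filter_upwards [h3] with x hx
        have h4 : Jm v c x ∉ U := by
          rw [hA] at hx
          simp only [Set.mem_iInter] at hx
          exact hx c hc
        exact hfU _ h4
      have h3 : Tendsto (fun c : Γ => ∫ x, f (Jm v c x) ∂(ProbabilityTheory.cond μ A))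
          (l ⊓ 𝓟 S) (𝓝 0) := by
        refine (tendsto_const_nhds (x := (0 : ℝ))).congr' ?_
        have h4 : ∀ᶠ c : Γ in l ⊓ 𝓟 S, c ∈ S :=
          eventually_inf_principal.2 (Eventually.of_forall fun _ h => h)
        filter_upwards [h4] with c hc
        exact (h2 c hc).symm
      have h4 := tendsto_nhds_unique h1 h3
      exact hfpos.ne' h4
    have h5 : ∀ᵐ x ∂μ, x ∉ A := measure_eq_zero_iff_ae_notMem.1 hA0
    filter_upwards [h5] with x hx
    rw [hA] at hx
    simp only [Set.mem_iInter, not_forall, Set.mem_preimage, Set.mem_compl_iff, not_not] at hx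
    obtain ⟨c, hc, hcU⟩ := hx
    exact ⟨c, hc, hcU⟩
  have hall : ∀ᵐ x ∂μ, ∀ U ∈ B, ∃ c ∈ S, Jm v c x ∈ U := (ae_ball_iff hcount).2 key
  filter_upwards [hall] with x hx
  rw [hbasis.dense_iff]
  intro U hU _
  obtain ⟨c, hc, hcU⟩ := hx U hU
  exact ⟨Jm v c x, hcU, c, hc, rfl⟩

end

section

variable {Γ : Type} {μ : Measure X} [IsProbabilityMeasure μ]

/-- the images of the measures absolutely continuous with respect to `μ` tend to Lebesgue measure -/
def Mix1 (l : Filter Γ) (v : Γ → ℤ) (μ : Measure X) : Prop :=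
  ∀ ν : Measure X, IsProbabilityMeasure ν → ν ≪ μ → ∀ f : C(X, ℝ),
    Tendsto (fun c => ∫ x, f (v c • x) ∂ν) l (𝓝 (∫ y, f y))

lemma Mix1.mono {l l' : Filter Γ} {v : Γ → ℤ} (h : Mix1 l v μ) (hl : l' ≤ l) : Mix1 l' v μ :=
  fun ν hν hνμ f => (h ν hν hνμ f).mono_left hl

/-- one sequence -/
theorem mix1_of_mixing {l : Filter Γ} {v : Γ → ℤ} (h : Mixing l (fun _ : Fin 1 => v) μ) : Mix1 l v μ := by
  intro ν hν hac f
  have h1 := h ν hν hac (f.comp ⟨fun y : Fin 1 → X => y 0, continuous_apply 0⟩)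
  have h2 : ∫ y : Fin 1 → X, (f.comp ⟨fun y : Fin 1 → X => y 0, continuous_apply 0⟩) y = ∫ x : X, f x := by
    have h3 := (volume_preserving_funUnique (Fin 1) X).integral_comp
      (MeasurableEquiv.funUnique (Fin 1) X).measurableEmbedding (fun x : X => f x)
    rw [← h3]
    rfl
  rw [h2] at h1
  exact h1

theorem dominate {l : Filter Γ} {v : Γ → ℤ} (h : Mix1 l v μ) {S : Set Γ} (hS : (l ⊓ 𝓟 S).NeBot)
    {ν : Measure X} [IsProbabilityMeasure ν]
    (hinv : ∀ c ∈ S, MeasurePreserving (fun x : X => v c • x) ν ν) (hns : ¬ ν ⟂ₘ μ) :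
    ∃ κ : ℝ≥0∞, 0 < κ ∧ κ • (volume : Measure X) ≤ ν := by
  have hleb : ν.HaveLebesgueDecomposition μ := Measure.haveLebesgueDecomposition_of_finiteMeasure
  have hvol : IsProbabilityMeasure (volume : Measure X) := ⟨UnitAddCircle.measure_univ⟩
  set νa : Measure X := μ.withDensity (ν.rnDeriv μ) with hνa
  have hle : νa ≤ ν := Measure.withDensity_rnDeriv_le ν μ
  have hac : νa ≪ μ := withDensity_absolutelyContinuous μ _
  have hfin : IsFiniteMeasure νa := isFiniteMeasure_of_le ν hle
  set κ := νa Set.univ with hκ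
  have hκtop : κ ≠ ∞ := measure_ne_top νa _
  have hκ0 : κ ≠ 0 := by
    intro h0
    apply hns
    have h1 : νa = 0 := Measure.measure_univ_eq_zero.1 h0
    have h2 := ν.haveLebesgueDecomposition_add μ
    rw [← hνa, h1, add_zero] at h2
    rw [h2]
    exact Measure.mutuallySingular_singularPart ν μ
  refine ⟨κ, pos_iff_ne_zero.2 hκ0, ?_⟩
  set ν' : Measure X := κ⁻¹ • νa with hν'
  have hprob : IsProbabilityMeasure ν' := by
    constructor
    rw [hν', Measure.smul_apply, smul_eq_mul, ← hκ, ENNReal.inv_mul_cancel hκ0 hκtop]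
  have hac' : ν' ≪ μ := (Measure.smul_absolutelyContinuous).trans hac
  have hκR : 0 < κ.toReal := ENNReal.toReal_pos hκ0 hκtop
  have hfin2 : IsFiniteMeasure (κ • (volume : Measure X)) := by
    constructor
    rw [Measure.smul_apply, smul_eq_mul, measure_univ, mul_one]
    exact lt_top_iff_ne_top.2 hκtop
  apply le_of_cont
  intro f hf
  have hcont : ∀ c : Γ, Continuous fun x : X => f (v c • x) := fun c =>
    f.continuous.comp (by fun_prop)
  have h1 := ((h ν' hprob hac' f).mono_left (inf_le_left : l ⊓ 𝓟 S ≤ l)).const_mul κ.toReal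
  have h2 : ∀ c ∈ S, κ.toReal * ∫ x, f (v c • x) ∂ν' ≤ ∫ x, f x ∂ν := by
    intro c hc
    have e1 : κ.toReal * ∫ x, f (v c • x) ∂ν' = ∫ x, f (v c • x) ∂νa := by
      rw [hν', integral_smul_measure, smul_eq_mul, ← mul_assoc, ENNReal.toReal_inv,
        mul_inv_cancel₀ hκR.ne', one_mul]
    have e2 : ∫ x, f (v c • x) ∂ν = ∫ x, f x ∂ν := by
      have h4 := (hinv c hc).map_eq
      conv_rhs => rw [← h4]
      rw [integral_map (hinv c hc).measurable.aemeasurable f.continuous.aestronglyMeasurable]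
    rw [e1, ← e2]
    exact integral_mono_measure hle (Eventually.of_forall fun x => hf _)
      (integrable_cont ν (hcont c))
  have h3 : κ.toReal * ∫ x : X, f x ≤ ∫ x, f x ∂ν := by
    refine le_of_tendsto h1 ?_
    have h4 : ∀ᶠ c : Γ in l ⊓ 𝓟 S, c ∈ S :=
      eventually_inf_principal.2 (Eventually.of_forall fun _ h => h)
    filter_upwards [h4] with c hc
    exact h2 c hc
  rw [integral_smul_measure, smul_eq_mul]
  exact h3

/-- rigidity -/
theorem eq_volume {l : Filter Γ} {v : Γ → ℤ} (h : Mix1 l v μ) {S : Set Γ} (hS : (l ⊓ 𝓟 S).NeBot)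
    {ν : Measure X} [IsProbabilityMeasure ν]
    (hinv : ∀ c ∈ S, MeasurePreserving (fun x : X => v c • x) ν ν) (hac : ν ≪ μ) : ν = volume := by
  have hvol : IsProbabilityMeasure (volume : Measure X) := ⟨UnitAddCircle.measure_univ⟩
  refine ext_of_forall_integral_eq_of_IsFiniteMeasure fun f => ?_
  have h1 := (h ν inferInstance hac f.toContinuousMap).mono_left (inf_le_left : l ⊓ 𝓟 S ≤ l)
  have h2 : Tendsto (fun c : Γ => ∫ x, f.toContinuousMap (v c • x) ∂ν) (l ⊓ 𝓟 S)
      (𝓝 (∫ x, f x ∂ν)) := by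
    refine (tendsto_const_nhds (x := ∫ x, f x ∂ν)).congr' ?_
    have h3 : ∀ᶠ c : Γ in l ⊓ 𝓟 S, c ∈ S :=
      eventually_inf_principal.2 (Eventually.of_forall fun _ h => h)
    filter_upwards [h3] with c hc
    have h4 := (hinv c hc).map_eq
    conv_lhs => rw [← h4]
    rw [integral_map (hinv c hc).measurable.aemeasurable f.continuous.aestronglyMeasurable]
    rfl
  exact tendsto_nhds_unique h2 h1

end

end Pool.Agent.Helper85.UV
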