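import Pool.Agent.Helper85.UV.Exc

set_option autoImplicit false

/-! The pressure bound with a general gain. -/

namespace Pool.Agent.Helper85.UV
open Finset Filter Topology
open scoped ENNReal
open Pool.Agent.H769R3 (X)
open Pool.Agent.TH463.UP (D D_lt Near nx lt_nx)
open Pool.Agent.TH463.UQ (BW WB mB W Z Z_W Norm Su Su_add norm_Su_le tri Pos nlog_nonneg W_eq Z_mul' Z_smul_le
  tail_sum Z_le_const Z_add Z_sum)

/-- the penalty near points of small order -/
noncomputable def AA (p : ℕ) (g : ℝ) : ℝ := g + Real.log (4 * p)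

open Classical in
/-- the potential -/
noncomputable def u (p k : ℕ) (w : ℕ → ℝ) (δ g ε : ℝ) (Q N : ℕ) (x : X) : ℝ :=
  -Real.log (w (D p (k + 1) x)) + (ε + 2 * g * δ) + AA p g * (if x ∈ Near Q N then 1 else 0)

lemma AA_pos {p : ℕ} (hp : 2 ≤ p) {g : ℝ} (hg : 0 < g) : 0 < AA p g := by
  unfold AA
  have h2 : (0 : ℝ) ≤ Real.log (4 * p) := by
    apply Real.log_nonneg
    have : (2 : ℝ) ≤ p := by exact_mod_cast hp
    linarith
  linarith

section

variable {p k : ℕ} {w : ℕ → ℝ} {δ g ε : ℝ} {Q N : ℕ}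

lemma u_ge (hp : 2 ≤ p) (hg : 0 < g) (x : X) :
    -Real.log (w (D p (k + 1) x)) + (ε + 2 * g * δ) ≤ u p k w δ g ε Q N x := by
  unfold u
  have h1 := AA_pos hp hg
  split_ifs
  · linarith
  · linarith

lemma u_nonneg (hp : 2 ≤ p) (hw : Pos w) (hδ : 0 < δ) (hg : 0 < g) (hε : 0 ≤ ε) (x : X) :
    0 ≤ u p k w δ g ε Q N x := by
  have h1 := u_ge (k := k) (w := w) (ε := ε) (δ := δ) (Q := Q) (N := N) hp hg x
  have h2 := nlog_nonneg hw (D p (k + 1) x)
  have h3 : 0 ≤ 2 * g * δ := by positivity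
  linarith

lemma u_near (hw : Pos w) (hδ : 0 < δ) (hg : 0 < g) (hε : 0 ≤ ε) {x : X} (hx : x ∈ Near Q N) :
    AA p g ≤ u p k w δ g ε Q N x := by
  unfold u
  rw [if_pos hx]
  have h2 := nlog_nonneg hw (D p (k + 1) x)
  have h3 : 0 ≤ 2 * g * δ := by positivity
  linarith

end

/-- the potential along the orbit -/
noncomputable def Psi (p k : ℕ) (w : ℕ → ℝ) (δ g ε : ℝ) (Q N h L : ℕ) (x : X) : ℝ :=
  g * ‖Su p h L x‖ - ∑ t ∈ range L, u p k w δ g ε Q N ((p ^ t : ℕ) • x)

/-- the weight of the orbit -/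
noncomputable def EX (p k : ℕ) (w : ℕ → ℝ) (δ g ε : ℝ) (Q N h L : ℕ) (x : X) : ℝ≥0∞ :=
  ENNReal.ofReal (Real.exp (Psi p k w δ g ε Q N h L x))

section

variable {p k : ℕ} {w : ℕ → ℝ} {δ g ε : ℝ} {Q N h : ℕ}

lemma Psi_add (hg : 0 < g) (ℓ m : ℕ) (x : X) : Psi p k w δ g ε Q N h (ℓ + m) x ≤
    (g * ‖Su p h ℓ x‖ - ∑ t ∈ range ℓ, u p k w δ g ε Q N ((p ^ t : ℕ) • x)) +
      Psi p k w δ g ε Q N h m ((p ^ ℓ : ℕ) • x) := by
  unfold Psi
  rw [Su_add, sum_range_add]
  have h1 := norm_add_le (Su p h ℓ x) (Su p h m ((p ^ ℓ : ℕ) • x))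
  have h2 := mul_le_mul_of_nonneg_left h1 hg.le
  have h3 : ∑ t ∈ range m, u p k w δ g ε Q N ((p ^ (ℓ + t) : ℕ) • x) =
      ∑ t ∈ range m, u p k w δ g ε Q N ((p ^ t : ℕ) • ((p ^ ℓ : ℕ) • x)) := by
    apply sum_congr rfl
    intro t _
    rw [← mul_smul, ← pow_add, add_comm ℓ t]
  rw [h3]
  linarith

/-- near a point of small order -/
lemma EX_near (hw : Pos w) (hδ : 0 < δ) (hg : 0 < g) (hε : 0 ≤ ε) {x : X} (hx : x ∈ Near Q N) (m : ℕ) :
    EX p k w δ g ε Q N h (1 + m) x ≤
      ENNReal.ofReal (Real.exp (g - AA p g)) * EX p k w δ g ε Q N h m ((p ^ 1 : ℕ) • x) := by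
  unfold EX
  rw [← ENNReal.ofReal_mul (Real.exp_pos _).le, ← Real.exp_add]
  apply ENNReal.ofReal_le_ofReal
  apply Real.exp_le_exp.2
  refine (Psi_add hg 1 m x).trans ?_
  have h1 := norm_Su_le p h 1 x
  have h2 := u_near (p := p) (k := k) hw hδ hg hε hx
  rw [sum_range_one, pow_zero, one_smul]
  have h3 := mul_le_mul_of_nonneg_left h1 hg.le
  push_cast at h3
  linarith

/-- a good pair -/
lemma EX_good (hp : 2 ≤ p) (hw : Pos w) (hg : 0 < g) {x : X} {β : ℕ}
    (hx : ‖Su p h β x‖ ≤ 2 * δ * β) (m : ℕ) :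
    EX p k w δ g ε Q N h (β + m) x ≤
      (ENNReal.ofReal (Real.exp (-ε * β)) * W p k w β x) *
        EX p k w δ g ε Q N h m ((p ^ β : ℕ) • x) := by
  unfold EX
  rw [W_eq hw, ← ENNReal.ofReal_mul (Real.exp_pos _).le, ← ENNReal.ofReal_mul (by positivity),
    ← Real.exp_add, ← Real.exp_add]
  apply ENNReal.ofReal_le_ofReal
  apply Real.exp_le_exp.2
  refine (Psi_add hg β m x).trans ?_
  have h1 : ∑ t ∈ range β, (-Real.log (w (D p (k + 1) ((p ^ t : ℕ) • x))) + (ε + 2 * g * δ)) ≤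
      ∑ t ∈ range β, u p k w δ g ε Q N ((p ^ t : ℕ) • x) := sum_le_sum fun t _ => u_ge hp hg _
  rw [sum_add_distrib, sum_neg_distrib, sum_const, card_range, nsmul_eq_mul] at h1
  have h3 := mul_le_mul_of_nonneg_left hx hg.le
  have h4 : g * (2 * δ * β) = β * (2 * g * δ) := by ring
  have h5 : (β : ℝ) * (ε + 2 * g * δ) = β * ε + β * (2 * g * δ) := by ring
  have h6 : -ε * (β : ℝ) = -(β * ε) := by ring
  rw [h6]
  linarith

/-- a bad word -/
lemma EX_bad (hp : 2 ≤ p) (hw : Pos w) (hδ : 0 < δ) (hg : 0 < g) (hε : 0 ≤ ε) {x : X} {β : ℕ}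
    (hx : D p (2 * β + 2) x ∈ BW p δ β N h) (m : ℕ) :
    EX p k w δ g ε Q N h (2 * β + 2 + m) x ≤
      (ENNReal.ofReal (Real.exp (g * (2 * β + 2))) * WB p k w δ β N h x) *
        EX p k w δ g ε Q N h m ((p ^ (2 * β + 2) : ℕ) • x) := by
  unfold EX WB
  rw [if_pos hx, W_eq hw, ← ENNReal.ofReal_mul (Real.exp_pos _).le,
    ← ENNReal.ofReal_mul (by positivity), ← Real.exp_add, ← Real.exp_add]
  apply ENNReal.ofReal_le_ofReal
  apply Real.exp_le_exp.2
  refine (Psi_add hg (2 * β + 2) m x).trans ?_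
  have h1 : ∑ t ∈ range (2 * β + 2), (-Real.log (w (D p (k + 1) ((p ^ t : ℕ) • x))) +
      (ε + 2 * g * δ)) ≤
      ∑ t ∈ range (2 * β + 2), u p k w δ g ε Q N ((p ^ t : ℕ) • x) := sum_le_sum fun t _ => u_ge hp hg _
  rw [sum_add_distrib, sum_neg_distrib, sum_const, card_range, nsmul_eq_mul] at h1
  have h2 := norm_Su_le p h (2 * β + 2) x
  have h3 := mul_le_mul_of_nonneg_left h2 hg.le
  have h4 : 0 ≤ ((2 * β + 2 : ℕ) : ℝ) * (ε + 2 * g * δ) := by positivity
  push_cast at h3 h4 h1 ⊢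
  linarith

end

/-- the constant -/
noncomputable def C0 (p : ℕ) (g : ℝ) (N : ℕ) : ℝ :=
  (p : ℝ) ^ (2 * N + 2) * Real.exp (g * (2 * N + 2))

lemma C0_pos {p : ℕ} (hp : 2 ≤ p) (g : ℝ) (N : ℕ) : 0 < C0 p g N := by
  unfold C0
  have : 0 < p := by omega
  have : (0 : ℝ) < p := by exact_mod_cast this
  positivity

/-- **The pressure bound.** -/
theorem pressure {p k : ℕ} (hp : 2 ≤ p) {w : ℕ → ℝ} (hw : Pos w) (hwn : Norm p k w) {δ g ε : ℝ}
    (hδ : 0 < δ) (hg : 0 < g) (hε : 0 < ε) {β₀ N h : ℕ} (hβ : Level p k δ g ε β₀) (hN : h < N)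
    (hgood : h ∉ Exc p k w δ g β₀ N) (L : ℕ) :
    Z p L (EX p k w δ g ε (p ^ β₀) N h L) ≤ ENNReal.ofReal (C0 p g N) := by
  obtain ⟨hβ1, hβ2, hβ3, hβ4⟩ := hβ
  have hp0 : (0 : ℝ) < p := by
    have : 0 < p := by omega
    exact_mod_cast this
  have hp1 : (1 : ℝ) ≤ p := by
    have : 1 ≤ p := by omega
    exact_mod_cast this
  induction L using Nat.strong_induction_on with
  | _ L ih =>
    by_cases hL : L ≤ 2 * N + 2
    · refine (Z_le_const (c := ENNReal.ofReal (Real.exp (g * (2 * N + 2)))) fun x => ?_).trans ?_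
      · unfold EX
        apply ENNReal.ofReal_le_ofReal
        apply Real.exp_le_exp.2
        unfold Psi
        have h1 : 0 ≤ ∑ t ∈ range L, u p k w δ g ε (p ^ β₀) N ((p ^ t : ℕ) • x) :=
          sum_nonneg fun t _ => u_nonneg hp hw hδ hg hε.le _
        have h2 := mul_le_mul_of_nonneg_left (norm_Su_le p h L x) hg.le
        have h3 : (L : ℝ) ≤ 2 * N + 2 := by exact_mod_cast hL
        have h4 := mul_le_mul_of_nonneg_left h3 hg.le
        linarith
      · unfold C0
        rw [ENNReal.ofReal_mul (by positivity), ENNReal.ofReal_pow hp0.le, ENNReal.ofReal_natCast]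
        apply mul_le_mul' _ le_rfl
        apply pow_le_pow_right₀ _ hL
        exact_mod_cast (show 1 ≤ p by omega)
    · rw [not_le] at hL
      set C : ℝ≥0∞ := ENNReal.ofReal (C0 p g N) with hC
      set g1 : X → ℝ≥0∞ := fun x => ENNReal.ofReal (Real.exp (g - AA p g)) *
        EX p k w δ g ε (p ^ β₀) N h (L - 1) ((p ^ 1 : ℕ) • x) with hg1
      set g2 : ℕ → X → ℝ≥0∞ := fun β x => (ENNReal.ofReal (Real.exp (-ε * β)) * W p k w β x) *
        EX p k w δ g ε (p ^ β₀) N h (L - β) ((p ^ β : ℕ) • x) with hg2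
      set g3 : ℕ → X → ℝ≥0∞ := fun β x => (ENNReal.ofReal (Real.exp (g * (2 * β + 2))) *
        WB p k w δ β N h x) *
        EX p k w δ g ε (p ^ β₀) N h (L - (2 * β + 2)) ((p ^ (2 * β + 2) : ℕ) • x) with hg3
      have hpt : ∀ x, EX p k w δ g ε (p ^ β₀) N h L x ≤
          (g1 x + ∑ β ∈ Finset.Ico β₀ N, g2 β x) + ∑ β ∈ Finset.Ico β₀ N, g3 β x := by
        intro x
        rcases tri hp hδ hβ2 hN x with hx | ⟨β, hβm, hx⟩ | ⟨β, hβm, hx⟩
        · have h1 := EX_near (p := p) (k := k) (h := h) hw hδ hg hε.le hx (L - 1)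
          rw [Nat.add_sub_cancel' (by omega)] at h1
          exact h1.trans (le_add_right (le_add_right le_rfl))
        · have hm := mem_Ico.1 hβm
          have h1 := EX_good (k := k) (ε := ε) (Q := p ^ β₀) (N := N) hp hw hg hx (L - β)
          rw [Nat.add_sub_cancel' (by omega)] at h1
          refine h1.trans (le_add_right (le_add_left ?_))
          exact single_le_sum (f := fun β => g2 β x) (fun _ _ => zero_le) hβm
        · have hm := mem_Ico.1 hβm
          have h1 := EX_bad (k := k) (Q := p ^ β₀) hp hw hδ hg hε.le hx (L - (2 * β + 2))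
          rw [Nat.add_sub_cancel' (by omega)] at h1
          refine h1.trans (le_add_left ?_)
          exact single_le_sum (f := fun β => g3 β x) (fun _ _ => zero_le) hβm
      have hZ1 : Z p L g1 ≤ ENNReal.ofReal (1 / 4) * C := by
        refine (Z_mul' hp (show 1 + (L - 1) = L by omega)
          (g1 := fun _ => ENNReal.ofReal (Real.exp (g - AA p g)))
          (g2 := EX p k w δ g ε (p ^ β₀) N h (L - 1)) fun x => le_rfl).trans ?_
        refine mul_le_mul' ?_ (ih (L - 1) (by omega))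
        refine (Z_le_const fun x => le_rfl).trans ?_
        rw [pow_one, ← ENNReal.ofReal_natCast, ← ENNReal.ofReal_mul (by positivity)]
        apply ENNReal.ofReal_le_ofReal
        unfold AA
        rw [sub_add_cancel_left, Real.exp_neg, Real.exp_log (by positivity)]
        apply le_of_eq
        field_simp
      have hZ2 : ∑ β ∈ Finset.Ico β₀ N, Z p L (g2 β) ≤ ENNReal.ofReal (1 / 4) * C := by
        have h1 : ∀ β ∈ Finset.Ico β₀ N, Z p L (g2 β) ≤
            ENNReal.ofReal ((p : ℝ) ^ k * Real.exp (-ε) ^ β) * C := by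
          intro β hβm
          have hm := mem_Ico.1 hβm
          refine (Z_mul' hp (show β + (L - β) = L by omega)
            (g1 := fun x => ENNReal.ofReal (Real.exp (-ε * β)) * W p k w β x)
            (g2 := EX p k w δ g ε (p ^ β₀) N h (L - β)) fun x => le_rfl).trans ?_
          refine mul_le_mul' ?_ (ih (L - β) (by omega))
          refine (Z_smul_le _ _).trans ?_
          refine (mul_le_mul' le_rfl (Z_W hp hwn β)).trans (le_of_eq ?_)
          rw [mul_comm (-ε), Real.exp_nat_mul, ENNReal.ofReal_mul (by positivity),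
            ENNReal.ofReal_pow hp0.le, ENNReal.ofReal_natCast, mul_comm]
        refine (sum_le_sum h1).trans ?_
        rw [← sum_mul]
        exact mul_le_mul' (tail_sum (by positivity) (Real.exp_pos _)
          (Real.exp_lt_one_iff.2 (by linarith)) hβ3) le_rfl
      have hZ3 : ∑ β ∈ Finset.Ico β₀ N, Z p L (g3 β) ≤ ENNReal.ofReal (1 / 4) * C := by
        have h1 : ∀ β ∈ Finset.Ico β₀ N, Z p L (g3 β) ≤
            ENNReal.ofReal (Real.exp (2 * g) * Real.exp (-(2 * g)) ^ β) * C := by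
          intro β hβm
          have hm := mem_Ico.1 hβm
          refine (Z_mul' hp (show (2 * β + 2) + (L - (2 * β + 2)) = L by omega)
            (g1 := fun x => ENNReal.ofReal (Real.exp (g * (2 * β + 2))) * WB p k w δ β N h x)
            (g2 := EX p k w δ g ε (p ^ β₀) N h (L - (2 * β + 2))) fun x => le_rfl).trans ?_
          refine mul_le_mul' ?_ (ih (L - (2 * β + 2)) (by omega))
          refine (Z_smul_le _ _).trans ?_
          have h2 : Z p (2 * β + 2) (WB p k w δ β N h) ≤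
              ENNReal.ofReal (Real.exp (-(4 * g) * β)) := by
            by_contra hcon
            rw [not_le] at hcon
            exact hgood ⟨β, hm.1, hcon⟩
          refine (mul_le_mul' le_rfl h2).trans (le_of_eq ?_)
          rw [← ENNReal.ofReal_mul (Real.exp_pos _).le, ← Real.exp_add, ← Real.exp_nat_mul,
            ← Real.exp_add]
          congr 2
          ring
        refine (sum_le_sum h1).trans ?_
        rw [← sum_mul]
        refine mul_le_mul' (tail_sum (by positivity) (Real.exp_pos _)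
          (Real.exp_lt_one_iff.2 ?_) hβ4) le_rfl
        linarith
      have htot := (Z_add (p := p) (R := L) hpt).trans (add_le_add
        ((Z_add (p := p) (R := L) fun x => le_rfl).trans (add_le_add hZ1
          ((Z_sum (p := p) (R := L) (Finset.Ico β₀ N) g2 fun x => le_rfl).trans hZ2)))
        ((Z_sum (p := p) (R := L) (Finset.Ico β₀ N) g3 fun x => le_rfl).trans hZ3))
      refine htot.trans ?_
      rw [← add_mul, ← add_mul, ← ENNReal.ofReal_add (by norm_num) (by norm_num),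
        ← ENNReal.ofReal_add (by norm_num) (by norm_num)]
      calc ENNReal.ofReal (1 / 4 + 1 / 4 + 1 / 4) * C ≤ 1 * C := by
            apply mul_le_mul' _ le_rfl
            rw [ENNReal.ofReal_le_one]
            norm_num
        _ = C := one_mul C

end Pool.Agent.Helper85.UV
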