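import Pool.Agent.Helper85.UV.Univ
import Pool.Agent.Helper85.UV.Near
import Pool.Agent.Helper85.RP.Top

set_option autoImplicit false

/-! Boxes in `ℤⁿ`; the integer parts of the values of real polynomials have bounded moments. -/

namespace Pool.Agent.Helper85.UV
open Finset Filter Topology
open Pool.Agent.TH935.GF (En)
open Pool.Agent.Helper85.RP (box mem_box card_box energy_box val_le split)

/-- the boxes -/
noncomputable def bz (n : ℕ) : ℕ → Finset (Fin n → ℤ)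
  | 0 => ∅
  | Y + 1 => box n Y

/-- the height -/
def hz (n : ℕ) (c : Fin n → ℤ) : ℕ := univ.sup fun i => (c i).natAbs

lemma hz_le {n : ℕ} {c : Fin n → ℤ} {Y : ℕ} : hz n c ≤ Y ↔ ∀ i, |c i| ≤ Y := by
  unfold hz
  rw [Finset.sup_le_iff]
  constructor
  · intro h i
    have := h i (mem_univ _)
    rw [Int.abs_eq_natAbs]
    exact_mod_cast this
  · intro h i _
    have := h i
    rw [Int.abs_eq_natAbs] at this
    exact_mod_cast this

lemma mem_bz {n : ℕ} (c : Fin n → ℤ) (Y : ℕ) : c ∈ bz n Y ↔ hz n c < Y := by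
  cases Y with
  | zero =>
    unfold bz
    simp
  | succ Y =>
    rw [Nat.lt_succ_iff, hz_le]
    exact mem_box

lemma card_bz_le (n Y : ℕ) : #(bz n Y) ≤ (2 * Y) ^ n := by
  cases Y with
  | zero =>
    unfold bz
    simp
  | succ Y =>
    change (box n Y).card ≤ _
    rw [card_box]
    exact Nat.pow_le_pow_left (by omega) n

lemma le_card_bz (n Y : ℕ) (hn : 1 ≤ n) : Y ^ n ≤ #(bz n Y) := by
  cases Y with
  | zero =>
    rw [zero_pow (by omega)]
    exact Nat.zero_le _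
  | succ Y =>
    change _ ≤ (box n Y).card
    rw [card_box]
    exact Nat.pow_le_pow_left (by omega) n

/-- the exhaustion of `ℤⁿ` by boxes -/
noncomputable def BZ (n : ℕ) (hn : 1 ≤ n) : Bxs (Fin n → ℤ) where
  ht := hz n
  bx := bz n
  dom := Set.univ
  mem := fun c Y => by rw [mem_bz]; simp
  A := fun Y => #(bz n Y)
  A0 := fun Y => Nat.cast_nonneg _
  L := 2 * 4 ^ n
  L0 := by positivity
  sum := by
    intro Y hY
    have h1 : ∀ i ∈ range (Nat.log 2 Y + 1), (#(bz n (2 ^ (i + 1))) : ℝ) ≤ 4 ^ n * (2 ^ n) ^ i := by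
      intro i _
      have h2 := card_bz_le n (2 ^ (i + 1))
      have h3 : ((2 * 2 ^ (i + 1)) ^ n : ℕ) = 4 ^ n * (2 ^ n) ^ i := by
        rw [← pow_mul, mul_comm n i, pow_mul, ← mul_pow]
        congr 1
        ring
      rw [h3] at h2
      exact_mod_cast h2
    refine (sum_le_sum h1).trans ?_
    rw [← mul_sum]
    have h4 : (Y : ℝ) ^ n ≤ #(bz n Y) := by exact_mod_cast le_card_bz n Y hn
    have h5 : ∑ i ∈ range (Nat.log 2 Y + 1), ((2 : ℝ) ^ n) ^ i ≤ 2 * Y ^ n := by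
      have h6 : (2 : ℝ) ≤ 2 ^ n := by
        calc (2 : ℝ) = 2 ^ 1 := by norm_num
          _ ≤ 2 ^ n := pow_le_pow_right₀ (by norm_num) hn
      have h7 : ∀ m : ℕ, ∑ i ∈ range (m + 1), ((2 : ℝ) ^ n) ^ i ≤ 2 * ((2 : ℝ) ^ n) ^ m := by
        intro m
        induction m with
        | zero => simp
        | succ m ih =>
          rw [sum_range_succ]
          have h8 : (0 : ℝ) < (2 ^ n) ^ m := by positivity
          have h9 : 2 * ((2 : ℝ) ^ n) ^ m ≤ (2 ^ n) ^ (m + 1) := by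
            rw [pow_succ ((2 : ℝ) ^ n) m, mul_comm]
            exact mul_le_mul_of_nonneg_left h6 h8.le
          linarith
      refine (h7 _).trans ?_
      apply mul_le_mul_of_nonneg_left _ (by norm_num)
      rw [← pow_mul, mul_comm n, pow_mul]
      apply pow_le_pow_left₀ (by positivity)
      exact_mod_cast Nat.pow_log_le_self 2 (by omega : Y ≠ 0)
    calc (4 : ℝ) ^ n * ∑ i ∈ range (Nat.log 2 Y + 1), ((2 : ℝ) ^ n) ^ i ≤ 4 ^ n * (2 * Y ^ n) :=
          mul_le_mul_of_nonneg_left h5 (by positivity)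
      _ ≤ 4 ^ n * (2 * #(bz n Y)) := by
          apply mul_le_mul_of_nonneg_left _ (by positivity)
          exact mul_le_mul_of_nonneg_left h4 (by norm_num)
      _ = _ := by ring

/-- the exhaustion of `ℕ` -/
noncomputable def BN : Bxs ℕ where
  ht := id
  bx := range
  dom := Set.univ
  mem := by
    intro c Y
    rw [mem_range]
    simp
  A := fun Y => Y
  A0 := fun Y => Nat.cast_nonneg _
  L := 4
  L0 := by norm_num
  sum := by
    intro Y hY
    push_cast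
    have h3 : ∑ i ∈ range (Nat.log 2 Y + 1), (2 : ℝ) ^ (i + 1) ≤ 4 * Y := by
      have h7 : ∀ m : ℕ, ∑ i ∈ range (m + 1), (2 : ℝ) ^ (i + 1) ≤ 4 * 2 ^ m := by
        intro m
        induction m with
        | zero => norm_num
        | succ m ih =>
          rw [sum_range_succ]
          have e1 : (2 : ℝ) ^ (m + 1 + 1) = 4 * 2 ^ m := by ring
          have e2 : (4 : ℝ) * 2 ^ (m + 1) = 4 * 2 ^ m + 4 * 2 ^ m := by ring
          rw [e1, e2]
          linarith
      refine (h7 _).trans ?_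
      apply mul_le_mul_of_nonneg_left _ (by norm_num)
      exact_mod_cast Nat.pow_log_le_self 2 (by omega : Y ≠ 0)
    exact h3

/-- **Families of integers close to the values of a real polynomial have bounded moments.** -/
theorem mom_poly {n : ℕ} (hn : 1 ≤ n) (F : MvPolynomial (Fin n) ℝ) (hF : 1 ≤ F.totalDegree)
    (v : (Fin n → ℤ) → ℤ) (H : ℕ) (hv : ∀ c, |(v c : ℝ) - MvPolynomial.eval (fun i => (c i : ℝ)) F| ≤ H) :
    ∃ (N : ℕ → ℕ) (r : ℕ) (K : ℝ), Mom (BZ n hn) v N r 0 K ∧ ∀ Y, Y ≤ N Y := by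
  classical
  obtain ⟨d, hd⟩ : ∃ d, d = F.totalDegree := ⟨_, rfl⟩
  obtain ⟨Φ, G, hΦ, hΦ0, hG, hFG⟩ := split F hF
  rw [← hd] at hΦ hG hF
  obtain ⟨h, hh, C, hC, hen⟩ := energy_box n d hF Φ hΦ hΦ0
  obtain ⟨C₂, hC₂, hval⟩ := val_le F
  rw [← hd] at hval
  obtain ⟨A, hA⟩ : ∃ A : ℕ, A = ⌈C₂⌉₊ + H + 1 := ⟨_, rfl⟩
  have hA1 : 1 ≤ A := by omega
  have hAR : C₂ + H < A := by
    rw [hA]
    push_cast
    have := Nat.le_ceil C₂
    linarith
  obtain ⟨H', hH'⟩ : ∃ H' : ℕ, H' = H + 1 := ⟨_, rfl⟩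
  have hvw : ∀ c, |v c - ⌊MvPolynomial.eval (fun i => (c i : ℝ)) F⌋| ≤ (H' : ℤ) := by
    intro c
    have h1 := abs_le.1 (hv c)
    have h2 := Int.floor_le (MvPolynomial.eval (fun i => (c i : ℝ)) F)
    have h3 := Int.lt_floor_add_one (MvPolynomial.eval (fun i => (c i : ℝ)) F)
    have h4 : |((v c - ⌊MvPolynomial.eval (fun i => (c i : ℝ)) F⌋ : ℤ) : ℝ)| ≤ ((H' : ℤ) : ℝ) := by
      rw [hH', abs_le]
      push_cast
      constructor <;> linarith [h1.1, h1.2]
    exact_mod_cast h4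
  obtain ⟨K₁, hK₁⟩ : ∃ K₁ : ℝ, K₁ = (4 * h * H' + 1 : ℕ) * C * (A * 2 ^ d) := ⟨_, rfl⟩
  have hK₁0 : 0 ≤ K₁ := by rw [hK₁]; positivity
  have key : ∀ M : ℕ, 1 ≤ M → (En h (fun c : {c // c ∈ box n M} => v c) : ℝ) * ((A * (M + 1) ^ d : ℕ) : ℝ) ≤
      (A + K₁) * (#(box n M) : ℝ) ^ (2 * h) := by
    intro M hM
    have h1 := En_near h H' (fun c : {c // c ∈ box n M} => v c)
      (fun c : {c // c ∈ box n M} => ⌊MvPolynomial.eval (fun i => (c.1 i : ℝ)) F⌋) (fun c => hvw c)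
    have h2 : (En h (fun c : {c // c ∈ box n M} => v c) : ℝ) ≤ (4 * h * H' + 1 : ℕ) *
        (En h (fun c : {c // c ∈ box n M} => ⌊MvPolynomial.eval (fun i => (c.1 i : ℝ)) F⌋) : ℝ) := by
      exact_mod_cast h1
    have h3 := hen G hG M hM
    rw [← hFG] at h3
    have h4 : ((M + 1 : ℕ) : ℝ) ^ d ≤ 2 ^ d * (M : ℝ) ^ d := by
      rw [← mul_pow]
      apply pow_le_pow_left₀ (by positivity)
      push_cast
      have : (1 : ℝ) ≤ M := by exact_mod_cast hM
      linarith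
    have hE0 : (0 : ℝ) ≤ (En h (fun c : {c // c ∈ box n M} => ⌊MvPolynomial.eval (fun i => (c.1 i : ℝ)) F⌋) : ℝ) :=
      Nat.cast_nonneg _
    have h5 : (0 : ℝ) ≤ (#(box n M) : ℝ) ^ (2 * h) := by positivity
    calc (En h (fun c : {c // c ∈ box n M} => v c) : ℝ) * ((A * (M + 1) ^ d : ℕ) : ℝ) ≤
          ((4 * h * H' + 1 : ℕ) * (En h (fun c : {c // c ∈ box n M} =>
            ⌊MvPolynomial.eval (fun i => (c.1 i : ℝ)) F⌋) : ℝ)) * (A * (2 ^ d * (M : ℝ) ^ d)) := by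
          apply mul_le_mul h2 _ (by positivity) (by positivity)
          rw [Nat.cast_mul, Nat.cast_pow]
          exact mul_le_mul_of_nonneg_left h4 (Nat.cast_nonneg _)
      _ = (4 * h * H' + 1 : ℕ) * (A * 2 ^ d) * ((En h (fun c : {c // c ∈ box n M} =>
            ⌊MvPolynomial.eval (fun i => (c.1 i : ℝ)) F⌋) : ℝ) * (M : ℝ) ^ d) := by ring
      _ ≤ (4 * h * H' + 1 : ℕ) * (A * 2 ^ d) * (C * (#(box n M) : ℝ) ^ (2 * h)) :=
          mul_le_mul_of_nonneg_left h3 (by positivity)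
      _ = K₁ * (#(box n M) : ℝ) ^ (2 * h) := by rw [hK₁]; ring
      _ ≤ _ := mul_le_mul_of_nonneg_right (by linarith [(Nat.cast_nonneg A : (0 : ℝ) ≤ A)]) h5
  have hYN : ∀ Y : ℕ, Y ≤ A * Y ^ d := fun Y =>
    calc Y ≤ Y ^ d := Nat.le_self_pow (by omega) Y
      _ ≤ A * Y ^ d := Nat.le_mul_of_pos_left _ hA1
  refine ⟨fun Y => A * Y ^ d, h, _, mom_of_energy (K := A + K₁) hh ?_ ?_ ?_, hYN⟩
  · intro Y c hc
    have hc' : hz n c < Y := hc
    have hY : 1 ≤ Y := by omega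
    have h1 := hval Y hY c (mem_box.2 (hz_le.1 hc'.le))
    have h2 := hv c
    have h3 : ((v c).natAbs : ℝ) < ((A * Y ^ d : ℕ) : ℝ) := by
      rw [Nat.cast_natAbs]
      push_cast
      have h4 : |(v c : ℝ)| ≤ C₂ * (Y : ℝ) ^ d + H := by
        have h5 := abs_add_le ((v c : ℝ) - MvPolynomial.eval (fun i => (c i : ℝ)) F)
          (MvPolynomial.eval (fun i => (c i : ℝ)) F)
        rw [sub_add_cancel] at h5
        linarith
      have h6 : (1 : ℝ) ≤ (Y : ℝ) ^ d := one_le_pow₀ (by exact_mod_cast hY)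
      have h7 : (H : ℝ) ≤ H * (Y : ℝ) ^ d := le_mul_of_one_le_right (Nat.cast_nonneg _) h6
      calc |(v c : ℝ)| ≤ (C₂ + H) * (Y : ℝ) ^ d := by linarith
        _ < A * (Y : ℝ) ^ d := mul_lt_mul_of_pos_right hAR (by linarith)
    exact_mod_cast h3
  · exact tendsto_atTop_mono (f := fun Y : ℕ => Y) hYN tendsto_id
  · intro Y
    change (En h (fun c : {c // c ∈ bz n Y} => v c) : ℝ) * ((A * Y ^ d : ℕ) : ℝ) ≤
      (A + K₁) * (#(bz n Y) : ℝ) ^ (2 * h)
    match Y with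
    | 0 =>
      rw [zero_pow (by omega)]
      simp only [mul_zero, Nat.cast_zero]
      positivity
    | 1 =>
      have h1 := En_le_card h (fun c : {c // c ∈ bz n 1} => v c)
      rw [Fintype.card_coe] at h1
      have h2 : (En h (fun c : {c // c ∈ bz n 1} => v c) : ℝ) ≤ (#(bz n 1) : ℝ) ^ (2 * h) := by exact_mod_cast h1
      rw [one_pow, mul_one, mul_comm]
      have h3 : (0 : ℝ) ≤ (#(bz n 1) : ℝ) ^ (2 * h) := by positivity
      calc (A : ℝ) * (En h (fun c : {c // c ∈ bz n 1} => v c) : ℝ) ≤ A * (#(bz n 1) : ℝ) ^ (2 * h) :=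
            mul_le_mul_of_nonneg_left h2 (Nat.cast_nonneg _)
        _ ≤ _ := mul_le_mul_of_nonneg_right (by linarith) h3
    | Y + 2 => exact key (Y + 1) (by omega)

end Pool.Agent.Helper85.UV
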