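import Pool.Agent.Helper85.UV.Poly
import Pool.Agent.Helper85.UV.Orbit

set_option autoImplicit false

/-! Universal sets of parameters for countable families of real polynomials in several variables. -/

namespace Pool.Agent.Helper85.UV
open Finset Filter Topology MeasureTheory
open scoped ENNReal
open Pool.Agent.H769R3 (X)
open Pool.Agent.Helper85.RP (box mem_box)

section

variable {n : ℕ} {κ : Type} (F : κ → MvPolynomial (Fin n) ℝ)

/-- the integer parts of the values -/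
noncomputable def fl (i : κ) (c : Fin n → ℤ) : ℤ := ⌊MvPolynomial.eval (fun j => (c j : ℝ)) (F i)⌋

/-- the integer combinations of the integer parts -/
noncomputable def cmb (a : (κ →₀ ℤ) × ℤ) (c : Fin n → ℤ) : ℤ :=
  Finsupp.linearCombination ℤ (fun i => fl F i c) a.1 + a.2

/-- the integer combinations of the polynomials -/
noncomputable def cmbF (a : (κ →₀ ℤ) × ℤ) : MvPolynomial (Fin n) ℝ := Finsupp.linearCombination ℤ F a.1

lemma cmb_near (a : (κ →₀ ℤ) × ℤ) : ∃ H : ℕ, ∀ c : Fin n → ℤ,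
    |(cmb F a c : ℝ) - MvPolynomial.eval (fun i => (c i : ℝ)) (cmbF F a)| ≤ H := by
  classical
  refine ⟨(∑ i ∈ a.1.support, (a.1 i).natAbs) + a.2.natAbs, fun c => ?_⟩
  have h1 : (cmb F a c : ℝ) - MvPolynomial.eval (fun i => (c i : ℝ)) (cmbF F a) =
      ∑ i ∈ a.1.support, (a.1 i : ℝ) * ((fl F i c : ℝ) - MvPolynomial.eval (fun i => (c i : ℝ)) (F i)) + a.2 := by
    unfold cmb cmbF
    rw [Finsupp.linearCombination_apply, Finsupp.linearCombination_apply, Finsupp.sum, Finsupp.sum, map_sum]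
    push_cast
    have h2 : ∀ i ∈ a.1.support, MvPolynomial.eval (fun i => (c i : ℝ)) (a.1 i • F i) =
        (a.1 i : ℝ) * MvPolynomial.eval (fun i => (c i : ℝ)) (F i) := by
      intro i _
      rw [map_zsmul, zsmul_eq_mul]
    rw [sum_congr rfl h2]
    simp only [smul_eq_mul, Int.cast_mul, mul_sub, sum_sub_distrib]
    ring
  rw [h1]
  push_cast
  refine (abs_add_le _ _).trans (add_le_add ?_ (le_of_eq ?_))
  · refine (abs_sum_le_sum_abs _ _).trans (sum_le_sum fun i _ => ?_)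
    rw [abs_mul]
    have h3 : |(fl F i c : ℝ) - MvPolynomial.eval (fun i => (c i : ℝ)) (F i)| ≤ 1 := by
      unfold fl
      have h4 := Int.floor_le (MvPolynomial.eval (fun j => (c j : ℝ)) (F i))
      have h5 := Int.lt_floor_add_one (MvPolynomial.eval (fun j => (c j : ℝ)) (F i))
      rw [abs_le]
      constructor <;> linarith
    calc |(a.1 i : ℝ)| * |(fl F i c : ℝ) - MvPolynomial.eval (fun i => (c i : ℝ)) (F i)| ≤ |(a.1 i : ℝ)| * 1 :=
          mul_le_mul_of_nonneg_left h3 (abs_nonneg _)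
      _ = ((a.1 i).natAbs : ℝ) := by rw [mul_one, Nat.cast_natAbs, Int.cast_abs]
  · rw [Nat.cast_natAbs, Int.cast_abs]

/-- the Fourier coefficients at all the integer combinations tend to zero along one set -/
theorem poly_coeff (hn : 1 ≤ n) [Countable κ] {η : ℝ} (hη : 0 < η) : ∃ C : Set (Fin n → ℤ),
    (∀ Y : ℕ, ((Nat.card {c : Fin n → ℤ | c ∈ bz n Y ∧ c ∉ C} : ℕ) : ℝ) ≤ η * #(bz n Y)) ∧
    ∀ p : ℕ, 2 ≤ p → ∀ μ : Measure X, IsProbabilityMeasure μ →
      MeasurePreserving (fun x : X => p • x) μ μ → (∀ x, μ {x} = 0) →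
      ∀ a : (κ →₀ ℤ) × ℤ, 1 ≤ (cmbF F a).totalDegree →
      Tendsto (fun c : Fin n → ℤ => ∫ x, (fourier (cmb F a c) x : ℂ) ∂μ) (comap (hz n) atTop ⊓ 𝓟 C) (𝓝 0) := by
  classical
  letI : Encodable {a : (κ →₀ ℤ) × ℤ // 1 ≤ (cmbF F a).totalDegree} := Encodable.ofCountable _
  have hex : ∀ a : {a : (κ →₀ ℤ) × ℤ // 1 ≤ (cmbF F a).totalDegree}, ∃ (N : ℕ → ℕ) (r : ℕ) (K : ℝ),
      Mom (BZ n hn) (cmb F a.1) N r 0 K := by
    intro a
    obtain ⟨H, hH⟩ := cmb_near F a.1
    obtain ⟨N, r, K, h, -⟩ := mom_poly hn (cmbF F a.1) a.2 (cmb F a.1) H hH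
    exact ⟨N, r, K, h⟩
  choose N r K hM using hex
  obtain ⟨C, h1, h2⟩ := universal (v := fun a : {a : (κ →₀ ℤ) × ℤ // 1 ≤ (cmbF F a).totalDegree} => cmb F a.1)
    (e := fun _ => 0) hM hη
  exact ⟨C, h1, fun p hp μ hμp hμ hat a ha => h2 p hp μ hμp hμ hat ⟨a, ha⟩⟩

end

lemma comap_ht {n : ℕ} : (cofinite : Filter (Fin n → ℤ)) ≤ comap (hz n) atTop := by
  rw [← tendsto_iff_comap, tendsto_atTop]
  intro b
  have : {c : Fin n → ℤ | ¬ b ≤ hz n c} ⊆ (bz n b : Set (Fin n → ℤ)) := by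
    intro c hc
    rw [Set.mem_ofPred_eq, not_le] at hc
    exact (mem_bz c b).2 hc
  exact (Finset.finite_toSet _).subset this

/-- **Universal sets of parameters for polynomials.** -/
theorem poly_universal (n : ℕ) (𝓕 : Set (MvPolynomial (Fin n) ℝ)) (h𝓕 : 𝓕.Countable) {η : ℝ} (hη : 0 < η) :
    ∃ C : Set (Fin n → ℤ),
      (∀ Y : ℕ, (Nat.card {c : Fin n → ℤ | (∀ i, |c i| < Y) ∧ c ∉ C} : ℝ) ≤ η * (Y : ℝ) ^ n) ∧
      ∀ p : ℕ, 2 ≤ p → ∀ μ : Measure X, IsProbabilityMeasure μ →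
        MeasurePreserving (fun x : X => p • x) μ μ → (∀ x, μ {x} = 0) →
        ∀ (k : ℕ) (F : Fin k → MvPolynomial (Fin n) ℝ), (∀ j, F j ∈ 𝓕) →
          (∀ (m : Fin k → ℤ) (z : ℝ), m ≠ 0 → ∑ j, m j • F j ≠ MvPolynomial.C z) →
          Mixing (cofinite ⊓ 𝓟 C) (fun j c => ⌊MvPolynomial.eval (fun i => (c i : ℝ)) (F j)⌋) μ := by
  classical
  rcases Nat.eq_zero_or_pos n with hn0 | hn
  · subst hn0
    refine ⟨Set.univ, fun Y => ?_, fun p hp μ hμp hμ hat k F hF hind => ?_⟩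
    · have : {c : Fin 0 → ℤ | (∀ i, |c i| < (Y : ℤ)) ∧ c ∉ Set.univ} = ∅ := by
        rw [Set.eq_empty_iff_forall_notMem]
        rintro c ⟨_, h⟩
        exact h (Set.mem_univ _)
      rw [this]
      simp only [Nat.card_eq_fintype_card, Fintype.card_of_isEmpty, Nat.cast_zero]
      positivity
    · intro ν _ _ f
      rw [Filter.cofinite_eq_bot, bot_inf_eq]
      exact tendsto_bot
  have : Countable 𝓕 := h𝓕.to_subtype
  obtain ⟨C, h1, h2⟩ := poly_coeff (fun i : 𝓕 => (i : MvPolynomial (Fin n) ℝ)) hn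
    (show 0 < η / 2 ^ n by positivity)
  refine ⟨C, fun Y => ?_, fun p hp μ hμp hμ hat k F hF hind => ?_⟩
  · have h3 : {c : Fin n → ℤ | (∀ i, |c i| < (Y : ℤ)) ∧ c ∉ C} = {c : Fin n → ℤ | c ∈ bz n Y ∧ c ∉ C} := by
      ext c
      simp only [Set.mem_ofPred_eq]
      have h4 : (∀ i, |c i| < (Y : ℤ)) ↔ c ∈ bz n Y := by
        cases Y with
        | zero =>
          rw [mem_bz]
          simp only [Nat.not_lt_zero, iff_false, not_forall, not_lt]
          exact ⟨⟨0, hn⟩, by simp⟩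
        | succ Y =>
          rw [mem_bz, Nat.lt_succ_iff, hz_le]
          constructor
          · intro h i
            have := h i
            push_cast at this
            omega
          · intro h i
            have := h i
            push_cast
            omega
      rw [h4]
    rw [h3]
    refine (h1 Y).trans ?_
    have h5 : (#(bz n Y) : ℝ) ≤ 2 ^ n * (Y : ℝ) ^ n := by
      have h6 := card_bz_le n Y
      rw [mul_pow] at h6
      exact_mod_cast h6
    calc η / 2 ^ n * (#(bz n Y) : ℝ) ≤ η / 2 ^ n * (2 ^ n * (Y : ℝ) ^ n) :=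
          mul_le_mul_of_nonneg_left h5 (by positivity)
      _ = η * (Y : ℝ) ^ n := by field_simp
  · intro ν hν hac f
    have hl : (cofinite ⊓ 𝓟 C : Filter (Fin n → ℤ)) ≤ comap (hz n) atTop ⊓ 𝓟 C :=
      inf_le_inf_right _ comap_ht
    refine (joint (μ := μ) (l := comap (hz n) atTop ⊓ 𝓟 C)
      (fun j c => ⌊MvPolynomial.eval (fun i => (c i : ℝ)) (F j)⌋) ?_ hac f).mono_left hl
    intro m hm t
    set a : (𝓕 →₀ ℤ) × ℤ := (∑ j, Finsupp.single (⟨F j, hF j⟩ : 𝓕) (m j), t) with ha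
    have h3 : cmbF (fun i : 𝓕 => (i : MvPolynomial (Fin n) ℝ)) a = ∑ j, m j • F j := by
      unfold cmbF
      rw [ha]
      simp only [map_sum, Finsupp.linearCombination_single]
    have h4 : 1 ≤ (cmbF (fun i : 𝓕 => (i : MvPolynomial (Fin n) ℝ)) a).totalDegree := by
      rw [h3]
      by_contra hcon
      have h5 : (∑ j, m j • F j).totalDegree = 0 := by omega
      rw [MvPolynomial.totalDegree_eq_zero_iff_eq_C] at h5
      exact hind m _ hm h5
    have h5 := h2 p hp μ hμp hμ hat a h4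
    refine h5.congr fun c => ?_
    congr 1
    funext x
    congr 2
    unfold cmb
    rw [ha]
    simp only [map_sum, Finsupp.linearCombination_single, smul_eq_mul]
    rfl

end Pool.Agent.Helper85.UV
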