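import Pool.Agent.Helper85.UV.Poly
import Pool.Agent.Helper85.UV.Orbit
import Pool.Agent.TH463.UR.Shift

set_option autoImplicit false

/-! Polynomials at the elements of a set with an upper bound of Brun–Titchmarsh type. -/

namespace Pool.Agent.Helper85.UV
open Finset Filter Topology
open Pool.Agent.H769R3 (psi psi_add psi_zero psi_neg psi_norm sum_psi)
open Pool.Agent.TH463.UR (BT Reg card_setOf)
open Pool.Agent.Helper85.RP (box mem_box)

/-- the number of congruent sums -/
def cm (q r : ℕ) {ι : Type} [Fintype ι] (v : ι → ℤ) : ℕ :=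
  #(univ.filter fun z : (Fin r → ι) × (Fin r → ι) =>
      (∑ j, v (z.1 j)) % (q : ℤ) = (∑ j, v (z.2 j)) % (q : ℤ))

lemma cm_inj (q r : ℕ) {ι κ : Type} [Fintype ι] [Fintype κ] (v : ι → ℤ) (v' : κ → ℤ) (g : ι → κ)
    (hg : Function.Injective g) (h : ∀ i, v' (g i) = v i) : cm q r v ≤ cm q r v' := by
  unfold cm
  apply card_le_card_of_injOn (fun z => (fun j => g (z.1 j), fun j => g (z.2 j)))
  · intro z hz
    rw [mem_coe, mem_filter] at hz ⊢
    refine ⟨mem_univ _, ?_⟩
    simp only [h]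
    exact hz.2
  · intro z _ w _ hzw
    simp only [Prod.mk.injEq] at hzw
    apply Prod.ext
    · funext j
      exact hg (congrFun hzw.1 j)
    · funext j
      exact hg (congrFun hzw.2 j)

lemma sum_emod {κ : Type} (s : Finset κ) (q : ℤ) (f g : κ → ℤ) (h : ∀ i ∈ s, f i % q = g i % q) :
    (∑ i ∈ s, f i) % q = (∑ i ∈ s, g i) % q := by
  rw [Finset.sum_int_mod, Finset.sum_int_mod s q g, sum_congr rfl h]

lemma cm_fiber (q r : ℕ) {ι κ : Type} [Fintype ι] [Fintype κ] [DecidableEq κ] (v : ι → ℤ) (v' : κ → ℤ)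
    (ρ : ι → κ) (h : ∀ i, v i % (q : ℤ) = v' (ρ i) % (q : ℤ)) (b : ℕ)
    (hb : ∀ a, #(univ.filter fun i => ρ i = a) ≤ b) : cm q r v ≤ b ^ (2 * r) * cm q r v' := by
  classical
  unfold cm
  have h1 := card_le_mul_card_image (f := fun z : (Fin r → ι) × (Fin r → ι) => (fun j => ρ (z.1 j), fun j => ρ (z.2 j)))
    (univ.filter fun z : (Fin r → ι) × (Fin r → ι) =>
      (∑ j, v (z.1 j)) % (q : ℤ) = (∑ j, v (z.2 j)) % (q : ℤ)) (b ^ (2 * r)) (by
    intro a _
    have hsub : (filter (fun z : (Fin r → ι) × (Fin r → ι) => (fun j => ρ (z.1 j), fun j => ρ (z.2 j)) = a)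
        (univ.filter fun z : (Fin r → ι) × (Fin r → ι) =>
      (∑ j, v (z.1 j)) % (q : ℤ) = (∑ j, v (z.2 j)) % (q : ℤ))) ⊆
        (Fintype.piFinset fun j => univ.filter fun i => ρ i = a.1 j) ×ˢ
          (Fintype.piFinset fun j => univ.filter fun i => ρ i = a.2 j) := by
      intro z hz
      rw [mem_filter] at hz
      have h2 := hz.2
      rw [mem_product, Fintype.mem_piFinset, Fintype.mem_piFinset]
      constructor
      · intro j
        rw [mem_filter]
        exact ⟨mem_univ _, by rw [← h2]⟩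
      · intro j
        rw [mem_filter]
        exact ⟨mem_univ _, by rw [← h2]⟩
    refine (card_le_card hsub).trans ?_
    rw [card_product, Fintype.card_piFinset, Fintype.card_piFinset, two_mul, pow_add]
    apply Nat.mul_le_mul
    · calc ∏ j : Fin r, #(univ.filter fun i => ρ i = a.1 j) ≤ ∏ _j : Fin r, b := prod_le_prod' fun j _ => hb _
        _ = b ^ r := by simp
    · calc ∏ j : Fin r, #(univ.filter fun i => ρ i = a.2 j) ≤ ∏ _j : Fin r, b := prod_le_prod' fun j _ => hb _
        _ = b ^ r := by simp)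
  refine h1.trans (Nat.mul_le_mul_left _ (card_le_card ?_))
  intro a ha
  rw [mem_image] at ha
  obtain ⟨z, hz, rfl⟩ := ha
  rw [mem_filter] at hz ⊢
  refine ⟨mem_univ _, ?_⟩
  simp only
  rw [← sum_emod _ _ _ _ fun j _ => h (z.1 j), ← sum_emod _ _ _ _ fun j _ => h (z.2 j)]
  exact hz.2

/-- congruent points have congruent values -/
lemma eval_cong {n : ℕ} (F : MvPolynomial (Fin n) ℤ) (q : ℕ) (a b : Fin n → ℤ) (h : ∀ i, a i % (q : ℤ) = b i % (q : ℤ)) :
    MvPolynomial.eval a F % (q : ℤ) = MvPolynomial.eval b F % (q : ℤ) := by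
  have h1 : ∀ c : Fin n → ℤ, ((MvPolynomial.eval c F : ℤ) : ZMod q) =
      MvPolynomial.eval₂ (Int.castRingHom (ZMod q)) (fun i => (c i : ZMod q)) F := by
    intro c
    have h2 := MvPolynomial.eval₂_comp_left (Int.castRingHom (ZMod q)) (RingHom.id ℤ) c F
    exact h2
  have h2 : (fun i => (a i : ZMod q)) = fun i => (b i : ZMod q) := by
    funext i
    exact (ZMod.intCast_eq_intCast_iff _ _ _).2 (h i)
  have h3 : ((MvPolynomial.eval a F : ℤ) : ZMod q) = ((MvPolynomial.eval b F : ℤ) : ZMod q) := by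
    rw [h1, h1, h2]
  exact (ZMod.intCast_eq_intCast_iff _ _ _).1 h3

/-- the real polynomial -/
noncomputable def toR {n : ℕ} (F : MvPolynomial (Fin n) ℤ) : MvPolynomial (Fin n) ℝ :=
  MvPolynomial.map (Int.castRingHom ℝ) F

lemma toR_eval {n : ℕ} (F : MvPolynomial (Fin n) ℤ) (c : Fin n → ℤ) :
    MvPolynomial.eval (fun i => (c i : ℝ)) (toR F) = ((MvPolynomial.eval c F : ℤ) : ℝ) := by
  unfold toR
  rw [MvPolynomial.eval_map]
  exact (MvPolynomial.eval₂_comp_left (Int.castRingHom ℝ) (RingHom.id ℤ) c F).symm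

lemma toR_degree {n : ℕ} (F : MvPolynomial (Fin n) ℤ) : (toR F).totalDegree = F.totalDegree := by
  unfold toR MvPolynomial.totalDegree
  rw [MvPolynomial.support_map_of_injective _ Int.cast_injective]

section

variable {n : ℕ} (hn : 1 ≤ n) (P : Set ℕ) (G : ℕ → ℝ) (hG : Reg G)

open Classical in
/-- the boxes -/
noncomputable def bp (n : ℕ) (P : Set ℕ) (Y : ℕ) : Finset (Fin n → ℕ) :=
  Fintype.piFinset fun _ => (range Y).filter fun h => h ∈ P

/-- the height -/
def hp (n : ℕ) (c : Fin n → ℕ) : ℕ := univ.sup c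

include hn in
lemma hp_lt {c : Fin n → ℕ} {Y : ℕ} : hp n c < Y ↔ ∀ i, c i < Y := by
  unfold hp
  rcases Nat.eq_zero_or_pos Y with hY | hY
  · rw [hY]
    simp only [Nat.not_lt_zero, false_iff, not_forall]
    exact ⟨⟨0, hn⟩, not_false⟩
  · rw [Finset.sup_lt_iff (by exact hY)]
    simp

lemma mem_bp {c : Fin n → ℕ} {Y : ℕ} : c ∈ bp n P Y ↔ ∀ i, c i < Y ∧ c i ∈ P := by
  unfold bp
  rw [Fintype.mem_piFinset]
  simp only [mem_filter, mem_range]

lemma mem_res {q : ℕ} (hq : 1 ≤ q) (c : Fin n → ℕ) : (fun i => (c i : ℤ) % (q : ℤ)) ∈ bz n q := by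
  rw [mem_bz]
  unfold hz
  rw [Finset.sup_lt_iff (by exact hq)]
  intro i _
  change ((c i : ℤ) % (q : ℤ)).natAbs < q
  have h6 := Int.emod_nonneg (c i : ℤ) (by omega : (q : ℤ) ≠ 0)
  have h7 := Int.emod_lt_of_pos (c i : ℤ) (by omega : (0 : ℤ) < q)
  omega

/-- the exhaustion of `Pⁿ` by boxes -/
noncomputable def BP : Bxs (Fin n → ℕ) where
  ht := hp n
  bx := bp n P
  dom := {c | ∀ i, c i ∈ P}
  mem := fun c Y => by
    rw [mem_bp, hp_lt hn]
    constructor
    · intro h
      exact ⟨fun i => (h i).2, fun i => (h i).1⟩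
    · rintro ⟨h1, h2⟩ i
      exact ⟨h2 i, h1 i⟩
  A := fun Y => G Y ^ n
  A0 := fun Y => pow_nonneg (hG.nonneg Y) n
  L := (hG.sum.choose + 1) ^ n
  L0 := by
    have := hG.sum.choose_spec.1
    positivity
  sum := by
    intro Y hY
    have h1 := hG.sum.choose_spec.1
    have h2 := hG.sum.choose_spec.2 Y hY
    obtain ⟨m, rfl⟩ : ∃ m, n = m + 1 := ⟨n - 1, by omega⟩
    have h3 : ∀ (s : Finset ℕ) (f : ℕ → ℝ), (∀ i, 0 ≤ f i) → ∑ i ∈ s, f i ^ (m + 1) ≤ (∑ i ∈ s, f i) ^ (m + 1) := by
      intro s f hf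
      have hS : 0 ≤ ∑ i ∈ s, f i := sum_nonneg fun i _ => hf i
      calc ∑ i ∈ s, f i ^ (m + 1) ≤ ∑ i ∈ s, f i * (∑ i ∈ s, f i) ^ m := by
            apply sum_le_sum
            intro i hi
            rw [pow_succ, mul_comm]
            apply mul_le_mul_of_nonneg_left _ (hf i)
            exact pow_le_pow_left₀ (hf i) (single_le_sum (f := f) (fun j _ => hf j) hi) m
        _ = (∑ i ∈ s, f i) ^ (m + 1) := by rw [← sum_mul, pow_succ, mul_comm]
    refine (h3 _ _ fun i => hG.nonneg _).trans ?_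
    rw [← mul_pow]
    apply pow_le_pow_left₀ (sum_nonneg fun i _ => hG.nonneg _)
    refine h2.trans ?_
    apply mul_le_mul_of_nonneg_right _ (hG.nonneg _)
    linarith

/-- **Polynomials at the points of `Pⁿ` have bounded moments.** -/
theorem mom_sieve {K₀ : ℝ} {e₀ : ℕ} (hK₀ : 0 ≤ K₀) (hP : BT P G K₀ e₀) (F : MvPolynomial (Fin n) ℤ)
    (hF : 1 ≤ F.totalDegree) : ∃ (N : ℕ → ℕ) (r e : ℕ) (K : ℝ),
      Mom (BP hn P G hG) (fun c => MvPolynomial.eval (fun i => (c i : ℤ)) F) N r e K := by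
  classical
  obtain ⟨N, r, K, hM, hYN⟩ := mom_poly hn (toR F) (by rw [toR_degree]; exact hF)
    (fun c => MvPolynomial.eval c F) 0 (fun c => by rw [toR_eval]; simp)
  have hcount : ∀ Y q : ℕ, 1 ≤ q → q ≤ N Y → (q : ℝ) * cm q r (fun c : {c // c ∈ bz n Y} => MvPolynomial.eval c.1 F) ≤
      K * ((2 * Y : ℝ) ^ n) ^ (2 * r) := by
    intro Y q hq hqN
    haveI : NeZero q := ⟨by omega⟩
    have h1 := hM.mom Y q hqN
    have h2 := moment_eq (q := q) (fun c : {c // c ∈ bz n Y} => MvPolynomial.eval c.1 F) r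
    have h3 : ∑ t : ZMod q, ‖Sm (fun c : {c // c ∈ (BZ n hn).bx Y} => MvPolynomial.eval c.1 F) t‖ ^ (2 * r) =
        (q : ℝ) * cm q r (fun c : {c // c ∈ bz n Y} => MvPolynomial.eval c.1 F) := h2
    rw [h3, pow_zero, mul_one] at h1
    refine h1.trans ?_
    have hK := hM.hK
    apply mul_le_mul_of_nonneg_left _ (by linarith)
    apply pow_le_pow_left₀ ((BZ n hn).A0 Y)
    have h4 := card_bz_le n Y
    have h5 : (#(bz n Y) : ℝ) ≤ (2 * Y : ℝ) ^ n := by exact_mod_cast h4
    exact h5
  have hGn := hG.nonneg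
  refine ⟨N, r, e₀ * (n * (2 * r)), K * ((2 * K₀) ^ n) ^ (2 * r) + 1, hM.hr, ?_, ?_, hM.tends, ?_⟩
  · have hK := hM.hK
    have : 0 ≤ K * ((2 * K₀) ^ n) ^ (2 * r) := by positivity
    linarith
  · intro Y c hc
    have hc' : hp n c < Y := hc
    rw [hp_lt hn] at hc'
    apply hM.lt Y (fun i => (c i : ℤ))
    have hY : 0 < Y := by
      have := hc' ⟨0, hn⟩
      omega
    change hz n (fun i => (c i : ℤ)) < Y
    unfold hz
    rw [Finset.sup_lt_iff (by exact hY)]
    intro i _
    simpa using hc' i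
  · intro Y q _ hqN
    change ∑ t : ZMod q, ‖Sm (fun c : {c // c ∈ bp n P Y} => MvPolynomial.eval (fun i => (c.1 i : ℤ)) F) t‖ ^ (2 * r) ≤
      (K * ((2 * K₀) ^ n) ^ (2 * r) + 1) * (1 + Real.log q) ^ (e₀ * (n * (2 * r))) * (G Y ^ n) ^ (2 * r)
    have hq1 : 1 ≤ q := Nat.one_le_iff_ne_zero.2 (NeZero.ne q)
    have hqR : (1 : ℝ) ≤ q := by exact_mod_cast hq1
    have hlogq : 0 ≤ Real.log q := Real.log_nonneg hqR
    have hmain : ∑ t : ZMod q, ‖Sm (fun c : {c // c ∈ bp n P Y} => MvPolynomial.eval (fun i => (c.1 i : ℤ)) F) t‖ ^ (2 * r) =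
        (q : ℝ) * cm q r (fun c : {c // c ∈ bp n P Y} => MvPolynomial.eval (fun i => (c.1 i : ℤ)) F) := moment_eq _ _
    rw [hmain]
    have hK := hM.hK
    have hK0 : 0 ≤ K := by linarith
    -- the common bound
    have hgoal : ∀ B : ℝ, 0 ≤ B → B ≤ K₀ * (1 + Real.log q) ^ e₀ * G Y →
        K * ((2 * B) ^ n) ^ (2 * r) ≤
        (K * ((2 * K₀) ^ n) ^ (2 * r) + 1) * (1 + Real.log q) ^ (e₀ * (n * (2 * r))) * (G Y ^ n) ^ (2 * r) := by
      intro B hB0 hB
      have h1 : ((2 * B) ^ n) ^ (2 * r) ≤ ((2 * (K₀ * (1 + Real.log q) ^ e₀ * G Y)) ^ n) ^ (2 * r) := by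
        apply pow_le_pow_left₀ (by positivity)
        apply pow_le_pow_left₀ (by positivity)
        linarith
      have h2 : ((2 * (K₀ * (1 + Real.log q) ^ e₀ * G Y)) ^ n) ^ (2 * r) =
          ((2 * K₀) ^ n) ^ (2 * r) * (1 + Real.log q) ^ (e₀ * (n * (2 * r))) * (G Y ^ n) ^ (2 * r) := by
        rw [pow_mul (1 + Real.log q), pow_mul ((1 + Real.log q) ^ e₀), ← mul_pow, ← mul_pow, ← mul_pow, ← mul_pow]
        congr 2
        ring
      have h3 : 0 ≤ (1 + Real.log q) ^ (e₀ * (n * (2 * r))) * (G Y ^ n) ^ (2 * r) := by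
        have := hGn Y
        positivity
      calc K * ((2 * B) ^ n) ^ (2 * r) ≤ K * (((2 * K₀) ^ n) ^ (2 * r) * (1 + Real.log q) ^ (e₀ * (n * (2 * r))) *
            (G Y ^ n) ^ (2 * r)) := by
            rw [← h2]
            exact mul_le_mul_of_nonneg_left h1 hK0
        _ = (K * ((2 * K₀) ^ n) ^ (2 * r)) * ((1 + Real.log q) ^ (e₀ * (n * (2 * r))) * (G Y ^ n) ^ (2 * r)) := by ring
        _ ≤ (K * ((2 * K₀) ^ n) ^ (2 * r) + 1) * ((1 + Real.log q) ^ (e₀ * (n * (2 * r))) * (G Y ^ n) ^ (2 * r)) := by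
            apply mul_le_mul_of_nonneg_right _ h3
            linarith
        _ = _ := by ring
    rcases (bp n P Y).eq_empty_or_nonempty with hemp | ⟨c₀, hc₀⟩
    · have h1 : cm q r (fun c : {c // c ∈ bp n P Y} => MvPolynomial.eval (fun i => (c.1 i : ℤ)) F) = 0 := by
        unfold cm
        rw [card_eq_zero, filter_eq_empty_iff]
        intro z _ _
        have hr := hM.hr
        have h3 : ∀ x, x ∉ bp n P Y := by rw [hemp]; exact fun x => notMem_empty x
        exact h3 _ (z.1 ⟨0, by omega⟩).2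
      rw [h1, Nat.cast_zero, mul_zero]
      have := hGn Y
      positivity
    · rw [mem_bp] at hc₀
      obtain ⟨h₀, hh₀, hh₀P⟩ : ∃ h₀, h₀ < Y ∧ h₀ ∈ P := ⟨c₀ ⟨0, hn⟩, hc₀ _⟩
      have hY1 : 1 ≤ Y := by omega
      have hYR : (1 : ℝ) ≤ Y := by exact_mod_cast hY1
      rcases Nat.lt_or_ge Y q with hYq | hqY
      · -- large moduli
        have h1 := hP Y Y h₀ hY1 le_rfl
        rw [card_setOf Y (fun h => h ∈ P ∧ h % Y = h₀)] at h1
        have h2 : (1 : ℝ) ≤ (((range Y).filter fun h => h ∈ P ∧ h % Y = h₀).card : ℝ) := by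
          have : 0 < ((range Y).filter fun h => h ∈ P ∧ h % Y = h₀).card := by
            apply card_pos.2
            exact ⟨h₀, mem_filter.2 ⟨mem_range.2 hh₀, hh₀P, Nat.mod_eq_of_lt hh₀⟩⟩
          exact_mod_cast this
        have h3 : (Y : ℝ) ≤ K₀ * (1 + Real.log Y) ^ e₀ * G Y := by
          have h4 := h2.trans h1
          rw [le_div_iff₀ (by linarith)] at h4
          linarith
        have h4 : K₀ * (1 + Real.log Y) ^ e₀ * G Y ≤ K₀ * (1 + Real.log q) ^ e₀ * G Y := by
          apply mul_le_mul_of_nonneg_right _ (hGn Y)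
          apply mul_le_mul_of_nonneg_left _ hK₀
          apply pow_le_pow_left₀
          · have := Real.log_nonneg hYR
            linarith
          · have : Real.log Y ≤ Real.log q := Real.log_le_log (by linarith) (by exact_mod_cast hYq.le)
            linarith
        have h5 : cm q r (fun c : {c // c ∈ bp n P Y} => MvPolynomial.eval (fun i => (c.1 i : ℤ)) F) ≤
            cm q r (fun c : {c // c ∈ bz n Y} => MvPolynomial.eval c.1 F) := by
          apply cm_inj q r _ _ (fun c : {c // c ∈ bp n P Y} => (⟨fun i => (c.1 i : ℤ), by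
            rw [mem_bz]
            unfold hz
            rw [Finset.sup_lt_iff (by exact hY1)]
            intro i _
            have := ((mem_bp P).1 c.2 i).1
            simpa using this⟩ : {c // c ∈ bz n Y}))
          · intro c c' hcc
            apply Subtype.ext
            funext i
            have h6 := congrArg (fun z : {c // c ∈ bz n Y} => z.1 i) hcc
            simp only at h6
            exact_mod_cast h6
          · intro c
            rfl
        have h6 : (cm q r (fun c : {c // c ∈ bp n P Y} => MvPolynomial.eval (fun i => (c.1 i : ℤ)) F) : ℝ) ≤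
            cm q r (fun c : {c // c ∈ bz n Y} => MvPolynomial.eval c.1 F) := by exact_mod_cast h5
        exact ((mul_le_mul_of_nonneg_left h6 (by linarith)).trans (hcount Y q hq1 hqN)).trans
          (hgoal Y (by linarith) (h3.trans h4))
      · -- small moduli
        obtain ⟨b, hb⟩ : ∃ b : ℕ, b = ⌊K₀ * (1 + Real.log q) ^ e₀ * G Y / q⌋₊ := ⟨_, rfl⟩
        have hb0 : 0 ≤ K₀ * (1 + Real.log q) ^ e₀ * G Y / q := by
          have := hGn Y
          positivity
        have hbR : (b : ℝ) ≤ K₀ * (1 + Real.log q) ^ e₀ * G Y / q := by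
          rw [hb]
          exact Nat.floor_le hb0
        have hclass : ∀ a : ℕ, ((range Y).filter fun h => h ∈ P ∧ h % q = a).card ≤ b := by
          intro a
          have h1 := hP Y q a hq1 hqY
          rw [card_setOf Y (fun h => h ∈ P ∧ h % q = a)] at h1
          rw [hb]
          apply Nat.le_floor
          exact h1
        have h5 := cm_fiber q r (fun c : {c // c ∈ bp n P Y} => MvPolynomial.eval (fun i => (c.1 i : ℤ)) F)
          (fun c : {c // c ∈ bz n q} => MvPolynomial.eval c.1 F)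
          (fun c => (⟨fun i => (c.1 i : ℤ) % (q : ℤ), mem_res hq1 c.1⟩ : {c // c ∈ bz n q}))
          (fun c => eval_cong F q _ _ fun i => by simp) (b ^ n) (by
            intro a
            have h6 : #(univ.filter fun c : {c // c ∈ bp n P Y} =>
                (⟨fun i => (c.1 i : ℤ) % (q : ℤ), mem_res hq1 c.1⟩ : {c // c ∈ bz n q}) = a) ≤
                #(Fintype.piFinset fun i : Fin n => (range Y).filter fun h => h ∈ P ∧ h % q = (a.1 i).toNat) := by
              apply card_le_card_of_injOn (fun c => c.1)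
              · intro c hc
                rw [mem_coe, mem_filter] at hc
                rw [mem_coe, Fintype.mem_piFinset]
                intro i
                have h7 := (mem_bp P).1 c.2 i
                rw [mem_filter, mem_range]
                refine ⟨h7.1, h7.2, ?_⟩
                have h8 := congrArg (fun z : {c // c ∈ bz n q} => z.1 i) hc.2
                simp only at h8
                rw [← h8, ← Int.natCast_mod, Int.toNat_natCast]
              · intro c _ c' _ hcc
                exact Subtype.ext hcc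
            refine h6.trans ?_
            rw [Fintype.card_piFinset]
            calc ∏ i : Fin n, #((range Y).filter fun h => h ∈ P ∧ h % q = (a.1 i).toNat) ≤ ∏ _i : Fin n, b :=
                  prod_le_prod' fun i _ => hclass _
              _ = b ^ n := by simp)
        have h6 : (cm q r (fun c : {c // c ∈ bp n P Y} => MvPolynomial.eval (fun i => (c.1 i : ℤ)) F) : ℝ) ≤
            (((b : ℝ) ^ n) ^ (2 * r)) * cm q r (fun c : {c // c ∈ bz n q} => MvPolynomial.eval c.1 F) := by
          exact_mod_cast h5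
        have h7 := hcount q q hq1 (hYN q)
        calc (q : ℝ) * cm q r (fun c : {c // c ∈ bp n P Y} => MvPolynomial.eval (fun i => (c.1 i : ℤ)) F) ≤
              q * ((((b : ℝ) ^ n) ^ (2 * r)) * cm q r (fun c : {c // c ∈ bz n q} => MvPolynomial.eval c.1 F)) :=
              mul_le_mul_of_nonneg_left h6 (by linarith)
          _ = (((b : ℝ) ^ n) ^ (2 * r)) * (q * cm q r (fun c : {c // c ∈ bz n q} => MvPolynomial.eval c.1 F)) := by ring
          _ ≤ (((b : ℝ) ^ n) ^ (2 * r)) * (K * ((2 * q : ℝ) ^ n) ^ (2 * r)) := by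
              apply mul_le_mul_of_nonneg_left h7 (by positivity)
          _ = K * ((2 * (b * q)) ^ n) ^ (2 * r) := by
              rw [mul_left_comm, ← mul_pow, ← mul_pow]
              congr 3
              ring
          _ ≤ _ := by
              apply hgoal (b * q) (by positivity)
              rw [le_div_iff₀ (by linarith)] at hbR
              exact hbR

end

end Pool.Agent.Helper85.UV
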