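import Pool.Agent.Helper85.UV.Sieve
import Pool.Agent.TH463.UR.Primes

set_option autoImplicit false

/-! Universal sets of tuples of elements of a set of Brun–Titchmarsh type, for polynomial multipliers. -/

namespace Pool.Agent.Helper85.UV
open Finset Filter Topology MeasureTheory
open scoped ENNReal
open Pool.Agent.H769R3 (X)
open Pool.Agent.TH463.UR (BT Reg)

/-- The set `C` of integer points is universal for polynomial multipliers: for every `p ≥ 2`, every
atomless probability measure `μ` on the circle which is invariant under `x ↦ p x` and all integer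
polynomials `F₁, …, F_k` in `n` variables without nontrivial constant integer combination: (1) for
every probability measure `ν ≪ μ`, the images of `ν` under `x ↦ (F₁(c) x, …, F_k(c) x)` converge weakly
to Haar measure as `c → ∞` in `C`; and for every infinite `S ⊆ C` (2) for `μ`-almost every `x` the
points `(F₁(c) x, …, F_k(c) x)`, `c ∈ S`, are dense in the torus; (3) every probability measure `ν`
invariant under `x ↦ F_j(c) x` for all `c ∈ S`, for one `j`, is at least a positive multiple of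
Lebesgue measure unless it is singular with respect to `μ`, and is Lebesgue measure if `ν ≪ μ`. -/
def Universal {n : ℕ} (C : Set (Fin n → ℕ)) : Prop :=
  ∀ p : ℕ, 2 ≤ p → ∀ μ : Measure UnitAddCircle, IsProbabilityMeasure μ →
    MeasurePreserving (fun x : UnitAddCircle => p • x) μ μ → (∀ x, μ {x} = 0) →
    ∀ (k : ℕ) (F : Fin k → MvPolynomial (Fin n) ℤ),
      (∀ (m : Fin k → ℤ) (z : ℤ), m ≠ 0 → ∑ j, m j • F j ≠ MvPolynomial.C z) →
      (∀ ν : Measure UnitAddCircle, IsProbabilityMeasure ν → ν ≪ μ →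
        ∀ f : C(Fin k → UnitAddCircle, ℝ),
        Tendsto (fun c : Fin n → ℕ => ∫ x, f (fun j => MvPolynomial.eval (fun i => (c i : ℤ)) (F j) • x) ∂ν)
          (cofinite ⊓ 𝓟 C) (𝓝 (∫ y, f y))) ∧
      ∀ S : Set (Fin n → ℕ), S ⊆ C → S.Infinite →
        (∀ᵐ x ∂μ, Dense {y : Fin k → UnitAddCircle | ∃ c ∈ S,
          y = fun j => MvPolynomial.eval (fun i => (c i : ℤ)) (F j) • x}) ∧
        ∀ (j : Fin k) (ν : Measure UnitAddCircle), IsProbabilityMeasure ν →
          (∀ c ∈ S, MeasurePreserving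
            (fun x : UnitAddCircle => MvPolynomial.eval (fun i => (c i : ℤ)) (F j) • x) ν ν) →
          (¬ ν ⟂ₘ μ → ∃ κ : ℝ≥0∞, 0 < κ ∧ κ • (volume : Measure UnitAddCircle) ≤ ν) ∧
          (ν ≪ μ → ν = volume)

/-- from mixing to the universal property -/
lemma universal_of_mixing {n : ℕ} {C : Set (Fin n → ℕ)}
    (h : ∀ p : ℕ, 2 ≤ p → ∀ μ : Measure X, IsProbabilityMeasure μ →
      MeasurePreserving (fun x : X => p • x) μ μ → (∀ x, μ {x} = 0) →
      ∀ (k : ℕ) (F : Fin k → MvPolynomial (Fin n) ℤ),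
        (∀ (m : Fin k → ℤ) (z : ℤ), m ≠ 0 → ∑ j, m j • F j ≠ MvPolynomial.C z) →
        Mixing (cofinite ⊓ 𝓟 C) (fun j c => MvPolynomial.eval (fun i => (c i : ℤ)) (F j)) μ) : Universal C := by
  intro p hp μ hμp hμ hat k F hind
  have h3 := h p hp μ hμp hμ hat k F hind
  refine ⟨h3, fun S hSC hS => ?_⟩
  have hnb : (cofinite ⊓ 𝓟 S : Filter (Fin n → ℕ)).NeBot := by
    rw [← Filter.frequently_mem_iff_neBot, Filter.frequently_cofinite_iff_infinite]
    exact hS
  have hnb' : ((cofinite ⊓ 𝓟 C) ⊓ 𝓟 S : Filter (Fin n → ℕ)).NeBot := by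
    rw [inf_assoc, inf_principal, Set.inter_eq_self_of_subset_right hSC]
    exact hnb
  refine ⟨ae_dense h3 hnb', fun j ν hν hinv => ?_⟩
  have h4 := h p hp μ hμp hμ hat 1 (fun _ => F j) (fun m z hm hcon => by
    refine hind (Pi.single j (m 0)) z ?_ ?_
    · intro h0
      apply hm
      funext i
      rw [Fin.eq_zero i]
      have h5 := congrFun h0 j
      rw [Pi.single_eq_same] at h5
      exact h5
    · rw [← hcon]
      simp only [Finset.univ_unique, Fin.default_eq_zero, Fin.isValue, Finset.sum_singleton]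
      rw [Finset.sum_eq_single j]
      · rw [Pi.single_eq_same]
      · intro i _ hij
        rw [Pi.single_eq_of_ne hij, zero_smul]
      · intro h
        exact absurd (Finset.mem_univ j) h)
  have h5 := mix1_of_mixing h4
  exact ⟨dominate h5 hnb' hinv, fun hac => eq_volume h5 hnb' hinv hac⟩

lemma comap_hp {n : ℕ} (hn : 1 ≤ n) : (cofinite : Filter (Fin n → ℕ)) ≤ comap (hp n) atTop := by
  classical
  rw [← tendsto_iff_comap, tendsto_atTop]
  intro b
  have : {c : Fin n → ℕ | ¬ b ≤ hp n c} ⊆ ((Fintype.piFinset fun _ : Fin n => range b : Finset (Fin n → ℕ)) :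
      Set (Fin n → ℕ)) := by
    intro c hc
    rw [Set.mem_ofPred_eq, not_le, hp_lt hn] at hc
    rw [mem_coe, Fintype.mem_piFinset]
    exact fun i => mem_range.2 (hc i)
  exact (Finset.finite_toSet _).subset this

/-- **Universal sets of tuples of elements of a set of Brun–Titchmarsh type.** -/
theorem sieve_universal (n : ℕ) {P : Set ℕ} {G : ℕ → ℝ} {K : ℝ} {e : ℕ} (hG : Reg G) (hK : 0 ≤ K)
    (hP : BT P G K e) {η : ℝ} (hη : 0 < η) : ∃ C : Set (Fin n → ℕ), (∀ c ∈ C, ∀ i, c i ∈ P) ∧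
    (∀ N : ℕ, (Nat.card {c : Fin n → ℕ | (∀ i, c i < N ∧ c i ∈ P) ∧ c ∉ C} : ℝ) ≤ η * G N ^ n) ∧
    Universal C := by
  classical
  rcases Nat.eq_zero_or_pos n with hn0 | hn
  · subst hn0
    refine ⟨Set.univ, fun c _ i => i.elim0, fun N => ?_, universal_of_mixing ?_⟩
    · have : {c : Fin 0 → ℕ | (∀ i, c i < N ∧ c i ∈ P) ∧ c ∉ Set.univ} = ∅ := by
        rw [Set.eq_empty_iff_forall_notMem]
        rintro c ⟨_, h⟩
        exact h (Set.mem_univ _)
      rw [this]
      simp only [Nat.card_eq_fintype_card, Fintype.card_of_isEmpty, Nat.cast_zero]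
      positivity
    · intro p hp μ hμp hμ hat k F hind ν _ _ f
      rw [Filter.cofinite_eq_bot, bot_inf_eq]
      exact tendsto_bot
  haveI : Countable (MvPolynomial (Fin n) ℤ) := by
    have hinj : Function.Injective (fun F : MvPolynomial (Fin n) ℤ =>
        (Finsupp.onFinset F.support (fun m => F.coeff m) (fun m hm => MvPolynomial.mem_support_iff.2 hm) :
          (Fin n →₀ ℕ) →₀ ℤ)) := by
      intro F F' hF
      refine MvPolynomial.ext _ _ fun m => ?_
      exact DFunLike.congr_fun hF m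
    exact hinj.countable
  letI : Encodable {F : MvPolynomial (Fin n) ℤ // 1 ≤ F.totalDegree} := Encodable.ofCountable _
  have hex : ∀ F : {F : MvPolynomial (Fin n) ℤ // 1 ≤ F.totalDegree}, ∃ (N : ℕ → ℕ) (r e : ℕ) (K : ℝ),
      Mom (BP hn P G hG) (fun c => MvPolynomial.eval (fun i => (c i : ℤ)) F.1) N r e K :=
    fun F => mom_sieve hn P G hG hK hP F.1 F.2
  choose N r e' K' hM using hex
  obtain ⟨C, h1, h2⟩ := universal hM hη
  refine ⟨{c | (∀ i, c i ∈ P) ∧ c ∈ C}, fun c hc => hc.1, fun N => ?_, universal_of_mixing ?_⟩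
  · have hset : {c : Fin n → ℕ | (∀ i, c i < N ∧ c i ∈ P) ∧ c ∉ {c : Fin n → ℕ | (∀ i, c i ∈ P) ∧ c ∈ C}} =
        {c : Fin n → ℕ | c ∈ bp n P N ∧ c ∉ C} := by
      ext c
      constructor
      · rintro ⟨h3, h4⟩
        exact ⟨(mem_bp P).2 h3, fun h5 => h4 ⟨fun i => (h3 i).2, h5⟩⟩
      · rintro ⟨h3, h4⟩
        exact ⟨(mem_bp P).1 h3, fun h5 => h4 h5.2⟩
    rw [hset]
    exact h1 N
  · intro p hp μ hμp hμ hat k F hind ν hν hac f
    have hl : (cofinite ⊓ 𝓟 {c | (∀ i, c i ∈ P) ∧ c ∈ C} : Filter (Fin n → ℕ)) ≤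
        comap (Pool.Agent.Helper85.UV.hp n) atTop ⊓ 𝓟 C :=
      inf_le_inf (comap_hp hn) (principal_mono.2 fun c hc => hc.2)
    refine (joint (μ := μ) (l := comap (Pool.Agent.Helper85.UV.hp n) atTop ⊓ 𝓟 C)
      (fun j c => MvPolynomial.eval (fun i => (c i : ℤ)) (F j)) ?_ hac f).mono_left hl
    intro m hm t
    have h4 : 1 ≤ (∑ j, m j • F j + MvPolynomial.C t).totalDegree := by
      by_contra hcon
      have h5 : (∑ j, m j • F j + MvPolynomial.C t).totalDegree = 0 := by omega
      rw [MvPolynomial.totalDegree_eq_zero_iff_eq_C] at h5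
      refine hind m (MvPolynomial.coeff 0 (∑ j, m j • F j + MvPolynomial.C t) - t) hm ?_
      rw [map_sub, ← h5, add_sub_cancel_right]
    have h5 := h2 p hp μ hμp hμ hat ⟨_, h4⟩
    refine h5.congr fun c => ?_
    congr 1
    funext x
    congr 2
    simp only [map_add, map_sum, MvPolynomial.eval_C, map_zsmul, smul_eq_mul]

/-- **Universal sets of tuples of primes.** -/
theorem primes_universal (n : ℕ) {η : ℝ} (hη : 0 < η) : ∃ C : Set (Fin n → ℕ), (∀ c ∈ C, ∀ i, (c i).Prime) ∧
    (∀ N : ℕ, (Nat.card {c : Fin n → ℕ | (∀ i, c i < N ∧ (c i).Prime) ∧ c ∉ C} : ℝ) ≤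
      η * (Nat.card {q : ℕ | q < N ∧ q.Prime} : ℝ) ^ n) ∧ Universal C := by
  obtain ⟨K, hK, hP⟩ := Pool.Agent.TH463.UR.bt_primes
  obtain ⟨C, h0, h1, h2⟩ := sieve_universal n Pool.Agent.TH463.UR.reg_GP hK hP (show 0 < η / 20 ^ n by positivity)
  refine ⟨C, fun c hc => h0 c hc, fun N => ?_, h2⟩
  rcases lt_or_ge N 3 with hN | hN
  · rcases Nat.eq_zero_or_pos n with hn0 | hn
    · subst hn0
      have h3 := h1 N
      rw [pow_zero, pow_zero, div_one] at h3
      rw [pow_zero]
      exact h3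
    · have : {c : Fin n → ℕ | (∀ i, c i < N ∧ (c i).Prime) ∧ c ∉ C} = ∅ := by
        rw [Set.eq_empty_iff_forall_notMem]
        rintro c ⟨h3, -⟩
        have h4 := h3 ⟨0, hn⟩
        have := h4.2.two_le
        omega
      rw [this]
      simp only [Nat.card_eq_fintype_card, Fintype.card_of_isEmpty, Nat.cast_zero]
      positivity
  · refine (h1 N).trans ?_
    have h3 := Pool.Agent.TH463.UR.GP_le_count hN
    have h4 := pow_le_pow_left₀ (Pool.Agent.TH463.UR.reg_GP.nonneg N) h3 n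
    calc η / 20 ^ n * Pool.Agent.TH463.UR.GP N ^ n ≤
          η / 20 ^ n * (20 * (Nat.card {q : ℕ | q < N ∧ q.Prime} : ℝ)) ^ n :=
          mul_le_mul_of_nonneg_left h4 (by positivity)
      _ = _ := by
          rw [mul_pow]
          field_simp

end Pool.Agent.Helper85.UV
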