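import Pool.Agent.R481.TraceBT
import Pool.Agent.Helper85.UV.SieveUniv

set_option autoImplicit false

/-! Universal sets of tuples and the tracial states of the group algebra of `ℤ² ⋉ ℤ[1/6]`. -/

namespace Pool.Agent.Helper85.UV
open Finset Filter Topology MeasureTheory
open scoped ComplexOrder
open Pool.Agent.W763.Tr
open Pool.Agent.TH654.FC
open Pool.Agent.TH463.UQ (finite_or_atomless)

section

variable {G : Subgroup (Equiv.Perm ℚ)} {τ : ℤ → G} {φ : G → ℂ} {S6 : G} {μ : Measure UnitAddCircle}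

/-- from the Fourier coefficients to all the coefficients of the GNS representation -/
lemma trace_mixing (D : Data G τ φ S6 μ) (hat : ∀ x, μ {x} = 0) {ι : Type*} {l : Filter ι} {N : ι → ℤ}
    (hC : ∀ m t : ℤ, m ≠ 0 → Tendsto (fun c => ∫ x, (fourier (m * N c + t) x : ℂ) ∂μ) l (𝓝 0))
    (x y g : G) (hg1 : g ≠ 1) (hg : ∃ r : ℚ, ∀ z : ℚ, (g : Equiv.Perm ℚ) z = z + r) :
    Tendsto (fun c => φ (x * g ^ N c * y)) l (𝓝 0) := by
  have := D.prob
  obtain ⟨r, hg⟩ := hg
  have hpow' : ∀ n : ℕ, ∀ z, ((g ^ n : G) : Equiv.Perm ℚ) z = z + n * r := by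
    intro n
    induction n with
    | zero => intro x; simp
    | succ n ih =>
      intro x
      rw [pow_succ, Subgroup.coe_mul, Equiv.Perm.mul_apply, hg, ih]
      push_cast; ring
  have hpow : ∀ c : ℤ, ∀ z, ((g ^ c : G) : Equiv.Perm ℚ) z = z + c * r := by
    intro c z
    obtain ⟨n, rfl | rfl⟩ := c.eq_nat_or_neg
    · rw [zpow_natCast, hpow']
      push_cast; ring
    · rw [zpow_neg, zpow_natCast, Subgroup.coe_inv, Equiv.Perm.inv_eq_iff_eq, hpow']
      push_cast; ring
  have hcyc : ∀ c : ι, φ (x * g ^ N c * y) = φ (g ^ N c * (y * x)) := by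
    intro c
    have := D.hcl (x * g ^ N c * y) x⁻¹
    rw [← this]
    congr 1
    group
  simp_rw [hcyc]
  by_cases hw : ∃ s : ℚ, ∀ z : ℚ, ((y * x : G) : Equiv.Perm ℚ) z = z + s
  · obtain ⟨s, hw⟩ := hw
    obtain ⟨m, k, hr⟩ := D.six hg
    obtain ⟨n, j, hs⟩ := D.six hw
    have hm : m ≠ 0 := by
      intro hm
      apply hg1
      apply Subtype.ext
      apply Equiv.ext
      intro z
      rw [hg, hr, hm]
      simp
    have hM : m * 6 ^ j ≠ 0 := mul_ne_zero hm (by positivity)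
    have hval : ∀ c : ι, φ (g ^ N c * (y * x)) =
        ∫ z, (fourier (m * 6 ^ j * N c + n * 6 ^ k) z : ℂ) ∂μ := by
      intro c
      rw [D.hμ]
      refine phi_trans D.hτ D.hcl S6 D.hS6 _ _ (k + j) fun z => ?_
      rw [Subgroup.coe_mul, Equiv.Perm.mul_apply, hpow, hw, hr, hs]
      have h6 : (6 : ℚ) ^ k ≠ 0 := by positivity
      have h6' : (6 : ℚ) ^ j ≠ 0 := by positivity
      push_cast
      rw [pow_add]
      field_simp
      ring
    simp_rw [hval]
    exact hC _ _ hM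
  · refine tendsto_const_nhds.congr fun c => ?_
    refine (Pool.Agent.R481.TraceBT.vanish D hat _ ?_).symm
    rintro ⟨s, hs⟩
    apply hw
    refine ⟨s - N c * r, fun z => ?_⟩
    have h1 := hs z
    rw [Subgroup.coe_mul, Equiv.Perm.mul_apply, hpow] at h1
    linarith

/-- from convergence along a filter to the regular trace -/
lemma trace_regular (D : Data G τ φ S6 μ) {ι : Type*} {l : Filter ι} [l.NeBot] {N : ι → ℤ}
    (h : ∀ x y g : G, g ≠ 1 → (∃ r : ℚ, ∀ z : ℚ, (g : Equiv.Perm ℚ) z = z + r) →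
      Tendsto (fun c => φ (x * g ^ N c * y)) l (𝓝 0))
    (hinv : ∀ᶠ c in l, ∀ g : G, (∃ r : ℚ, ∀ x : ℚ, (g : Equiv.Perm ℚ) x = x + r) →
      φ (g ^ N c) = φ g) : φ = Set.indicator ({1} : Set G) (fun _ => (1 : ℂ)) := by
  have hz : ∀ g : G, g ≠ 1 → (∃ r : ℚ, ∀ x : ℚ, (g : Equiv.Perm ℚ) x = x + r) → φ g = 0 := by
    intro g hg1 hg
    have h3 := h 1 1 g hg1 hg
    simp only [one_mul, mul_one] at h3
    have h4 : Tendsto (fun c => φ (g ^ N c)) l (𝓝 (φ g)) := by
      refine (tendsto_const_nhds (x := φ g)).congr' ?_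
      filter_upwards [hinv] with c hc
      exact (hc g hg).symm
    exact tendsto_nhds_unique h4 h3
  have hz' : ∀ n : ℤ, n ≠ 0 → φ (τ n) = 0 := by
    intro n hn
    refine hz (τ n) ?_ ⟨n, D.hτ n⟩
    intro h0
    have h5 := D.hτ n 0
    rw [h0] at h5
    simp at h5
    exact hn (by exact_mod_cast h5.symm)
  funext g
  by_cases hg : g = 1
  · rw [hg, D.h1]
    simp
  · rw [eq_regular D.hτ D.h1 D.hcl D.hpd S6 D.hS6 D.hform hz' g hg]
    simp [hg]

end

/-- The set `C` of integer points is universal for the extreme tracial states `φ` of the group `G`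
generated by `x ↦ 2 x`, `x ↦ 3 x`, `x ↦ x + 1` on `ℚ`: (1) `φ` is conditionally finite-dimensional, or
for every non-constant integer polynomial `F` in `n` variables, every translation `g ≠ 1` in `G` and
all `x, y ∈ G` the values `φ (x * g ^ F(c) * y)` tend to zero as `c → ∞` in `C`; (2) if for one
non-constant `F` and infinitely many `c ∈ C` one has `φ (g ^ F(c)) = φ g` for all translations
`g ∈ G`, then `φ` is the regular trace or conditionally finite-dimensional. -/
def TraceUniversal {n : ℕ} (C : Set (Fin n → ℕ)) : Prop :=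
  ∀ (s2 s3 t : Equiv.Perm ℚ), (∀ x : ℚ, s2 x = 2 * x) → (∀ x : ℚ, s3 x = 3 * x) →
    (∀ x : ℚ, t x = x + 1) →
    ∀ (G : Subgroup (Equiv.Perm ℚ)), G = Subgroup.closure {s2, s3, t} → ∀ φ : G → ℂ,
      φ ∈ Set.extremePoints ℝ {ψ : G → ℂ | ψ 1 = 1 ∧ (∀ g h : G, ψ (h * g * h⁻¹) = ψ g) ∧
        ∀ (s : Finset G) (c : G → ℂ), 0 ≤ ∑ i ∈ s, ∑ j ∈ s, star (c j) * c i * ψ (j⁻¹ * i)} →
      (FiniteDimensional ℂ (Submodule.span ℂ {f : G → ℂ | ∃ a : G,
          (∃ r : ℚ, ∀ x : ℚ, (a : Equiv.Perm ℚ) x = x + r) ∧ f = fun x => φ (a * x)}) ∨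
        ∀ F : MvPolynomial (Fin n) ℤ, (∀ z : ℤ, F ≠ MvPolynomial.C z) → ∀ x y g : G, g ≠ 1 →
          (∃ r : ℚ, ∀ z : ℚ, (g : Equiv.Perm ℚ) z = z + r) →
          Tendsto (fun c : Fin n → ℕ => φ (x * g ^ MvPolynomial.eval (fun i => (c i : ℤ)) F * y))
            (cofinite ⊓ 𝓟 C) (𝓝 0)) ∧
      ∀ F : MvPolynomial (Fin n) ℤ, (∀ z : ℤ, F ≠ MvPolynomial.C z) →
        ∀ S : Set (Fin n → ℕ), S ⊆ C → S.Infinite →
        (∀ c ∈ S, ∀ g : G, (∃ r : ℚ, ∀ x : ℚ, (g : Equiv.Perm ℚ) x = x + r) →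
          φ (g ^ MvPolynomial.eval (fun i => (c i : ℤ)) F) = φ g) →
        φ = Set.indicator ({1} : Set G) (fun _ => (1 : ℂ)) ∨
          FiniteDimensional ℂ (Submodule.span ℂ {f : G → ℂ | ∃ a : G,
            (∃ r : ℚ, ∀ x : ℚ, (a : Equiv.Perm ℚ) x = x + r) ∧ f = fun x => φ (a * x)})

/-- Fourier coefficients from weak convergence -/
lemma coeff_of_universal {n : ℕ} {C : Set (Fin n → ℕ)} (h : Universal C) {μ : Measure UnitAddCircle}
    (hμp : IsProbabilityMeasure μ) (hμ : MeasurePreserving (fun x : UnitAddCircle => 2 • x) μ μ)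
    (hat : ∀ x, μ {x} = 0) (F : MvPolynomial (Fin n) ℤ) (hF : ∀ z : ℤ, F ≠ MvPolynomial.C z) (m t : ℤ)
    (hm : m ≠ 0) : Tendsto (fun c : Fin n → ℕ => ∫ x, (fourier (m * MvPolynomial.eval (fun i => (c i : ℤ)) F + t) x : ℂ) ∂μ)
      (cofinite ⊓ 𝓟 C) (𝓝 0) := by
  have hvol : IsProbabilityMeasure (volume : Measure UnitAddCircle) :=
    ⟨UnitAddCircle.measure_univ⟩
  have h1 := (h 2 le_rfl μ hμp hμ hat 1 (fun _ => m • F + MvPolynomial.C t) (fun m' z hm' hcon => by
    rw [Finset.univ_unique, Finset.sum_singleton, Fin.default_eq_zero, smul_add] at hcon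
    have hm0 : m' 0 ≠ 0 := by
      intro h0
      apply hm'
      funext i
      rw [Fin.eq_zero i]
      exact h0
    -- all the nonconstant coefficients of F vanish
    refine hF (MvPolynomial.coeff 0 F) (MvPolynomial.ext _ _ fun s => ?_)
    rw [MvPolynomial.coeff_C]
    split_ifs with hs
    · rw [← hs]
    · have h2 := congrArg (MvPolynomial.coeff s) hcon
      rw [MvPolynomial.coeff_add, MvPolynomial.coeff_smul, MvPolynomial.coeff_smul, MvPolynomial.coeff_smul,
        MvPolynomial.coeff_C, MvPolynomial.coeff_C, if_neg hs, if_neg hs, smul_zero, add_zero, smul_eq_mul,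
        smul_eq_mul] at h2
      rcases mul_eq_zero.1 h2 with h3 | h3
      · exact absurd h3 hm0
      · rcases mul_eq_zero.1 h3 with h4 | h4
        · exact absurd h4 hm
        · exact h4)).1 μ hμp Measure.AbsolutelyContinuous.rfl
  have hev : ∀ c : Fin n → ℕ, MvPolynomial.eval (fun i => (c i : ℤ)) (m • F + MvPolynomial.C t) =
      m * MvPolynomial.eval (fun i => (c i : ℤ)) F + t := by
    intro c
    rw [map_add, map_zsmul, MvPolynomial.eval_C, smul_eq_mul]
  have h3 : (∫ y : Fin 1 → UnitAddCircle, (fourier 1 (y 0) : ℂ)) = 0 := by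
    have h4 := (measurePreserving_eval (fun _ : Fin 1 => (volume : Measure UnitAddCircle)) 0)
    have h5 : ∫ y : Fin 1 → UnitAddCircle, (fourier 1 (y 0) : ℂ) =
        ∫ x : UnitAddCircle, (fourier 1 x : ℂ) := by
      rw [← h4.map_eq, integral_map h4.measurable.aemeasurable]
      · rfl
      · exact (fourier 1).continuous.aestronglyMeasurable
    rw [h5]
    exact Pool.Agent.H769R3.integral_fourier_volume one_ne_zero
  have hc1 : Continuous fun y : Fin 1 → UnitAddCircle => (fourier 1 (y 0) : ℂ) := by fun_prop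
  have h6 := h1 ⟨fun y => (fourier 1 (y 0) : ℂ).re, Complex.continuous_re.comp hc1⟩
  have h7 := h1 ⟨fun y => (fourier 1 (y 0) : ℂ).im, Complex.continuous_im.comp hc1⟩
  simp only [ContinuousMap.coe_mk] at h6 h7
  have hint : Integrable (fun y : Fin 1 → UnitAddCircle => (fourier 1 (y 0) : ℂ)) volume :=
    hc1.integrable_of_hasCompactSupport (HasCompactSupport.of_compactSpace _)
  have e1 : (∫ y : Fin 1 → UnitAddCircle, (fourier 1 (y 0) : ℂ).re) = 0 := by
    have h4 := integral_re hint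
    simp only [RCLike.re_to_complex] at h4
    rw [h4, h3, Complex.zero_re]
  have e2 : (∫ y : Fin 1 → UnitAddCircle, (fourier 1 (y 0) : ℂ).im) = 0 := by
    have h4 := integral_im hint
    simp only [RCLike.im_to_complex] at h4
    rw [h4, h3, Complex.zero_im]
  rw [e1] at h6
  rw [e2] at h7
  have h5 : ∀ c : Fin n → ℕ, ∫ x, (fourier (m * MvPolynomial.eval (fun i => (c i : ℤ)) F + t) x : ℂ) ∂μ =
      ((∫ x, (fourier 1 (MvPolynomial.eval (fun i => (c i : ℤ)) (m • F + MvPolynomial.C t) • x) : ℂ).re ∂μ : ℝ) : ℂ) +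
      ((∫ x, (fourier 1 (MvPolynomial.eval (fun i => (c i : ℤ)) (m • F + MvPolynomial.C t) • x) : ℂ).im ∂μ : ℝ) : ℂ) *
        Complex.I := by
    intro c
    rw [hev]
    have h8 : ∀ x : UnitAddCircle, (fourier (m * MvPolynomial.eval (fun i => (c i : ℤ)) F + t) x : ℂ) =
        fourier 1 ((m * MvPolynomial.eval (fun i => (c i : ℤ)) F + t) • x) := by
      intro x
      rw [fourier_apply, fourier_apply, one_smul]
    simp_rw [h8]
    have h9 : Integrable (fun x : UnitAddCircle =>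
        (fourier 1 ((m * MvPolynomial.eval (fun i => (c i : ℤ)) F + t) • x) : ℂ)) μ :=
      (by fun_prop : Continuous fun x : UnitAddCircle =>
        (fourier 1 ((m * MvPolynomial.eval (fun i => (c i : ℤ)) F + t) • x) : ℂ)).integrable_of_hasCompactSupport
          (HasCompactSupport.of_compactSpace _)
    have h10 := integral_re_add_im h9
    simp only [RCLike.re_to_complex, RCLike.im_to_complex] at h10
    rw [← h10]
    rfl
  simp_rw [h5]
  have h9 := ((Complex.continuous_ofReal.tendsto 0).comp h6).add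
    (((Complex.continuous_ofReal.tendsto 0).comp h7).mul_const Complex.I)
  simp only [Complex.ofReal_zero, zero_mul, add_zero] at h9
  exact h9

/-- **From measures to traces.** -/
theorem trace_of_universal {n : ℕ} {C : Set (Fin n → ℕ)} (h : Universal C) : TraceUniversal C := by
  intro s2 s3 t hs2 hs3 ht G hG φ hext
  obtain ⟨hφ1, hcl, hpd⟩ := hext.1
  obtain ⟨τ, S6, μ, D⟩ := data_of hs2 hs3 ht hG hφ1 hcl hpd
  have hprob := D.prob
  have hkey : (∀ x, μ {x} = 0) → ∀ F : MvPolynomial (Fin n) ℤ, (∀ z : ℤ, F ≠ MvPolynomial.C z) →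
      ∀ x y g : G, g ≠ 1 → (∃ r : ℚ, ∀ z : ℚ, (g : Equiv.Perm ℚ) z = z + r) →
      Tendsto (fun c : Fin n → ℕ => φ (x * g ^ MvPolynomial.eval (fun i => (c i : ℤ)) F * y))
        (cofinite ⊓ 𝓟 C) (𝓝 0) := fun hat F hF =>
    trace_mixing D hat fun m t hm => coeff_of_universal h D.prob D.mp2 hat F hF m t hm
  rcases finite_or_atomless D hext with hfd | hat
  · exact ⟨Or.inl hfd, fun _ _ _ _ _ _ => Or.inr hfd⟩
  · refine ⟨Or.inr (hkey hat), fun F hF S hS hSi hinv => Or.inl ?_⟩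
    have hne : (cofinite ⊓ 𝓟 S : Filter (Fin n → ℕ)).NeBot := by
      rw [← Filter.frequently_mem_iff_neBot, Filter.frequently_cofinite_iff_infinite]
      exact hSi
    have hle : (cofinite ⊓ 𝓟 S : Filter (Fin n → ℕ)) ≤ cofinite ⊓ 𝓟 C := inf_le_inf_left _ (principal_mono.2 hS)
    exact trace_regular D (fun x y g h1 h2 => (hkey hat F hF x y g h1 h2).mono_left hle)
      (eventually_inf_principal.2 (Eventually.of_forall fun c hc => hinv c hc))

end Pool.Agent.Helper85.UV
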