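import Pool.Agent.Helper85.UV.Coeff
import Pool.Agent.TH463.UQ.Univ

set_option autoImplicit false

/-! Universal sets of indices for countably many sequences of multipliers. -/

namespace Pool.Agent.Helper85.UV
open Finset Filter Topology MeasureTheory
open scoped ENNReal
open Pool.Agent.H769R3 (X)
open Pool.Agent.TH463.UP (D Near nx lt_nx)
open Pool.Agent.TH463.UQ (del del_pos Valid Norm Pos wt exists_weight near_tendsto)

lemma del_le (m : ℕ) : del m ≤ 1 := by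
  unfold del
  rw [div_le_one (by positivity)]
  have : (0 : ℝ) ≤ m := Nat.cast_nonneg m
  linarith

lemma sum_half_le {κ : Type} [Encodable κ] (J : Finset κ) :
    ∑ i ∈ J, (1 / 2 : ℝ) ^ (Encodable.encode i + 1) ≤ 1 := by
  classical
  have e1 : ∑ i ∈ J, (1 / 2 : ℝ) ^ (Encodable.encode i + 1) =
      ∑ n ∈ J.image Encodable.encode, (1 / 2 : ℝ) ^ (n + 1) := by
    rw [sum_image (Encodable.encode_injective.injOn)]
  have e2 : J.image Encodable.encode ⊆ range ((J.image Encodable.encode).sup id + 1) := by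
    intro n hn
    rw [mem_range]
    exact Nat.lt_succ_of_le (le_sup (f := id) hn)
  rw [e1]
  refine (sum_le_sum_of_subset_of_nonneg e2 fun n _ _ => by positivity).trans ?_
  set T := (J.image Encodable.encode).sup id + 1 with hT
  have h7 : ∑ j ∈ range T, (1 / 2 : ℝ) ^ (j + 1) = (∑ j ∈ range T, (1 / 2 : ℝ) ^ j) * (1 / 2) := by
    rw [sum_mul]
    apply sum_congr rfl
    intro j _
    rw [pow_succ]
  rw [h7, geom_sum_eq (by norm_num)]
  have h8 : (0 : ℝ) ≤ (1 / 2) ^ T := by positivity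
  have h9 : ((1 / 2 : ℝ) ^ T - 1) / (1 / 2 - 1) = 2 * (1 - (1 / 2) ^ T) := by
    field_simp
    ring
  rw [h9]
  linarith

/-- the indices: the base, the tolerance, the sequence, and the weight -/
abbrev Idx (ι : Type) : Type := ℕ × ℕ × ι × ℕ × ℕ × List ℕ

section

variable {Γ : Type} {B : Bxs Γ} {ι : Type} [Encodable ι] {v : ι → Γ → ℤ} {N : ι → ℕ → ℕ} {r e : ι → ℕ} {K : ι → ℝ}

open Classical in
/-- the universal set -/
theorem exists_set (hM : ∀ i, Mom B (v i) (N i) (r i) (e i) (K i)) {η : ℝ} (hη : 0 < η) :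
    ∃ (C : Set Γ) (β : Idx ι → ℕ),
    (∀ Y : ℕ, (#((B.bx Y).filter fun c => c ∉ C) : ℝ) ≤ η * B.A Y) ∧
    ∀ (p m : ℕ) (i : ι) (k M : ℕ) (l : List ℕ), Valid p k M l →
      Level p k (del m) (gn (del m) (r i)) (gn (del m) (r i) * del m) (β (p, m, i, k, M, l)) ∧
      ∀ c ∈ C, c ∉ ES B (v i) (N i) p k (wt p M l) (del m) (gn (del m) (r i)) (β (p, m, i, k, M, l)) := by
  have hL0 := B.L0
  have hkey : ∀ i : Idx ι, ∃ β₀ : ℕ, Valid i.1 i.2.2.2.1 i.2.2.2.2.1 i.2.2.2.2.2 →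
      Level i.1 i.2.2.2.1 (del i.2.1) (gn (del i.2.1) (r i.2.2.1)) (gn (del i.2.1) (r i.2.2.1) * del i.2.1) β₀ ∧
      ∀ Y : ℕ, (#((B.bx Y).filter (fun c => (v i.2.2.1 c).natAbs ∈ Exc i.1 i.2.2.2.1
        (wt i.1 i.2.2.2.2.1 i.2.2.2.2.2) (del i.2.1) (gn (del i.2.1) (r i.2.2.1)) β₀ (N i.2.2.1 Y))) : ℝ) ≤
        (η * (1 / 2) ^ (Encodable.encode i + 1) / B.L) * B.A Y := by
    intro i
    by_cases hv : Valid i.1 i.2.2.2.1 i.2.2.2.2.1 i.2.2.2.2.2
    · obtain ⟨K', hL⟩ := ldh_of_mom (hM i.2.2.1) hv.1 (del_pos i.2.1) (del_le i.2.1)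
      obtain ⟨β₀, h1, h2⟩ := exc_bound hv.1 hv.2.2 (del_pos i.2.1) (gn_pos (del_pos i.2.1) (r i.2.2.1)) hL
        (mul_pos (gn_pos (del_pos i.2.1) (r i.2.2.1)) (del_pos i.2.1))
        (show 0 < η * (1 / 2) ^ (Encodable.encode i + 1) / B.L by positivity)
      exact ⟨β₀, fun _ => ⟨h1, h2⟩⟩
    · exact ⟨0, fun h => absurd h hv⟩
  choose b hb using hkey
  set P : Idx ι → Γ → Prop := fun i c => Valid i.1 i.2.2.2.1 i.2.2.2.2.1 i.2.2.2.2.2 ∧
    c ∈ ES B (v i.2.2.1) (N i.2.2.1) i.1 i.2.2.2.1 (wt i.1 i.2.2.2.2.1 i.2.2.2.2.2) (del i.2.1)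
      (gn (del i.2.1) (r i.2.2.1)) (b i) with hP
  refine ⟨{c | ∀ i, ¬ P i c}, b, ?_, ?_⟩
  · intro Y
    have hAY := B.A0 Y
    set Bad := (B.bx Y).filter fun c => c ∉ {c | ∀ i, ¬ P i c} with hBad
    have hex : ∀ c ∈ Bad, ∃ i, P i c := by
      intro c hc
      have h1 := (mem_filter.1 hc).2
      simp only [Set.mem_setOf_eq, not_forall, not_not] at h1
      exact h1
    rcases Bad.eq_empty_or_nonempty with hemp | hne
    · rw [hemp]
      simp only [card_empty, Nat.cast_zero]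
      positivity
    obtain ⟨c₀, hc₀⟩ := hne
    obtain ⟨i₀, hi₀⟩ := hex c₀ hc₀
    haveI : Nonempty (Idx ι) := ⟨i₀⟩
    choose! idx hidx using hex
    set J : Finset (Idx ι) := Bad.image idx with hJ
    have hsub : Bad ⊆ J.biUnion fun i => (B.bx Y).filter fun c => P i c := by
      intro c hc
      exact mem_biUnion.2 ⟨idx c, mem_image_of_mem idx hc, mem_filter.2 ⟨(mem_filter.1 hc).1, hidx c hc⟩⟩
    have h1 : (Bad.card : ℝ) ≤ ∑ i ∈ J, (#((B.bx Y).filter fun c => P i c) : ℝ) := by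
      exact_mod_cast (card_le_card hsub).trans card_biUnion_le
    have h2 : ∀ i ∈ J, (#((B.bx Y).filter fun c => P i c) : ℝ) ≤
        (η * B.A Y) * (1 / 2) ^ (Encodable.encode i + 1) := by
      intro i _
      by_cases hv : Valid i.1 i.2.2.2.1 i.2.2.2.2.1 i.2.2.2.2.2
      · have h3 := es_bound (η := η * (1 / 2) ^ (Encodable.encode i + 1) / B.L) (by positivity) (hb i hv).2 Y
        have h4 : (B.bx Y).filter (fun c => P i c) ⊆ (B.bx Y).filter (fun c =>
            c ∈ ES B (v i.2.2.1) (N i.2.2.1) i.1 i.2.2.2.1 (wt i.1 i.2.2.2.2.1 i.2.2.2.2.2) (del i.2.1)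
              (gn (del i.2.1) (r i.2.2.1)) (b i)) := by
          intro c hc
          rw [mem_filter] at hc ⊢
          exact ⟨hc.1, hc.2.2⟩
        have h5 : (#((B.bx Y).filter fun c => P i c) : ℝ) ≤ #((B.bx Y).filter (fun c =>
            c ∈ ES B (v i.2.2.1) (N i.2.2.1) i.1 i.2.2.2.1 (wt i.1 i.2.2.2.2.1 i.2.2.2.2.2) (del i.2.1)
              (gn (del i.2.1) (r i.2.2.1)) (b i))) := by
          exact_mod_cast card_le_card h4
        refine h5.trans (h3.trans (le_of_eq ?_))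
        field_simp
      · have : (B.bx Y).filter (fun c => P i c) = ∅ := by
          rw [filter_eq_empty_iff]
          intro c _ hc
          exact hv hc.1
        rw [this]
        simp only [card_empty, Nat.cast_zero]
        positivity
    refine h1.trans ((sum_le_sum h2).trans ?_)
    rw [← mul_sum]
    calc η * B.A Y * ∑ i ∈ J, (1 / 2 : ℝ) ^ (Encodable.encode i + 1) ≤ η * B.A Y * 1 :=
          mul_le_mul_of_nonneg_left (sum_half_le J) (by positivity)
      _ = η * B.A Y := mul_one _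
  · intro p m i k M l hv
    refine ⟨(hb (p, m, i, k, M, l) hv).1, fun c hc hcon => hc (p, m, i, k, M, l) ⟨hv, hcon⟩⟩

lemma norm_integral_natAbs (μ : Measure X) (m : ℤ) :
    ‖∫ x, (fourier ((m.natAbs : ℕ) : ℤ) x : ℂ) ∂μ‖ = ‖∫ x, (fourier m x : ℂ) ∂μ‖ := by
  rcases le_total 0 m with hm | hm
  · have h2 : ((m.natAbs : ℕ) : ℤ) = m := Int.natAbs_of_nonneg hm
    rw [h2]
  · have h2 : ((m.natAbs : ℕ) : ℤ) = -m := by omega
    rw [h2]
    have h3 : ∫ x, (fourier (-m) x : ℂ) ∂μ = (starRingEnd ℂ) (∫ x, (fourier m x : ℂ) ∂μ) := by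
      rw [← integral_conj]
      congr 1
      funext x
      exact fourier_neg
    rw [h3, Complex.norm_conj]

/-- the Fourier coefficients tend to zero along the universal set -/
theorem coeff_tendsto (hM : ∀ i, Mom B (v i) (N i) (r i) (e i) (K i)) {C : Set Γ} {β : Idx ι → ℕ}
    (hC : ∀ (p m : ℕ) (i : ι) (k M : ℕ) (l : List ℕ), Valid p k M l →
      Level p k (del m) (gn (del m) (r i)) (gn (del m) (r i) * del m) (β (p, m, i, k, M, l)) ∧
      ∀ c ∈ C, c ∉ ES B (v i) (N i) p k (wt p M l) (del m) (gn (del m) (r i)) (β (p, m, i, k, M, l)))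
    {p : ℕ} (hp : 2 ≤ p) {μ : Measure X} [IsProbabilityMeasure μ]
    (hμ : MeasurePreserving (fun x : X => p • x) μ μ) (hat : ∀ x, μ {x} = 0) (i : ι) :
    Tendsto (fun c : Γ => ∫ x, (fourier (v i c) x : ℂ) ∂μ) (comap B.ht atTop ⊓ 𝓟 C) (𝓝 0) := by
  rw [Metric.tendsto_nhds]
  intro ε hε
  obtain ⟨m, hm⟩ := exists_nat_one_div_lt (show (0 : ℝ) < ε / 6 by positivity)
  have hδ0 := del_pos m
  have hδ1 : del m < ε / 6 := hm
  have hg := gn_pos hδ0 (r i)
  obtain ⟨k, M, l, hw, hwn, hent⟩ := exists_weight hp hμ (mul_pos hg hδ0)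
  obtain ⟨hβ, hgood⟩ := hC p m i k M l ⟨hp, hw, hwn⟩
  have hnx : Tendsto (fun c : Γ => N i (nx (B.ht c))) (comap B.ht atTop) atTop := by
    refine (hM i).tends.comp (tendsto_atTop_mono (fun c => ?_) tendsto_comap)
    exact (lt_nx (B.ht c)).le
  have h3 := ((near_tendsto hat (p ^ β (p, m, i, k, M, l))).comp hnx).const_mul
    (AA p (gn (del m) (r i)) / gn (del m) (r i))
  rw [mul_zero] at h3
  have h4 := h3.eventually (gt_mem_nhds hδ0)
  rw [eventually_inf_principal]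
  filter_upwards [h4] with c hc hcC
  have h5 := coeff hp hμ.map_eq hδ0 hg hw hwn hent ((hM i).lt (nx (B.ht c)) c (lt_nx (B.ht c))) hβ
    (fun hcon => hgood c hcC (mem_ES.2 hcon))
  rw [norm_integral_natAbs] at h5
  rw [dist_zero_right]
  simp only [Function.comp] at hc
  linarith

/-- **Universal sets of indices.** -/
theorem universal (hM : ∀ i, Mom B (v i) (N i) (r i) (e i) (K i)) {η : ℝ} (hη : 0 < η) : ∃ C : Set Γ,
    (∀ Y : ℕ, ((Nat.card {c : Γ | c ∈ B.bx Y ∧ c ∉ C} : ℕ) : ℝ) ≤ η * B.A Y) ∧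
    ∀ p : ℕ, 2 ≤ p → ∀ μ : Measure X, IsProbabilityMeasure μ →
      MeasurePreserving (fun x : X => p • x) μ μ → (∀ x, μ {x} = 0) → ∀ i : ι,
      Tendsto (fun c : Γ => ∫ x, (fourier (v i c) x : ℂ) ∂μ) (comap B.ht atTop ⊓ 𝓟 C) (𝓝 0) := by
  classical
  obtain ⟨C, β, h1, h2⟩ := exists_set hM hη
  refine ⟨C, ?_, ?_⟩
  · intro Y
    have e : Nat.card {c : Γ | c ∈ B.bx Y ∧ c ∉ C} = ((B.bx Y).filter fun c => c ∉ C).card := by
      rw [← Nat.card_eq_finsetCard]
      apply Nat.card_congr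
      refine Equiv.subtypeEquivRight fun c => ?_
      simp [mem_filter]
    rw [e]
    exact h1 Y
  · intro p hp μ hμp hμ hat i
    exact coeff_tendsto hM h2 hp hμ hat i

end

end Pool.Agent.Helper85.UV
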